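import Pool.Agent.H694.Sound
import Pool.Graph.R_seed8.NPC.Dec

/-!
# The algorithm
-/

namespace Pool.Agent.H694

open Pool.Agent.NPC

/-- triples of numbers -/
abbrev Tp := ℕ × ℕ × ℕ

/-- the input: a list of vertices, a list of edges, a list of 2-faces -/
abbrev Cx := List ℕ × List (ℕ × ℕ) × List (ℕ × ℕ × ℕ)

def mem3 (x : ℕ) (f : Tp) : Bool := decide (x = f.1) || (decide (x = f.2.1) || decide (x = f.2.2))

def sub3 (g f : Tp) : Bool := mem3 g.1 f && (mem3 g.2.1 f && mem3 g.2.2 f)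

/-- is the triple a face of the list? -/
def faceT (F : List Tp) (g : Tp) : Bool := F.any fun f => sub3 g f && sub3 f g

theorem mem3_iff {x : ℕ} {f : Tp} : mem3 x f = true ↔ x ∈ fs f := by
  simp [mem3, fs]

theorem sub3_iff {g f : Tp} : sub3 g f = true ↔ fs g ⊆ fs f := by
  simp only [sub3, Bool.and_eq_true, mem3_iff]
  constructor
  · rintro ⟨h1, h2, h3⟩ v hv
    simp only [fs, Finset.mem_insert, Finset.mem_singleton] at hv
    rcases hv with rfl | rfl | rfl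
    · exact h1
    · exact h2
    · exact h3
  · intro h
    exact ⟨h (by simp [fs]), h (by simp [fs]), h (by simp [fs])⟩

theorem faceT_iff {F : List Tp} {g : Tp} : faceT F g = true ↔ fs g ∈ (F.map fs).toFinset := by
  simp only [faceT, List.any_eq_true, Bool.and_eq_true, sub3_iff, List.mem_toFinset, List.mem_map]
  constructor
  · rintro ⟨f, hf, h1, h2⟩
    exact ⟨f, hf, Finset.Subset.antisymm h2 h1⟩
  · rintro ⟨f, hf, h⟩
    exact ⟨f, hf, h.symm.subset, h.subset⟩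

/-- all words of a given length -/
def wordsL (V : List ℕ) : ℕ → List (List ℕ)
  | 0 => [[]]
  | ℓ + 1 => V.flatMap fun x => (wordsL V ℓ).map fun w => x :: w

theorem mem_wordsL {V : List ℕ} : ∀ {ℓ : ℕ} {w : List ℕ}, w ∈ wordsL V ℓ ↔
    w ∈ words V.toFinset ℓ
  | 0, w => by simp [wordsL, words]
  | ℓ + 1, w => by
    simp only [wordsL, words, List.mem_flatMap, List.mem_map, Finset.mem_image,
      Finset.mem_product, Prod.exists, mem_wordsL, List.mem_toFinset]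
    constructor
    · rintro ⟨x, hx, w', hw', rfl⟩
      exact ⟨x, w', ⟨hx, hw'⟩, rfl⟩
    · rintro ⟨x, w', ⟨hx, hw'⟩, rfl⟩
      exact ⟨x, hx, w', hw', rfl⟩

/-- is the triangle filled with a disk of shape `t`? -/
def filB (t : Tr) (V : List ℕ) (F : List Tp) (x y z : ℕ) : Bool :=
  (wordsL V t.inn).any fun J => (tri t x [y] z J).all fun f => faceT F f

/-- is the triangle filled with a disk of a shape of the list? -/
def filL (L : List Tr) (V : List ℕ) (F : List Tp) (x y z : ℕ) : Bool :=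
  L.any fun t => filB t V F x y z

/-- the symmetric version -/
def baseB (L : List Tr) (V : List ℕ) (F : List Tp) (x y z : ℕ) : Bool :=
  filL L V F x y z || (filL L V F y z x || (filL L V F z x y ||
    (filL L V F y x z || (filL L V F x z y || filL L V F z y x))))

theorem filL_iff {T : Finset Tr} {V : List ℕ} {F : List Tp} {x y z : ℕ} :
    filL T.toList V F x y z = true ↔ fil T V.toFinset (F.map fs).toFinset x y z := by
  simp only [filL, filB, fil, List.any_eq_true, List.all_eq_true, Finset.mem_toList, faceT_iff,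
    mem_wordsL]

theorem baseB_iff {T : Finset Tr} {V : List ℕ} {F : List Tp} {x y z : ℕ} :
    baseB T.toList V F x y z = true ↔ base T V.toFinset (F.map fs).toFinset x y z := by
  simp only [baseB, base, Bool.or_eq_true, filL_iff]

/-- all triples -/
def trip (V : List ℕ) : List Tp := V.flatMap fun x => V.flatMap fun y => V.map fun z => (x, y, z)

theorem mem_trip {V : List ℕ} {g : Tp} : g ∈ trip V ↔ g.1 ∈ V ∧ g.2.1 ∈ V ∧ g.2.2 ∈ V := by
  obtain ⟨x, y, z⟩ := g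
  simp only [trip, List.mem_flatMap, List.mem_map, Prod.mk.injEq]
  constructor
  · rintro ⟨x', hx, y', hy, z', hz, rfl, rfl, rfl⟩
    exact ⟨hx, hy, hz⟩
  · rintro ⟨hx, hy, hz⟩
    exact ⟨x, hx, y, hy, z, hz, rfl, rfl, rfl⟩

/-- the first list of triples -/
def S0 (L : List Tr) (Y : Cx) : List Tp :=
  (trip Y.1).filter fun g => baseB L Y.1 Y.2.2 g.1 g.2.1 g.2.2

/-- a round -/
def rnd (Y : Cx) (S : List Tp) : List Tp :=
  (trip Y.1).filter fun g => decide (g ∈ S) || Y.1.any fun w =>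
    decide ((g.1, g.2.1, w) ∈ S) && (decide ((g.2.1, g.2.2, w) ∈ S) &&
      decide ((g.1, g.2.2, w) ∈ S))

theorem mem_iter {T : Finset Tr} {Y : Cx} : ∀ {k : ℕ} {g : Tp},
    g ∈ (rnd Y)^[k] (S0 T.toList Y) ↔ (g.1 ∈ Y.1 ∧ g.2.1 ∈ Y.1 ∧ g.2.2 ∈ Y.1) ∧
      cl T Y.1.toFinset (Y.2.2.map fs).toFinset k g.1 g.2.1 g.2.2
  | 0, g => by
    simp only [Function.iterate_zero, id_eq, S0, List.mem_filter, mem_trip, baseB_iff, cl]
  | k + 1, g => by
    rw [Function.iterate_succ_apply', rnd, List.mem_filter, mem_trip]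
    simp only [Bool.or_eq_true, decide_eq_true_eq, List.any_eq_true, Bool.and_eq_true,
      mem_iter (k := k), cl, List.mem_toFinset]
    constructor
    · rintro ⟨h1, h2 | ⟨w, hw, h2, h3, h4⟩⟩
      · exact ⟨h1, Or.inl h2.2⟩
      · exact ⟨h1, Or.inr ⟨w, hw, h2.2, h3.2, h4.2⟩⟩
    · rintro ⟨h1, h2 | ⟨w, hw, h2, h3, h4⟩⟩
      · exact ⟨h1, Or.inl ⟨h1, h2⟩⟩
      · exact ⟨h1, Or.inr ⟨w, hw, ⟨⟨h1.1, h1.2.1, hw⟩, h2⟩, ⟨⟨h1.2.1, h1.2.2, hw⟩, h3⟩,
          ⟨h1.1, h1.2.2, hw⟩, h4⟩⟩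

/-- is the pair in the list of edges? -/
def edgeT (E : List (ℕ × ℕ)) (x y : ℕ) : Bool := decide ((x, y) ∈ E) || decide ((y, x) ∈ E)

/-- the lists form a complex -/
def chk (Y : Cx) : Bool :=
  (Y.2.1.all fun e => !decide (e.1 = e.2) && (decide (e.1 ∈ Y.1) && decide (e.2 ∈ Y.1))) &&
  (Y.2.2.all fun f => (!decide (f.1 = f.2.1) && (!decide (f.2.1 = f.2.2) &&
    !decide (f.1 = f.2.2))) && (edgeT Y.2.1 f.1 f.2.1 && (edgeT Y.2.1 f.2.1 f.2.2 &&
      edgeT Y.2.1 f.1 f.2.2)))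

/-- all pairs are edges -/
def full (Y : Cx) : Bool :=
  !Y.1.isEmpty && Y.1.all fun x => Y.1.all fun y => decide (x = y) || edgeT Y.2.1 x y

/-- the test -/
def test (L : List Tr) (Y : Cx) : Bool :=
  chk Y && (full Y && (trip Y.1).all fun g => decide (g.1 = g.2.1) || (decide (g.2.1 = g.2.2) ||
    (decide (g.1 = g.2.2) || decide (g ∈ (rnd Y)^[(0 :: Y.1).length] (S0 L Y)))))

/-! ### Polynomial time -/

theorem pmem {α β : Type} [TEnc α] [TEnc β] [DecidableEq β] {f : α → β} {l : α → List β}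
    {inst : ∀ a, Decidable (f a ∈ l a)} (hf : NPC.Poly f) (hl : NPC.Poly l) :
    NPC.Poly (fun a => @decide (f a ∈ l a) (inst a)) :=
  (NPC.Poly.decide_mem hf hl).congr fun a => by congr

section

variable {α : Type} [TEnc α]

theorem poly_mem3 {x : α → ℕ} {f : α → Tp} (hx : NPC.Poly x) (hf : NPC.Poly f) :
    NPC.Poly (fun a => mem3 (x a) (f a)) :=
  NPC.Poly.or (NPC.Poly.decide_eq hx (NPC.Poly.fst hf)) (NPC.Poly.or (NPC.Poly.decide_eq hx (NPC.Poly.fst (NPC.Poly.snd hf)))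
    (NPC.Poly.decide_eq hx (NPC.Poly.snd (NPC.Poly.snd hf))))

theorem poly_sub3 {g f : α → Tp} (hg : NPC.Poly g) (hf : NPC.Poly f) :
    NPC.Poly (fun a => sub3 (g a) (f a)) :=
  NPC.Poly.and (poly_mem3 (NPC.Poly.fst hg) hf) (NPC.Poly.and (poly_mem3 (NPC.Poly.fst (NPC.Poly.snd hg)) hf)
    (poly_mem3 (NPC.Poly.snd (NPC.Poly.snd hg)) hf))

theorem poly_faceT {F : α → List Tp} {g : α → Tp} (hF : NPC.Poly F) (hg : NPC.Poly g) :
    NPC.Poly (fun a => faceT (F a) (g a)) :=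
  NPC.Poly.any (p := fun a f => sub3 (g a) f && sub3 f (g a)) hF
    (NPC.Poly.and (poly_sub3 (hg.comp (NPC.Poly.fst NPC.Poly.id)) (NPC.Poly.snd NPC.Poly.id))
      (poly_sub3 (NPC.Poly.snd NPC.Poly.id) (hg.comp (NPC.Poly.fst NPC.Poly.id))))

theorem poly_wordsL {V : α → List ℕ} (hV : NPC.Poly V) : ∀ ℓ : ℕ, NPC.Poly (fun a => wordsL (V a) ℓ)
  | 0 => NPC.Poly.const _
  | ℓ + 1 => NPC.Poly.flatMap (F := fun a x => (wordsL (V a) ℓ).map fun w => x :: w) hV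
      (NPC.Poly.map (F := fun (q : α × ℕ) w => q.2 :: w)
        ((poly_wordsL hV ℓ).comp (NPC.Poly.fst NPC.Poly.id))
        (NPC.Poly.cons (NPC.Poly.snd (NPC.Poly.fst NPC.Poly.id)) (NPC.Poly.snd NPC.Poly.id)))

theorem poly_take0 : ∀ k : ℕ, NPC.Poly (fun l : List ℕ => l.take k)
  | 0 => (NPC.Poly.const ([] : List ℕ)).congr fun a => by simp
  | k + 1 => (NPC.Poly.listCases (l := fun l : List ℕ => l) (g := fun _ => ([] : List ℕ))
      (h := fun _ b t => b :: t.take k) NPC.Poly.id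
      (NPC.Poly.const _) (NPC.Poly.cons (NPC.Poly.fst (NPC.Poly.snd NPC.Poly.id))
        ((poly_take0 k).comp (NPC.Poly.snd (NPC.Poly.snd NPC.Poly.id))))).congr fun a => by
        cases a <;> rfl

theorem poly_take {l : α → List ℕ} (hl : NPC.Poly l) (k : ℕ) :
    NPC.Poly (fun a => (l a).take k) := (poly_take0 k).comp hl

theorem poly_drop : ∀ (k : ℕ) {l : α → List ℕ}, NPC.Poly l → NPC.Poly (fun a => (l a).drop k)
  | 0, l, hl => hl.congr fun a => by simp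
  | k + 1, l, hl => (poly_drop k (NPC.Poly.tail hl)).congr fun a => by
      cases l a <;> simp

theorem poly_tri : ∀ (t : Tr) {x z : α → ℕ} {m J : α → List ℕ}, NPC.Poly x → NPC.Poly m → NPC.Poly z →
    NPC.Poly J → NPC.Poly (fun a => tri t (x a) (m a) (z a) (J a))
  | Tr.edge, x, z, m, J, _, _, _, _ => NPC.Poly.const _
  | Tr.split l r, x, z, m, J, hx, hm, hz, hJ =>
    NPC.Poly.cons (NPC.Poly.pair hx (NPC.Poly.pair (NPC.Poly.getD hm (NPC.Poly.const l.md) (NPC.Poly.const 0)) hz))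
      (NPC.Poly.append (poly_tri l hx (poly_take hm l.md)
        (NPC.Poly.getD hm (NPC.Poly.const l.md) (NPC.Poly.const 0)) (poly_take hJ l.inn))
        (poly_tri r (NPC.Poly.getD hm (NPC.Poly.const l.md) (NPC.Poly.const 0)) (poly_drop (l.md + 1) hm) hz
          (poly_drop l.inn hJ)))
  | Tr.inner s, x, z, m, J, hx, hm, hz, hJ => by
    have hh : NPC.Poly (fun a => (J a).headD 0) := (NPC.Poly.head?_getD hJ 0).congr fun a => by
      cases J a <;> rfl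
    exact NPC.Poly.cons (NPC.Poly.pair hx (NPC.Poly.pair hz hh))
      (poly_tri s hx (NPC.Poly.append hm (NPC.Poly.cons hz (NPC.Poly.const []))) hh (NPC.Poly.tail hJ))

theorem poly_filB (t : Tr) {V : α → List ℕ} {F : α → List Tp} {x y z : α → ℕ} (hV : NPC.Poly V)
    (hF : NPC.Poly F) (hx : NPC.Poly x) (hy : NPC.Poly y) (hz : NPC.Poly z) :
    NPC.Poly (fun a => filB t (V a) (F a) (x a) (y a) (z a)) := by
  refine NPC.Poly.any (p := fun a J => (tri t (x a) [y a] (z a) J).all fun f => faceT (F a) f)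
    (poly_wordsL hV _) ?_
  refine NPC.Poly.all (l := fun q : α × List ℕ => tri t (x q.1) [y q.1] (z q.1) q.2)
    (p := fun q f => faceT (F q.1) f) ?_ ?_
  · exact poly_tri t (hx.comp (NPC.Poly.fst NPC.Poly.id))
      (NPC.Poly.cons (hy.comp (NPC.Poly.fst NPC.Poly.id)) (NPC.Poly.const [])) (hz.comp (NPC.Poly.fst NPC.Poly.id))
      (NPC.Poly.snd NPC.Poly.id)
  · exact poly_faceT (hF.comp (NPC.Poly.fst (NPC.Poly.fst NPC.Poly.id))) (NPC.Poly.snd NPC.Poly.id)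

theorem poly_filL {V : α → List ℕ} {F : α → List Tp} {x y z : α → ℕ} (hV : NPC.Poly V)
    (hF : NPC.Poly F) (hx : NPC.Poly x) (hy : NPC.Poly y) (hz : NPC.Poly z) : ∀ L : List Tr,
    NPC.Poly (fun a => filL L (V a) (F a) (x a) (y a) (z a))
  | [] => NPC.Poly.const false
  | t :: L => NPC.Poly.or (poly_filB t hV hF hx hy hz) (poly_filL hV hF hx hy hz L)

theorem poly_baseB (L : List Tr) {V : α → List ℕ} {F : α → List Tp} {x y z : α → ℕ}
    (hV : NPC.Poly V) (hF : NPC.Poly F) (hx : NPC.Poly x) (hy : NPC.Poly y) (hz : NPC.Poly z) :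
    NPC.Poly (fun a => baseB L (V a) (F a) (x a) (y a) (z a)) :=
  NPC.Poly.or (poly_filL hV hF hx hy hz L) (NPC.Poly.or (poly_filL hV hF hy hz hx L)
    (NPC.Poly.or (poly_filL hV hF hz hx hy L) (NPC.Poly.or (poly_filL hV hF hy hx hz L)
      (NPC.Poly.or (poly_filL hV hF hx hz hy L) (poly_filL hV hF hz hy hx L)))))

theorem poly_trip {V : α → List ℕ} (hV : NPC.Poly V) : NPC.Poly (fun a => trip (V a)) := by
  refine NPC.Poly.flatMap (F := fun a x => (V a).flatMap fun y => (V a).map fun z => (x, y, z)) hV ?_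
  refine NPC.Poly.flatMap (l := fun q : α × ℕ => V q.1)
    (F := fun (q : α × ℕ) y => (V q.1).map fun z => (q.2, y, z)) (hV.comp (NPC.Poly.fst NPC.Poly.id)) ?_
  refine NPC.Poly.map (l := fun q : (α × ℕ) × ℕ => V q.1.1)
    (F := fun (q : (α × ℕ) × ℕ) z => (q.1.2, q.2, z))
    (hV.comp (NPC.Poly.fst (NPC.Poly.fst NPC.Poly.id))) ?_
  exact NPC.Poly.pair (NPC.Poly.snd (NPC.Poly.fst (NPC.Poly.fst NPC.Poly.id)))
    (NPC.Poly.pair (NPC.Poly.snd (NPC.Poly.fst NPC.Poly.id)) (NPC.Poly.snd NPC.Poly.id))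

theorem poly_edgeT {E : α → List (ℕ × ℕ)} {x y : α → ℕ} (hE : NPC.Poly E) (hx : NPC.Poly x)
    (hy : NPC.Poly y) : NPC.Poly (fun a => edgeT (E a) (x a) (y a)) :=
  NPC.Poly.or (pmem (NPC.Poly.pair hx hy) hE) (pmem (NPC.Poly.pair hy hx) hE)

end

theorem poly_S0 (L : List Tr) : NPC.Poly (S0 L) := by
  refine NPC.Poly.filter (l := fun Y : Cx => trip Y.1)
    (p := fun (Y : Cx) g => baseB L Y.1 Y.2.2 g.1 g.2.1 g.2.2) (poly_trip (NPC.Poly.fst NPC.Poly.id)) ?_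
  exact poly_baseB L (NPC.Poly.fst (NPC.Poly.fst NPC.Poly.id)) (NPC.Poly.snd (NPC.Poly.snd (NPC.Poly.fst NPC.Poly.id)))
    (NPC.Poly.fst (NPC.Poly.snd NPC.Poly.id)) (NPC.Poly.fst (NPC.Poly.snd (NPC.Poly.snd NPC.Poly.id)))
    (NPC.Poly.snd (NPC.Poly.snd (NPC.Poly.snd NPC.Poly.id)))

theorem poly_rnd : NPC.Poly (fun q : Cx × List Tp => rnd q.1 q.2) := by
  refine NPC.Poly.filter (l := fun q : Cx × List Tp => trip q.1.1)
    (p := fun (q : Cx × List Tp) g => decide (g ∈ q.2) || q.1.1.any fun w =>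
    decide ((g.1, g.2.1, w) ∈ q.2) && (decide ((g.2.1, g.2.2, w) ∈ q.2) &&
      decide ((g.1, g.2.2, w) ∈ q.2))) (poly_trip (NPC.Poly.fst (NPC.Poly.fst NPC.Poly.id))) ?_
  refine NPC.Poly.or (pmem (NPC.Poly.snd NPC.Poly.id) (NPC.Poly.snd (NPC.Poly.fst NPC.Poly.id))) ?_
  refine NPC.Poly.any (l := fun r : (Cx × List Tp) × Tp => r.1.1.1)
    (p := fun (r : (Cx × List Tp) × Tp) w => decide ((r.2.1, r.2.2.1, w) ∈ r.1.2) &&
      (decide ((r.2.2.1, r.2.2.2, w) ∈ r.1.2) && decide ((r.2.1, r.2.2.2, w) ∈ r.1.2)))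
    (NPC.Poly.fst (NPC.Poly.fst (NPC.Poly.fst NPC.Poly.id))) ?_
  have h1 : NPC.Poly (fun s : ((Cx × List Tp) × Tp) × ℕ => s.1.2.1) :=
    NPC.Poly.fst (NPC.Poly.snd (NPC.Poly.fst NPC.Poly.id))
  have h2 : NPC.Poly (fun s : ((Cx × List Tp) × Tp) × ℕ => s.1.2.2.1) :=
    NPC.Poly.fst (NPC.Poly.snd (NPC.Poly.snd (NPC.Poly.fst NPC.Poly.id)))
  have h3 : NPC.Poly (fun s : ((Cx × List Tp) × Tp) × ℕ => s.1.2.2.2) :=
    NPC.Poly.snd (NPC.Poly.snd (NPC.Poly.snd (NPC.Poly.fst NPC.Poly.id)))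
  have h4 : NPC.Poly (fun s : ((Cx × List Tp) × Tp) × ℕ => s.1.1.2) :=
    NPC.Poly.snd (NPC.Poly.fst (NPC.Poly.fst NPC.Poly.id))
  have h5 : NPC.Poly (fun s : ((Cx × List Tp) × Tp) × ℕ => s.2) := NPC.Poly.snd NPC.Poly.id
  exact NPC.Poly.and (pmem (NPC.Poly.pair h1 (NPC.Poly.pair h2 h5)) h4)
    (NPC.Poly.and (pmem (NPC.Poly.pair h2 (NPC.Poly.pair h3 h5)) h4)
      (pmem (NPC.Poly.pair h1 (NPC.Poly.pair h3 h5)) h4))

theorem sz_filter {β : Type} [TEnc β] (l : List β) (p : β → Bool) : sz (l.filter p) ≤ sz l := by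
  induction l with
  | nil => simp
  | cons b l ih =>
    cases h : p b
    · simp [h]; omega
    · simp [h]; omega

theorem poly_iter (L : List Tr) :
    NPC.Poly (fun Y : Cx => (rnd Y)^[(0 :: Y.1).length] (S0 L Y)) := by
  obtain ⟨q, hq⟩ := (poly_trip (V := fun Y : Cx => Y.1) (NPC.Poly.fst NPC.Poly.id)).sz_le
  refine NPC.Poly.iterLen (l := fun Y : Cx => 0 :: Y.1) (s := S0 L) (F := rnd)
    (NPC.Poly.cons (NPC.Poly.const 0) (NPC.Poly.fst NPC.Poly.id)) (poly_S0 L) poly_rnd q ?_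
  intro Y k _
  cases k with
  | zero => exact (sz_filter _ _).trans (hq Y)
  | succ k =>
    rw [Function.iterate_succ_apply']
    exact (sz_filter _ _).trans (hq Y)

theorem poly_chk : NPC.Poly chk := by
  refine NPC.Poly.and ?_ ?_
  · refine NPC.Poly.all (l := fun Y : Cx => Y.2.1) (p := fun (Y : Cx) e => !decide (e.1 = e.2) &&
      (decide (e.1 ∈ Y.1) && decide (e.2 ∈ Y.1))) (NPC.Poly.fst (NPC.Poly.snd NPC.Poly.id)) ?_
    exact NPC.Poly.and (NPC.Poly.not (NPC.Poly.decide_eq (NPC.Poly.fst (NPC.Poly.snd NPC.Poly.id))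
      (NPC.Poly.snd (NPC.Poly.snd NPC.Poly.id)))) (NPC.Poly.and (pmem (NPC.Poly.fst (NPC.Poly.snd NPC.Poly.id))
        (NPC.Poly.fst (NPC.Poly.fst NPC.Poly.id))) (pmem (NPC.Poly.snd (NPC.Poly.snd NPC.Poly.id))
        (NPC.Poly.fst (NPC.Poly.fst NPC.Poly.id))))
  · refine NPC.Poly.all (l := fun Y : Cx => Y.2.2) (p := fun (Y : Cx) f => (!decide (f.1 = f.2.1) &&
      (!decide (f.2.1 = f.2.2) && !decide (f.1 = f.2.2))) && (edgeT Y.2.1 f.1 f.2.1 &&
      (edgeT Y.2.1 f.2.1 f.2.2 && edgeT Y.2.1 f.1 f.2.2))) (NPC.Poly.snd (NPC.Poly.snd NPC.Poly.id)) ?_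
    have h1 : NPC.Poly (fun s : Cx × Tp => s.2.1) := NPC.Poly.fst (NPC.Poly.snd NPC.Poly.id)
    have h2 : NPC.Poly (fun s : Cx × Tp => s.2.2.1) := NPC.Poly.fst (NPC.Poly.snd (NPC.Poly.snd NPC.Poly.id))
    have h3 : NPC.Poly (fun s : Cx × Tp => s.2.2.2) := NPC.Poly.snd (NPC.Poly.snd (NPC.Poly.snd NPC.Poly.id))
    have h4 : NPC.Poly (fun s : Cx × Tp => s.1.2.1) := NPC.Poly.fst (NPC.Poly.snd (NPC.Poly.fst NPC.Poly.id))
    exact NPC.Poly.and (NPC.Poly.and (NPC.Poly.not (NPC.Poly.decide_eq h1 h2))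
      (NPC.Poly.and (NPC.Poly.not (NPC.Poly.decide_eq h2 h3)) (NPC.Poly.not (NPC.Poly.decide_eq h1 h3))))
      (NPC.Poly.and (poly_edgeT h4 h1 h2) (NPC.Poly.and (poly_edgeT h4 h2 h3) (poly_edgeT h4 h1 h3)))

theorem poly_full : NPC.Poly full := by
  refine NPC.Poly.and (NPC.Poly.not (NPC.Poly.isEmpty (NPC.Poly.fst NPC.Poly.id))) ?_
  refine NPC.Poly.all (l := fun Y : Cx => Y.1)
    (p := fun (Y : Cx) x => Y.1.all fun y => decide (x = y) || edgeT Y.2.1 x y)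
    (NPC.Poly.fst NPC.Poly.id) ?_
  refine NPC.Poly.all (l := fun q : Cx × ℕ => q.1.1)
    (p := fun (q : Cx × ℕ) y => decide (q.2 = y) || edgeT q.1.2.1 q.2 y)
    (NPC.Poly.fst (NPC.Poly.fst NPC.Poly.id)) ?_
  exact NPC.Poly.or (NPC.Poly.decide_eq (NPC.Poly.snd (NPC.Poly.fst NPC.Poly.id)) (NPC.Poly.snd NPC.Poly.id))
    (poly_edgeT (NPC.Poly.fst (NPC.Poly.snd (NPC.Poly.fst (NPC.Poly.fst NPC.Poly.id))))
      (NPC.Poly.snd (NPC.Poly.fst NPC.Poly.id)) (NPC.Poly.snd NPC.Poly.id))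

theorem poly_test (L : List Tr) : NPC.Poly (test L) := by
  refine NPC.Poly.and poly_chk (NPC.Poly.and poly_full ?_)
  refine NPC.Poly.all (l := fun Y : Cx => trip Y.1)
    (p := fun (Y : Cx) g => decide (g.1 = g.2.1) || (decide (g.2.1 = g.2.2) ||
    (decide (g.1 = g.2.2) || decide (g ∈ (rnd Y)^[(0 :: Y.1).length] (S0 L Y)))))
    (poly_trip (NPC.Poly.fst NPC.Poly.id)) ?_
  have h1 : NPC.Poly (fun s : Cx × Tp => s.2.1) := NPC.Poly.fst (NPC.Poly.snd NPC.Poly.id)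
  have h2 : NPC.Poly (fun s : Cx × Tp => s.2.2.1) := NPC.Poly.fst (NPC.Poly.snd (NPC.Poly.snd NPC.Poly.id))
  have h3 : NPC.Poly (fun s : Cx × Tp => s.2.2.2) := NPC.Poly.snd (NPC.Poly.snd (NPC.Poly.snd NPC.Poly.id))
  exact NPC.Poly.or (NPC.Poly.decide_eq h1 h2) (NPC.Poly.or (NPC.Poly.decide_eq h2 h3)
    (NPC.Poly.or (NPC.Poly.decide_eq h1 h3) (pmem (NPC.Poly.snd NPC.Poly.id)
      ((poly_iter L).comp (NPC.Poly.fst NPC.Poly.id)))))

end Pool.Agent.H694
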