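import Pool.Agent.H694.Sparse

namespace Pool.Agent.H694

open Tr

/-- the set of vertices of a triangle -/
def fs (x : ℕ × ℕ × ℕ) : Finset ℕ := {x.1, x.2.1, x.2.2}

/-- the list of the triangles of a disk -/
def tri : Tr → ℕ → List ℕ → ℕ → List ℕ → List (ℕ × ℕ × ℕ)
  | Tr.edge, _, _, _, _ => []
  | Tr.split l r, a, m, b, J =>
    (a, m.getD l.md 0, b) ::
      (tri l a (m.take l.md) (m.getD l.md 0) (J.take l.inn) ++
        tri r (m.getD l.md 0) (m.drop (l.md + 1)) b (J.drop l.inn))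
  | Tr.inner s, a, m, b, J => (a, b, J.headD 0) :: tri s a (m ++ [b]) (J.headD 0) J.tail

theorem dk_tri : ∀ {t : Tr} {a b : ℕ} {m J : List ℕ}, t.ok → m.length = t.md →
    J.length = t.inn → Dk t a m b J ((tri t a m b J).map fs)
  | Tr.edge, a, b, m, J, _, hm, hJ => by
    have h1 : m = [] := List.length_eq_zero_iff.1 hm
    have h2 : J = [] := List.length_eq_zero_iff.1 hJ
    subst h1 h2
    exact Dk.edge a b
  | Tr.split l r, a, b, m, J, hok, hm, hJ => by
    have hm' : m.length = l.md + 1 + r.md := hm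
    have hJ' : J.length = l.inn + r.inn := hJ
    have e1 : m = m.take l.md ++ m.getD l.md 0 :: m.drop (l.md + 1) := by
      rw [List.getD_eq_getElem _ _ (by omega), List.getElem_cons_drop, List.take_append_drop]
    have e2 : J = J.take l.inn ++ J.drop l.inn := (List.take_append_drop _ _).symm
    have h1 := dk_tri (a := a) (b := m.getD l.md 0) (m := m.take l.md) (J := J.take l.inn) hok.1
      (by rw [List.length_take]; omega) (by rw [List.length_take]; omega)
    have h2 := dk_tri (a := m.getD l.md 0) (b := b) (m := m.drop (l.md + 1))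
      (J := J.drop l.inn) hok.2
      (by rw [List.length_drop]; omega) (by rw [List.length_drop]; omega)
    have h3 := Dk.split h1 h2
    rw [← e1, ← e2] at h3
    simpa [tri, fs] using h3
  | Tr.inner s, a, b, m, J, hok, hm, hJ => by
    have hm' : m.length = s.md - 1 := hm
    have hJ' : J.length = s.inn + 1 := hJ
    have h2 := hok.2.1
    cases J with
    | nil => simp at hJ'
    | cons w J =>
      have h1 := dk_tri (a := a) (b := w) (m := m ++ [b]) (J := J) hok.1
        (by simp; omega) (by simpa using hJ')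
      have h3 := Dk.inner h1
      simpa [tri, fs] using h3

/-- two disks on `a, x, y` and `b, x, y` -/
def comp (a b : ℕ) (t₁ t₂ : Tr) (x y : ℕ) (J : List ℕ) : Finset (Finset ℕ) :=
  ((tri t₁ a [x] y (J.take t₁.inn) ++ tri t₂ b [x] y (J.drop t₁.inn)).map fs).toFinset

/-- Admissible data. -/
structure Adm (a b : ℕ) (t₁ t₂ : Tr) (x y : ℕ) (J : List ℕ) : Prop where
  ok₁ : t₁.ok
  ok₂ : t₂.ok
  md₁ : t₁.md = 1
  md₂ : t₂.md = 1
  len : J.length = t₁.inn + t₂.inn
  nodup : (a :: b :: x :: y :: J).Nodup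

variable {a b x y : ℕ} {t₁ t₂ : Tr} {J : List ℕ}

namespace Adm

theorem dk₁ (h : Adm a b t₁ t₂ x y J) :
    Dk t₁ a [x] y (J.take t₁.inn) ((tri t₁ a [x] y (J.take t₁.inn)).map fs) :=
  dk_tri h.ok₁ (by rw [h.md₁]; rfl) (by rw [List.length_take, h.len]; omega)

theorem dk₂ (h : Adm a b t₁ t₂ x y J) :
    Dk t₂ b [x] y (J.drop t₁.inn) ((tri t₂ b [x] y (J.drop t₁.inn)).map fs) :=
  dk_tri h.ok₂ (by rw [h.md₂]; rfl) (by rw [List.length_drop, h.len]; omega)

theorem nd (h : Adm a b t₁ t₂ x y J) :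
    (a :: b :: x :: y :: (J.take t₁.inn ++ J.drop t₁.inn)).Nodup := by
  rw [List.take_append_drop]; exact h.nodup

theorem nd₁ (h : Adm a b t₁ t₂ x y J) : (vs a [x] y (J.take t₁.inn)).Nodup := by
  have := h.nd
  generalize J.take t₁.inn = J₁ at *
  generalize J.drop t₁.inn = J₂ at *
  simp [vs, List.nodup_append] at this ⊢; grind

theorem nd₂ (h : Adm a b t₁ t₂ x y J) : (vs b [x] y (J.drop t₁.inn)).Nodup := by
  have := h.nd
  generalize J.take t₁.inn = J₁ at *
  generalize J.drop t₁.inn = J₂ at *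
  simp [vs, List.nodup_append] at this ⊢; grind

theorem ne₁ (h : Adm a b t₁ t₂ x y J) : t₁ ≠ Tr.edge := by
  rintro rfl; exact absurd h.md₁ (by simp [Tr.md])

theorem ne₂ (h : Adm a b t₁ t₂ x y J) : t₂ ≠ Tr.edge := by
  rintro rfl; exact absurd h.md₂ (by simp [Tr.md])

theorem mem_comp {f : Finset ℕ} : f ∈ comp a b t₁ t₂ x y J ↔
    f ∈ (tri t₁ a [x] y (J.take t₁.inn)).map fs ∨ f ∈ (tri t₂ b [x] y (J.drop t₁.inn)).map fs := by
  simp [comp]

theorem not_both (h : Adm a b t₁ t₂ x y J) {f : Finset ℕ}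
    (hf : f ∈ (tri t₁ a [x] y (J.take t₁.inn)).map fs)
    (hf' : f ∈ (tri t₂ b [x] y (J.drop t₁.inn)).map fs) : False := by
  have h1 := h.dk₁.card h.nd₁ f hf
  have h2 : f ⊆ {x, y} := by
    intro v hv
    have h3 := h.dk₁.subset f hf v hv
    have h4 := h.dk₂.subset f hf' v hv
    have := h.nd
    generalize J.take t₁.inn = J₁ at *
    generalize J.drop t₁.inn = J₂ at *
    simp [mem_vs] at h3 h4 ⊢
    simp [List.nodup_append] at this; grind
  have := Finset.card_le_card h2
  have := Finset.card_le_two (a := x) (b := y)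
  omega

theorem card (h : Adm a b t₁ t₂ x y J) :
    (comp a b t₁ t₂ x y J).card = 2 * J.length + 2 := by
  unfold comp
  rw [List.map_append, List.toFinset_card_of_nodup, List.length_append,
    h.dk₁.count h.ok₁, h.dk₂.count h.ok₂, h.md₁, h.md₂, h.len]
  · ring
  · rw [List.nodup_append]
    refine ⟨h.dk₁.nodupH h.ok₁ h.nd₁, h.dk₂.nodupH h.ok₂ h.nd₂, ?_⟩
    rintro f hf g hg rfl
    exact h.not_both hf hg

/-- free vertices -/
def vtx (x y : ℕ) (J : List ℕ) : Finset ℕ := (x :: y :: J).toFinset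

theorem mem_vtx {v : ℕ} : v ∈ vtx x y J ↔ v = x ∨ v = y ∨ v ∈ J := by simp [vtx]

theorem card_vtx (h : Adm a b t₁ t₂ x y J) : (vtx x y J).card = J.length + 2 := by
  unfold vtx
  rw [List.toFinset_card_of_nodup]
  · simp
  · have := h.nodup
    simp at this ⊢; grind

theorem mem_of_take (n : ℕ) {v : ℕ} : v ∈ J ↔ v ∈ J.take n ∨ v ∈ J.drop n := by
  rw [← List.mem_append, List.take_append_drop]

theorem subset_vtx (h : Adm a b t₁ t₂ x y J) {f : Finset ℕ} (hf : f ∈ comp a b t₁ t₂ x y J)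
    {v : ℕ} (hv : v ∈ f) : v = a ∨ v = b ∨ v ∈ vtx x y J := by
  rcases mem_comp.1 hf with hf | hf
  · have := h.dk₁.subset f hf v hv
    rw [mem_vs] at this
    rw [mem_vtx, mem_of_take t₁.inn]
    simp at this; tauto
  · have := h.dk₂.subset f hf v hv
    rw [mem_vs] at this
    rw [mem_vtx, mem_of_take t₁.inn]
    simp at this; tauto

theorem not_ab (h : Adm a b t₁ t₂ x y J) {f : Finset ℕ} (hf : f ∈ comp a b t₁ t₂ x y J) :
    ¬ (a ∈ f ∧ b ∈ f) := by
  rintro ⟨ha, hb⟩
  have hn := h.nd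
  rcases mem_comp.1 hf with hf | hf
  · have := h.dk₁.subset f hf b hb
    generalize J.take t₁.inn = J₁ at *
    generalize J.drop t₁.inn = J₂ at *
    simp [mem_vs] at this
    simp [List.nodup_append] at hn; grind
  · have := h.dk₂.subset f hf a ha
    generalize J.take t₁.inn = J₁ at *
    generalize J.drop t₁.inn = J₂ at *
    simp [mem_vs] at this
    simp [List.nodup_append] at hn; grind

theorem cover (h : Adm a b t₁ t₂ x y J) {v : ℕ} (hv : v ∈ vtx x y J) :
    ∃ f ∈ comp a b t₁ t₂ x y J, v ∈ f := by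
  rw [mem_vtx, mem_of_take t₁.inn] at hv
  have h1 : v ∈ vs a [x] y (J.take t₁.inn) ∨ v ∈ vs b [x] y (J.drop t₁.inn) := by
    simp [mem_vs]; tauto
  rcases h1 with h1 | h1
  · obtain ⟨f, hf, hvf⟩ := h.dk₁.cover h.ok₁ h.ne₁ v h1
    exact ⟨f, mem_comp.2 (Or.inl hf), hvf⟩
  · obtain ⟨f, hf, hvf⟩ := h.dk₂.cover h.ok₂ h.ne₂ v h1
    exact ⟨f, mem_comp.2 (Or.inr hf), hvf⟩

theorem card3 (h : Adm a b t₁ t₂ x y J) {f : Finset ℕ} (hf : f ∈ comp a b t₁ t₂ x y J) :
    f.card = 3 := by
  rcases mem_comp.1 hf with hf | hf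
  · exact h.dk₁.card h.nd₁ f hf
  · exact h.dk₂.card h.nd₂ f hf

/-- few faces in a proper set of vertices -/
theorem sparse (h : Adm a b t₁ t₂ x y J) {Y : Finset ℕ} (hY : Y ⊆ vtx x y J)
    (hne : Y ≠ vtx x y J) {S : Finset (Finset ℕ)} (hS : S ⊆ comp a b t₁ t₂ x y J)
    (hSY : ∀ f ∈ S, f ⊆ insert a (insert b Y)) (hS0 : S.Nonempty) :
    S.card + 3 ≤ 2 * Y.card := by
  obtain ⟨X, hX⟩ : ∃ X : Finset ℕ, X = insert a (insert b Y) := ⟨_, rfl⟩
  obtain ⟨s1, -, e1⟩ := h.dk₁.sparse X h.ok₁ h.nd₁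
  obtain ⟨s2, -, e2⟩ := h.dk₂.sparse X h.ok₂ h.nd₂
  obtain ⟨f₁, hf₁⟩ : ∃ n, n = fc X ((tri t₁ a [x] y (J.take t₁.inn)).map fs) := ⟨_, rfl⟩
  obtain ⟨f₂, hf₂⟩ : ∃ n, n = fc X ((tri t₂ b [x] y (J.drop t₁.inn)).map fs) := ⟨_, rfl⟩
  obtain ⟨i₁, hi₁⟩ : ∃ n, n = (fl X (J.take t₁.inn)).length := ⟨_, rfl⟩
  obtain ⟨i₂, hi₂⟩ : ∃ n, n = (fl X (J.drop t₁.inn)).length := ⟨_, rfl⟩
  rw [← hf₁, ← hi₁] at s1 e1
  rw [← hf₂, ← hi₂] at s2 e2
  -- the number of faces
  have hSc : S.card ≤ f₁ + f₂ := by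
    have h1 : S ⊆ (((tri t₁ a [x] y (J.take t₁.inn)).map fs ++
        (tri t₂ b [x] y (J.drop t₁.inn)).map fs).filter (fun f => decide (f ⊆ X))).toFinset := by
      intro f hf
      rw [List.mem_toFinset, List.mem_filter, List.mem_append]
      exact ⟨mem_comp.1 (hS hf), by simpa [hX] using hSY f hf⟩
    refine (Finset.card_le_card h1).trans ((List.toFinset_card_le _).trans ?_)
    rw [← List.countP_eq_length_filter, List.countP_append, hf₁, hf₂]
    rfl
  have hSp : 1 ≤ S.card := Finset.card_pos.2 hS0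
  have hab : a ∉ Y ∧ b ∉ Y := by
    constructor
    · intro hh
      have := mem_vtx.1 (hY hh)
      have := h.nodup
      simp at this; grind
    · intro hh
      have := mem_vtx.1 (hY hh)
      have := h.nodup
      simp at this; grind
  have hJX : ∀ v ∈ J, (v ∈ X ↔ v ∈ Y) := by
    intro v hv
    rw [hX, Finset.mem_insert, Finset.mem_insert]
    have := h.nodup
    simp at this; grind
  have hxX : (x ∈ X ↔ x ∈ Y) := by
    rw [hX, Finset.mem_insert, Finset.mem_insert]
    have := h.nodup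
    simp at this; grind
  have hyX : (y ∈ X ↔ y ∈ Y) := by
    rw [hX, Finset.mem_insert, Finset.mem_insert]
    have := h.nodup
    simp at this; grind
  have haX : a ∈ X := by simp [hX]
  have hbX : b ∈ X := by simp [hX]
  -- the number of vertices
  have hYc : Y.card = i₁ + i₂ + ((if x ∈ X then 1 else 0) + (if y ∈ X then 1 else 0)) := by
    have h1 : Y = ((x :: y :: J).filter (fun v => decide (v ∈ X))).toFinset := by
      ext v
      simp only [List.mem_toFinset, List.mem_filter, List.mem_cons, decide_eq_true_eq]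
      constructor
      · intro hv
        have := mem_vtx.1 (hY hv)
        exact ⟨this, by simp [hX, hv]⟩
      · rintro ⟨hv, hvX⟩
        rcases hv with rfl | rfl | hv
        · exact hxX.1 hvX
        · exact hyX.1 hvX
        · exact (hJX v hv).1 hvX
    have h2 : (x :: y :: J).Nodup := by
      have := h.nodup
      simp at this ⊢; grind
    rw [h1, List.toFinset_card_of_nodup (h2.filter _)]
    rw [hi₁, hi₂]
    have h3 : (J.filter (fun v => decide (v ∈ X))).length =
        (fl X (J.take t₁.inn)).length + (fl X (J.drop t₁.inn)).length := by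
      rw [← List.length_append, ← fl_append, List.take_append_drop]; rfl
    by_cases hx : x ∈ X <;> by_cases hy : y ∈ X <;> simp [hx, hy, h3]
  -- the polygons
  have hp1 : fl X (a :: ([x] ++ [y])) = [a] ++ (fl X [x] ++ fl X [y]) := by
    rw [fl_cons, fl_mem haX, fl_append]
  have hp2 : fl X (b :: ([x] ++ [y])) = [b] ++ (fl X [x] ++ fl X [y]) := by
    rw [fl_cons, fl_mem hbX, fl_append]
  rw [hp1] at s1 e1
  rw [hp2] at s2 e2
  unfold Sp at s1 s2
  by_cases hx : x ∈ X
  · by_cases hy : y ∈ X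
    · rw [fl_mem hx, fl_mem hy] at s1 e1 s2 e2
      simp only [List.length_append, List.length_cons, List.length_nil] at s1 e1 s2 e2
      rw [if_pos hx, if_pos hy] at hYc
      have h5 : (¬ ∀ v ∈ J.take t₁.inn, v ∈ X) ∨ (¬ ∀ v ∈ J.drop t₁.inn, v ∈ X) := by
        by_contra hcon
        push Not at hcon
        apply hne
        apply Finset.Subset.antisymm hY
        intro v hv
        rcases mem_vtx.1 hv with rfl | rfl | hv
        · exact hxX.1 hx
        · exact hyX.1 hy
        · apply (hJX v hv).1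
          rcases (mem_of_take t₁.inn).1 hv with hv | hv
          · exact hcon.1 v hv
          · exact hcon.2 v hv
      rcases h5 with h5 | h5
      · have := e1 (by simp [haX, hx, hy]) (by simp) h5
        omega
      · have := e2 (by simp [hbX, hx, hy]) (by simp) h5
        omega
    · rw [fl_mem hx, fl_notMem hy] at s1 s2
      simp only [List.length_append, List.length_cons, List.length_nil, true_imp_iff] at s1 s2
      rw [if_pos hx, if_neg hy] at hYc
      clear e1 e2
      omega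
  · by_cases hy : y ∈ X
    · rw [fl_notMem hx, fl_mem hy] at s1 s2
      simp only [List.length_append, List.length_cons, List.length_nil, true_imp_iff] at s1 s2
      rw [if_neg hx, if_pos hy] at hYc
      clear e1 e2
      omega
    · rw [fl_notMem hx, fl_notMem hy] at s1 s2
      simp only [List.length_append, List.length_cons, List.length_nil, true_imp_iff] at s1 s2
      rw [if_neg hx, if_neg hy] at hYc
      clear e1 e2
      omega

/-- Two different structures sharing a face. -/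
theorem pair {t₁' t₂' : Tr} {x' y' : ℕ} {J' : List ℕ} (h : Adm a b t₁ t₂ x y J)
    (h' : Adm a b t₁' t₂' x' y' J')
    (hne : comp a b t₁ t₂ x y J ≠ comp a b t₁' t₂' x' y' J')
    (hint : (comp a b t₁ t₂ x y J ∩ comp a b t₁' t₂' x' y' J').Nonempty) :
    2 * (vtx x y J ∪ vtx x' y' J').card ≤
      (comp a b t₁ t₂ x y J ∪ comp a b t₁' t₂' x' y' J').card + 1 := by
  have c1 := h.card
  have c2 := h'.card
  have v1 := h.card_vtx
  have v2 := h'.card_vtx
  have key : (comp a b t₁ t₂ x y J ∩ comp a b t₁' t₂' x' y' J').card + 3 ≤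
      2 * (vtx x y J ∩ vtx x' y' J').card := by
    have hsub : ∀ f ∈ comp a b t₁ t₂ x y J ∩ comp a b t₁' t₂' x' y' J',
        f ⊆ insert a (insert b (vtx x y J ∩ vtx x' y' J')) := by
      intro f hf v hv
      rw [Finset.mem_inter] at hf
      have h1 := h.subset_vtx hf.1 hv
      have h2 := h'.subset_vtx hf.2 hv
      rw [Finset.mem_insert, Finset.mem_insert, Finset.mem_inter]
      tauto
    by_cases hN : vtx x y J ∩ vtx x' y' J' = vtx x y J
    · by_cases hN' : vtx x y J ∩ vtx x' y' J' = vtx x' y' J'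
      · have e : vtx x y J = vtx x' y' J' := hN.symm.trans hN'
        have e2 : J.length = J'.length := by
          have := congrArg Finset.card e
          omega
        have hlt : (comp a b t₁ t₂ x y J ∩ comp a b t₁' t₂' x' y' J').card <
            (comp a b t₁ t₂ x y J).card := by
          apply Finset.card_lt_card
          refine ⟨Finset.inter_subset_left, fun hh => hne ?_⟩
          apply Finset.eq_of_subset_of_card_le
          · exact hh.trans Finset.inter_subset_right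
          · omega
        rw [hN, v1]
        omega
      · exact h'.sparse Finset.inter_subset_right hN' Finset.inter_subset_right hsub hint
    · exact h.sparse Finset.inter_subset_left hN Finset.inter_subset_left hsub hint
  have e1 := Finset.card_union_add_card_inter (comp a b t₁ t₂ x y J) (comp a b t₁' t₂' x' y' J')
  have e2 := Finset.card_union_add_card_inter (vtx x y J) (vtx x' y' J')
  omega

theorem free_of {p q u₁ u₂ : ℕ} {K₁ K₂ : List ℕ} {G : List (Finset ℕ)}
    (hG : ∀ f ∈ G, ∀ v ∈ f, v ∈ vs q [u₁] u₂ K₂)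
    (hn : (p :: q :: u₁ :: u₂ :: (K₁ ++ K₂)).Nodup) : Free p [u₁] u₂ K₁ {f | f ∈ G} := by
  intro f hf u hu v hv huv hfu hfv
  have h1 := hG f hf u hfu
  have h2 := hG f hf v hfv
  have key : (u = u₁ ∧ v = u₂) ∨ (u = u₂ ∧ v = u₁) := by
    simp [mem_vs] at hu hv h1 h2
    simp [List.nodup_append] at hn; grind
  rcases key with ⟨rfl, rfl⟩ | ⟨rfl, rfl⟩
  · exact ⟨1, Or.inl ⟨rfl, rfl⟩⟩
  · exact ⟨1, Or.inr ⟨rfl, rfl⟩⟩

theorem nodup_swap {p q u₁ u₂ : ℕ} {K₁ K₂ : List ℕ}
    (hn : (p :: q :: u₁ :: u₂ :: (K₁ ++ K₂)).Nodup) :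
    (q :: p :: u₁ :: u₂ :: (K₂ ++ K₁)).Nodup := by
  simp [List.nodup_append] at hn ⊢; grind

theorem vtx_subset {t₁' t₂' : Tr} {x' y' : ℕ} {J' : List ℕ} (h : Adm a b t₁ t₂ x y J)
    (h' : Adm a b t₁' t₂' x' y' J')
    (heq : comp a b t₁ t₂ x y J = comp a b t₁' t₂' x' y' J') : vtx x y J ⊆ vtx x' y' J' := by
  intro v hv
  obtain ⟨f, hf, hvf⟩ := h.cover hv
  rw [heq] at hf
  rcases h'.subset_vtx hf hvf with h1 | h1 | h1
  · exfalso
    have h2 := mem_vtx.1 hv
    have := h.nodup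
    simp at this; grind
  · exfalso
    have h2 := mem_vtx.1 hv
    have := h.nodup
    simp at this; grind
  · exact h1

theorem inj {t₁' t₂' : Tr} {x' y' : ℕ} {J' : List ℕ} (h : Adm a b t₁ t₂ x y J)
    (h' : Adm a b t₁' t₂' x' y' J') (U A : ℕ → Prop) (hx : U x ∧ A x) (hy : U y ∧ ¬ A y)
    (hJ : ∀ v ∈ J, ¬ U v) (hx' : U x' ∧ A x') (hy' : U y' ∧ ¬ A y') (hJ' : ∀ v ∈ J', ¬ U v)
    (heq : comp a b t₁ t₂ x y J = comp a b t₁' t₂' x' y' J') :
    t₁ = t₁' ∧ t₂ = t₂' ∧ x = x' ∧ y = y' ∧ J = J' := by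
  have hv := h.vtx_subset h' heq
  have hxx : x = x' := by
    rcases mem_vtx.1 (hv (mem_vtx.2 (Or.inl rfl))) with h1 | h1 | h1
    · exact h1
    · exact absurd (h1 ▸ hx.2) hy'.2
    · exact absurd hx.1 (hJ' x h1)
  have hyy : y = y' := by
    rcases mem_vtx.1 (hv (mem_vtx.2 (Or.inr (Or.inl rfl)))) with h1 | h1 | h1
    · exact absurd (h1 ▸ hx'.2) hy.2
    · exact h1
    · exact absurd hy.1 (hJ' y h1)
  subst hxx hyy
  have hmem : ∀ f, (f ∈ (tri t₁ a [x] y (J.take t₁.inn)).map fs ∨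
      f ∈ (tri t₂ b [x] y (J.drop t₁.inn)).map fs) ↔
      (f ∈ (tri t₁' a [x] y (J'.take t₁'.inn)).map fs ∨
      f ∈ (tri t₂' b [x] y (J'.drop t₁'.inn)).map fs) := by
    intro f
    rw [← mem_comp, ← mem_comp, heq]
  have i1 := h.dk₁.unique h.ok₁ h.nd₁ h'.dk₁ h'.ok₁ h'.nd₁
    (free_of h.dk₂.subset h.nd) (free_of h'.dk₂.subset h'.nd) hmem
  have i2 := h.dk₂.unique h.ok₂ h.nd₂ h'.dk₂ h'.ok₂ h'.nd₂
    (free_of h.dk₁.subset (nodup_swap h.nd)) (free_of h'.dk₁.subset (nodup_swap h'.nd))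
    (fun f => by
      have := hmem f
      rw [or_comm, or_comm (a := f ∈ (tri t₁' a [x] y (J'.take t₁'.inn)).map fs)] at this
      exact this)
  refine ⟨i1.1, i2.1, rfl, rfl, ?_⟩
  rw [← List.take_append_drop t₁.inn J, ← List.take_append_drop t₁'.inn J', i1.2, i2.2]

end Adm

end Pool.Agent.H694
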