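import Pool.Agent.H694.Glue

/-!
# Counting shapes
-/

namespace Pool.Agent.H694

open scoped ENNReal
open Tr

/-- weight of a shape -/
noncomputable def wt (y z : ℝ≥0∞) (t : Tr) : ℝ≥0∞ := y ^ t.md * z ^ t.inn

/-- the generating function of the shapes with a property -/
noncomputable def gf (P : Tr → Prop) (y z : ℝ≥0∞) : ℝ≥0∞ :=
  ∑' t : Tr, {t | P t}.indicator (wt y z) t

theorem tsum_pair (f g : Tr → ℝ≥0∞) :
    ∑' p : Tr × Tr, f p.1 * g p.2 = (∑' t, f t) * ∑' t, g t := by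
  rw [ENNReal.tsum_prod (f := fun a b => f a * g b)]
  simp_rw [ENNReal.tsum_mul_left, ENNReal.tsum_mul_right]

theorem gf_eq1 (y z : ℝ≥0∞) :
    y * gf Tr.ok y z = y + y * (y * (gf Tr.ok y z * gf Tr.ok y z)) +
      z * gf (fun s => s.ok ∧ 2 ≤ s.md ∧ ¬ s.ch (s.md - 1)) y z := by
  have h1 : gf Tr.ok y z = 1 + (y * (gf Tr.ok y z * gf Tr.ok y z) +
      ∑' s : Tr, {t | Tr.ok t}.indicator (wt y z) (inner s)) := by
    conv_lhs => rw [gf, ← Tr.equiv.symm.tsum_eq]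
    rw [ENNReal.summable.tsum_sum ENNReal.summable, ENNReal.summable.tsum_sum ENNReal.summable]
    congr 1
    · simp [Tr.equiv, Set.indicator, Tr.ok, wt, Tr.md, Tr.inn]
    · congr 1
      have e : ∀ p : Tr × Tr, {t | Tr.ok t}.indicator (wt y z) (Tr.equiv.symm (Sum.inr (Sum.inl p)))
          = y * ({t | Tr.ok t}.indicator (wt y z) p.1 * {t | Tr.ok t}.indicator (wt y z) p.2) := by
        rintro ⟨l, r⟩
        simp only [Tr.equiv, Equiv.coe_fn_symm_mk, Set.indicator, Set.mem_ofPred_eq, Tr.ok, wt,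
          Tr.md, Tr.inn]
        by_cases h1 : l.ok <;> by_cases h2 : r.ok <;> simp [h1, h2]
        ring
      rw [tsum_congr e, ENNReal.tsum_mul_left, tsum_pair]
      rfl
  conv_lhs => rw [h1]
  rw [mul_add, mul_add, mul_one, add_assoc]
  congr 2
  rw [gf, ← ENNReal.tsum_mul_left, ← ENNReal.tsum_mul_left]
  apply tsum_congr
  intro s
  simp only [Set.indicator, Set.mem_ofPred_eq, Tr.ok, wt, Tr.md, Tr.inn]
  by_cases h : s.ok ∧ 2 ≤ s.md ∧ ¬ s.ch (s.md - 1)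
  · rw [if_pos h, if_pos h]
    obtain ⟨k, hk⟩ : ∃ k, s.md = k + 1 := ⟨s.md - 1, by omega⟩
    rw [hk, Nat.add_sub_cancel, pow_succ, pow_succ]
    ring
  · rw [if_neg h, if_neg h]; simp

theorem gf_split (y z : ℝ≥0∞) (P Q : Tr → Prop) (h : ∀ t, ¬ (P t ∧ Q t)) :
    gf (fun t => P t ∨ Q t) y z = gf P y z + gf Q y z := by
  rw [gf, gf, gf, ← ENNReal.tsum_add]
  apply tsum_congr
  intro t
  simp only [Set.indicator, Set.mem_ofPred_eq]
  have := h t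
  by_cases h1 : P t <;> by_cases h2 : Q t
  · exact absurd ⟨h1, h2⟩ this
  · simp [h1, h2]
  · simp [h1, h2]
  · simp [h1, h2]

theorem gf_congr (y z : ℝ≥0∞) {P Q : Tr → Prop} (h : ∀ t, P t ↔ Q t) : gf P y z = gf Q y z := by
  have : P = Q := funext fun t => propext (h t)
  rw [this]

theorem gf_md_zero (y z : ℝ≥0∞) : gf (fun t => t.ok ∧ t.md = 0) y z = 1 := by
  rw [gf, tsum_eq_single Tr.edge]
  · simp [Set.indicator, Tr.ok, Tr.md, wt, Tr.inn]
  · intro t ht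
    rw [Set.indicator_of_notMem]
    rintro ⟨h1, h2⟩
    exact ht (Tr.md_zero h1 h2)

/-- the sum over the shapes of triangles -/
noncomputable def T1 (z : ℝ≥0∞) : ℝ≥0∞ := gf (fun t => t.ok ∧ t.md = 1) 1 z

theorem gf_md_one (y z : ℝ≥0∞) : gf (fun t => t.ok ∧ t.md = 1) y z = y * T1 z := by
  rw [T1, gf, gf, ← ENNReal.tsum_mul_left]
  apply tsum_congr
  intro t
  simp only [Set.indicator, Set.mem_ofPred_eq]
  by_cases h : t.ok ∧ t.md = 1
  · rw [if_pos h, if_pos h, wt, wt, h.2]; simp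
  · rw [if_neg h, if_neg h]; simp

theorem gf_ok (y z : ℝ≥0∞) : gf Tr.ok y z = 1 + gf (fun t => t.ok ∧ 1 ≤ t.md) y z := by
  rw [← gf_md_zero y z, ← gf_split]
  · apply gf_congr
    intro t
    constructor
    · intro h
      rcases Nat.eq_zero_or_pos t.md with h0 | h0
      · exact Or.inl ⟨h, h0⟩
      · exact Or.inr ⟨h, h0⟩
    · rintro (h | h)
      · exact h.1
      · exact h.1
  · rintro t ⟨h1, h2⟩; omega

theorem gf_eq2 (y z : ℝ≥0∞) : gf (fun t => t.ok ∧ 1 ≤ t.md) y z = y * T1 z +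
    (gf (fun s => s.ok ∧ 2 ≤ s.md ∧ ¬ s.ch (s.md - 1)) y z +
      gf (fun s => s.ok ∧ 2 ≤ s.md ∧ s.ch (s.md - 1)) y z) := by
  rw [← gf_md_one, ← gf_split, ← gf_split]
  · apply gf_congr
    intro t
    constructor
    · rintro ⟨h, h1⟩
      by_cases h2 : t.md = 1
      · exact Or.inl ⟨h, h2⟩
      · right
        by_cases h3 : t.ch (t.md - 1)
        · exact Or.inr ⟨h, by omega, h3⟩
        · exact Or.inl ⟨h, by omega, h3⟩
    · rintro (h | h | h)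
      · exact ⟨h.1, by omega⟩
      · exact ⟨h.1, by omega⟩
      · exact ⟨h.1, by omega⟩
  · rintro t ⟨h1, h2⟩; rcases h2 with h2 | h2 <;> omega
  · rintro t ⟨h1, h2⟩; exact h1.2.2 h2.2.2

theorem gf_eq3 (y z : ℝ≥0∞) : gf (fun s => s.ok ∧ 2 ≤ s.md ∧ s.ch (s.md - 1)) y z =
    y * T1 z * gf (fun t => t.ok ∧ 1 ≤ t.md) y z := by
  rw [← gf_md_one, gf, gf, gf, ← tsum_pair]
  have key : ∀ p : Tr × Tr, p.1.ok ∧ p.1.md = 1 → p.2.ok ∧ 1 ≤ p.2.md →
      (glue p.1 p.2).ok ∧ 2 ≤ (glue p.1 p.2).md ∧ (glue p.1 p.2).ch ((glue p.1 p.2).md - 1) := by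
    intro p hp hq
    have hne : p.1 ≠ edge := by
      intro h; rw [h] at hp; simp [md] at hp
    refine ⟨ok_glue hp.1 hq.1, ?_, ?_⟩
    · rw [md_glue hp.1]; omega
    · rw [md_glue hp.1, hp.2, Nat.add_sub_cancel_left]
      exact ch_glue hp.1 hne p.2
  have supp : ∀ p : Tr × Tr, {t : Tr | t.ok ∧ t.md = 1}.indicator (wt y z) p.1 *
      {t : Tr | t.ok ∧ 1 ≤ t.md}.indicator (wt y z) p.2 ≠ 0 →
      (p.1.ok ∧ p.1.md = 1) ∧ (p.2.ok ∧ 1 ≤ p.2.md) := by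
    intro p hp
    constructor
    · by_contra h
      rw [Set.indicator_of_notMem (show p.1 ∉ {t : Tr | t.ok ∧ t.md = 1} from h)] at hp
      simp at hp
    · by_contra h
      rw [Set.indicator_of_notMem (show p.2 ∉ {t : Tr | t.ok ∧ 1 ≤ t.md} from h)] at hp
      simp at hp
  have val : ∀ p : Tr × Tr, (p.1.ok ∧ p.1.md = 1) → (p.2.ok ∧ 1 ≤ p.2.md) →
      {t : Tr | t.ok ∧ 2 ≤ t.md ∧ t.ch (t.md - 1)}.indicator (wt y z) (glue p.1 p.2) =
      {t : Tr | t.ok ∧ t.md = 1}.indicator (wt y z) p.1 *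
      {t : Tr | t.ok ∧ 1 ≤ t.md}.indicator (wt y z) p.2 := by
    intro p h1 h2
    rw [Set.indicator_of_mem (show glue p.1 p.2 ∈ {t : Tr | t.ok ∧ 2 ≤ t.md ∧ t.ch (t.md - 1)}
      from key p h1 h2), Set.indicator_of_mem (show p.1 ∈ {t : Tr | t.ok ∧ t.md = 1} from h1),
      Set.indicator_of_mem (show p.2 ∈ {t : Tr | t.ok ∧ 1 ≤ t.md} from h2), wt, wt, wt,
      md_glue h1.1, inn_glue, pow_add, pow_add]
    ring
  refine tsum_eq_tsum_of_ne_zero_bij (fun p => glue p.1.1 p.1.2) ?_ ?_ ?_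
  · rintro ⟨p, hp⟩ ⟨q, hq⟩ h
    have h1 := supp p hp
    have h2 := supp q hq
    simp only at h
    have h3 := congrArg Tr.md h
    rw [md_glue h1.1.1, md_glue h2.1.1] at h3
    have h4 := glue_inj h1.1.1 h2.1.1 (by rw [h1.1.2, h2.1.2]) h (by omega)
    exact Subtype.ext (Prod.ext h4.1 h4.2)
  · intro t ht
    have h1 : t.ok ∧ 2 ≤ t.md ∧ t.ch (t.md - 1) := by
      by_contra h
      apply ht
      rw [Set.indicator_of_notMem (show t ∉ {t : Tr | t.ok ∧ 2 ≤ t.md ∧ t.ch (t.md - 1)} from h)]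
    obtain ⟨u, v, hu, hv, hne, hvj, hg⟩ := exists_glue h1.1 _ h1.2.2 (by omega)
    have h3 : t.md = u.md + v.md := by rw [← hg, md_glue hu]
    have hu' : u.ok ∧ u.md = 1 := ⟨hu, by omega⟩
    have hv' : v.ok ∧ 1 ≤ v.md := ⟨hv, by omega⟩
    refine ⟨⟨(u, v), ?_⟩, hg⟩
    rw [Function.mem_support, ← val (u, v) hu' hv']
    simp only [hg]
    exact ht
  · rintro ⟨p, hp⟩
    have h1 := supp p hp
    exact val p h1.1 h1.2

/-! ### Convergence for small weights -/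

/-- depth -/
def Tr.depth : Tr → ℕ
  | Tr.edge => 0
  | Tr.split l r => max l.depth r.depth + 1
  | Tr.inner s => s.depth + 1

theorem depth_sum (n : ℕ) :
    ∑' t : Tr, {t : Tr | t.depth ≤ n}.indicator (fun t => (3⁻¹ : ℝ≥0∞) ^ t.size) t ≤ 1 := by
  induction n with
  | zero =>
    rw [tsum_eq_single Tr.edge]
    · rw [Set.indicator_of_mem (by simp [Tr.depth])]
      simp [Tr.size]
    · intro t ht
      rw [Set.indicator_of_notMem]
      intro h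
      cases t with
      | edge => exact ht rfl
      | split l r => simp [Tr.depth] at h
      | inner s => simp [Tr.depth] at h
  | succ n ih =>
    rw [← Tr.equiv.symm.tsum_eq, ENNReal.summable.tsum_sum ENNReal.summable,
      ENNReal.summable.tsum_sum ENNReal.summable]
    have e1 : ∑' u : Unit, {t : Tr | t.depth ≤ n + 1}.indicator (fun t => (3⁻¹ : ℝ≥0∞) ^ t.size)
        (Tr.equiv.symm (Sum.inl u)) = 3⁻¹ := by
      simp [Tr.equiv, Set.indicator, Tr.depth, Tr.size]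
    have e2 : ∑' p : Tr × Tr, {t : Tr | t.depth ≤ n + 1}.indicator
        (fun t => (3⁻¹ : ℝ≥0∞) ^ t.size) (Tr.equiv.symm (Sum.inr (Sum.inl p))) ≤ 3⁻¹ := by
      have : ∀ p : Tr × Tr, {t : Tr | t.depth ≤ n + 1}.indicator
        (fun t => (3⁻¹ : ℝ≥0∞) ^ t.size) (Tr.equiv.symm (Sum.inr (Sum.inl p))) =
          3⁻¹ * ({t : Tr | t.depth ≤ n}.indicator (fun t => (3⁻¹ : ℝ≥0∞) ^ t.size) p.1 *
            {t : Tr | t.depth ≤ n}.indicator (fun t => (3⁻¹ : ℝ≥0∞) ^ t.size) p.2) := by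
        rintro ⟨l, r⟩
        simp only [Tr.equiv, Equiv.coe_fn_symm_mk, Set.indicator, Set.mem_ofPred_eq, Tr.depth,
          Tr.size]
        by_cases h1 : l.depth ≤ n <;> by_cases h2 : r.depth ≤ n <;> simp [h1, h2, pow_succ]
        rw [pow_add]; ring
      rw [tsum_congr this, ENNReal.tsum_mul_left, tsum_pair]
      calc _ ≤ (3⁻¹ : ℝ≥0∞) * (1 * 1) := by gcongr
        _ = 3⁻¹ := by simp
    have e3 : ∑' s : Tr, {t : Tr | t.depth ≤ n + 1}.indicator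
        (fun t => (3⁻¹ : ℝ≥0∞) ^ t.size) (Tr.equiv.symm (Sum.inr (Sum.inr s))) ≤ 3⁻¹ := by
      have : ∀ s : Tr, {t : Tr | t.depth ≤ n + 1}.indicator
        (fun t => (3⁻¹ : ℝ≥0∞) ^ t.size) (Tr.equiv.symm (Sum.inr (Sum.inr s))) =
          3⁻¹ * {t : Tr | t.depth ≤ n}.indicator (fun t => (3⁻¹ : ℝ≥0∞) ^ t.size) s := by
        intro s
        simp only [Tr.equiv, Equiv.coe_fn_symm_mk, Set.indicator, Set.mem_ofPred_eq, Tr.depth,
          Tr.size]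
        by_cases h1 : s.depth ≤ n <;> simp [h1, pow_succ]
        ring
      rw [tsum_congr this, ENNReal.tsum_mul_left]
      calc _ ≤ (3⁻¹ : ℝ≥0∞) * 1 := by gcongr
        _ = 3⁻¹ := by simp
    rw [e1]
    calc (3⁻¹ : ℝ≥0∞) + (_ + _) ≤ 3⁻¹ + (3⁻¹ + 3⁻¹) := by gcongr
      _ = 1 := by
        rw [← add_assoc]
        have : (3⁻¹ : ℝ≥0∞) + 3⁻¹ + 3⁻¹ = 3 * 3⁻¹ := by ring
        rw [this, ENNReal.mul_inv_cancel (by norm_num) (by norm_num)]

theorem size_sum : ∑' t : Tr, (3⁻¹ : ℝ≥0∞) ^ t.size ≤ 1 := by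
  rw [ENNReal.tsum_eq_iSup_sum]
  apply iSup_le
  intro s
  refine le_trans ?_ (depth_sum (s.sup Tr.depth))
  refine le_trans ?_ (ENNReal.sum_le_tsum s)
  apply Finset.sum_le_sum
  intro t ht
  rw [Set.indicator_of_mem (show t ∈ {t : Tr | t.depth ≤ s.sup Tr.depth} from
    Finset.le_sup (f := Tr.depth) ht)]

theorem gf_le {y z : ℝ≥0∞} (hy : y ≤ 9⁻¹) (hz : z ≤ 27⁻¹) : gf Tr.ok y z ≤ 3 := by
  have h : ∀ t : Tr, {t | Tr.ok t}.indicator (wt y z) t ≤ 3 * 3⁻¹ ^ t.size := by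
    intro t
    by_cases ht : t.ok
    · rw [Set.indicator_of_mem (show t ∈ {t | Tr.ok t} from ht), wt, Tr.size_eq ht, pow_succ,
        pow_add, pow_mul, pow_mul]
      have e9 : (3⁻¹ : ℝ≥0∞) ^ 2 = 9⁻¹ := by
        rw [← ENNReal.inv_pow]; norm_num
      have e27 : (3⁻¹ : ℝ≥0∞) ^ 3 = 27⁻¹ := by
        rw [← ENNReal.inv_pow]; norm_num
      rw [e9, e27]
      have e1 : (3 : ℝ≥0∞) * (9⁻¹ ^ t.md * 27⁻¹ ^ t.inn * 3⁻¹) = 9⁻¹ ^ t.md * 27⁻¹ ^ t.inn := by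
        rw [mul_comm, mul_assoc, ENNReal.inv_mul_cancel (by norm_num) (by norm_num), mul_one]
      rw [e1]
      gcongr
    · rw [Set.indicator_of_notMem (show t ∉ {t | Tr.ok t} from ht)]
      exact zero_le
  calc gf Tr.ok y z ≤ ∑' t : Tr, 3 * (3⁻¹ : ℝ≥0∞) ^ t.size := ENNReal.tsum_le_tsum h
    _ = 3 * ∑' t : Tr, (3⁻¹ : ℝ≥0∞) ^ t.size := ENNReal.tsum_mul_left
    _ ≤ 3 * 1 := by gcongr; exact size_sum
    _ = 3 := by simp

end Pool.Agent.H694
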