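import Pool.Agent.H694.Count
import Mathlib.Analysis.Complex.LocallyUniformLimit
import Mathlib.Analysis.Analytic.IsolatedZeros

/-!
# The radius of convergence
-/

namespace Pool.Agent.H694

open scoped ENNReal NNReal Topology
open Tr Set

theorem gf_mono_prop (y z : ℝ≥0∞) {P Q : Tr → Prop} (h : ∀ t, P t → Q t) : gf P y z ≤ gf Q y z := by
  rw [gf, gf]
  apply ENNReal.tsum_le_tsum
  intro t
  exact Set.indicator_le_indicator_of_subset (fun t ht => h t ht) (fun _ => zero_le) t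

theorem key_quad {y z : ℝ} (hy : 0 < y) (hy2 : y ≤ 1 / 9) (hz : 0 < z) (hz2 : z ≤ 1 / 27) :
    T1 (ENNReal.ofReal z) ≠ ∞ ∧
    y ^ 2 * (gf Tr.ok (ENNReal.ofReal y) (ENNReal.ofReal z)).toReal ^ 2 -
      (y * (1 + z * (T1 (ENNReal.ofReal z)).toReal) - z) *
        (gf Tr.ok (ENNReal.ofReal y) (ENNReal.ofReal z)).toReal + (y - z) = 0 := by
  have hyE : ENNReal.ofReal y ≤ 9⁻¹ := by
    rw [ENNReal.ofReal_le_iff_le_toReal (by simp)]
    simpa using hy2
  have hzE : ENNReal.ofReal z ≤ 27⁻¹ := by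
    rw [ENNReal.ofReal_le_iff_le_toReal (by simp)]
    simpa using hz2
  set Y := ENNReal.ofReal y with hY
  set Z := ENNReal.ofReal z with hZ
  have hF3 := gf_le hyE hzE
  have hF : gf Tr.ok Y Z ≠ ∞ := ne_top_of_le_ne_top (by simp) hF3
  have hsub : ∀ P : Tr → Prop, (∀ t, P t → t.ok) → gf P Y Z ≠ ∞ := fun P hP =>
    ne_top_of_le_ne_top hF (gf_mono_prop Y Z hP)
  have hP := hsub (fun t => t.ok ∧ 1 ≤ t.md) (fun t h => h.1)
  have hQ := hsub (fun s => s.ok ∧ 2 ≤ s.md ∧ ¬ s.ch (s.md - 1)) (fun t h => h.1)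
  have hC := hsub (fun s => s.ok ∧ 2 ≤ s.md ∧ s.ch (s.md - 1)) (fun t h => h.1)
  have hM := hsub (fun t => t.ok ∧ t.md = 1) (fun t h => h.1)
  have hY0 : Y ≠ 0 := by
    rw [hY]; simp [hy]
  have hT : T1 Z ≠ ∞ := by
    intro h
    rw [gf_md_one, h] at hM
    exact hM (ENNReal.mul_top hY0)
  have e1 := gf_eq1 Y Z
  have e2 := gf_ok Y Z
  have e3 := gf_eq2 Y Z
  have e4 := gf_eq3 Y Z
  refine ⟨hT, ?_⟩
  generalize gf Tr.ok Y Z = F at *
  generalize gf (fun t => t.ok ∧ 1 ≤ t.md) Y Z = P at *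
  generalize gf (fun s => s.ok ∧ 2 ≤ s.md ∧ ¬ s.ch (s.md - 1)) Y Z = Q at *
  generalize gf (fun s => s.ok ∧ 2 ≤ s.md ∧ s.ch (s.md - 1)) Y Z = C at *
  generalize T1 Z = T at *
  lift F to ℝ≥0 using hF
  lift P to ℝ≥0 using hP
  lift Q to ℝ≥0 using hQ
  lift C to ℝ≥0 using hC
  lift T to ℝ≥0 using hT
  have hYr : Y = ((Real.toNNReal y : ℝ≥0) : ℝ≥0∞) := rfl
  have hZr : Z = ((Real.toNNReal z : ℝ≥0) : ℝ≥0∞) := rfl
  rw [hYr, hZr] at e1
  rw [hYr] at e3 e4
  norm_cast at e1 e2 e3 e4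
  have r1 := congrArg NNReal.toReal e1
  have r2 := congrArg NNReal.toReal e2
  have r3 := congrArg NNReal.toReal e3
  have r4 := congrArg NNReal.toReal e4
  push_cast at r1 r2 r3 r4
  simp only [Real.coe_toNNReal y hy.le, Real.coe_toNNReal z hz.le, ENNReal.coe_toReal]
    at r1 r2 r3 r4 ⊢
  generalize (F : ℝ) = f at *
  generalize (P : ℝ) = p at *
  generalize (Q : ℝ) = q at *
  generalize (C : ℝ) = c at *
  generalize (T : ℝ) = τ at *
  have hp : p = f - 1 := by linarith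
  have hq : q = p - y * τ - y * τ * p := by linarith
  rw [hq, hp] at r1
  linarith

/-- the real generating function -/
noncomputable def fr (z y : ℝ) : ℝ := (gf Tr.ok (ENNReal.ofReal y) (ENNReal.ofReal z)).toReal

theorem fr_nonneg (z y : ℝ) : 0 ≤ fr z y := ENNReal.toReal_nonneg

theorem fr_le {y z : ℝ} (hy2 : y ≤ 1 / 9) (hz2 : z ≤ 1 / 27) : fr z y ≤ 3 := by
  have hyE : ENNReal.ofReal y ≤ 9⁻¹ := by
    rw [ENNReal.ofReal_le_iff_le_toReal (by simp)]
    simpa using hy2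
  have hzE : ENNReal.ofReal z ≤ 27⁻¹ := by
    rw [ENNReal.ofReal_le_iff_le_toReal (by simp)]
    simpa using hz2
  have := ENNReal.toReal_mono (by simp) (gf_le hyE hzE)
  simpa [fr] using this

theorem fr_cont {z b : ℝ} (hz : 0 ≤ z) (hz2 : z ≤ 1 / 27) (hb : 0 ≤ b) (hb2 : b ≤ 1 / 9) :
    ContinuousOn (fr z) (Icc 0 b) := by
  have hyE : ENNReal.ofReal b ≤ 9⁻¹ := by
    rw [ENNReal.ofReal_le_iff_le_toReal (by simp)]
    simpa using hb2
  have hzE : ENNReal.ofReal z ≤ 27⁻¹ := by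
    rw [ENNReal.ofReal_le_iff_le_toReal (by simp)]
    simpa using hz2
  have hfin : ∑' t : Tr, {t | Tr.ok t}.indicator (wt (ENNReal.ofReal b) (ENNReal.ofReal z)) t ≠ ∞ :=
    ne_top_of_le_ne_top (by simp) (gf_le hyE hzE)
  have hval : ∀ y, 0 ≤ y → ∀ t : Tr,
      ({t | Tr.ok t}.indicator (wt (ENNReal.ofReal y) (ENNReal.ofReal z)) t).toReal =
      {t | Tr.ok t}.indicator (fun t => y ^ t.md * z ^ t.inn) t := by
    intro y hy t
    by_cases ht : t ∈ {t | Tr.ok t}
    · rw [Set.indicator_of_mem ht, Set.indicator_of_mem ht, wt, ENNReal.toReal_mul,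
        ENNReal.toReal_pow, ENNReal.toReal_pow, ENNReal.toReal_ofReal hy, ENNReal.toReal_ofReal hz]
    · rw [Set.indicator_of_notMem ht, Set.indicator_of_notMem ht]; simp
  have hsum : Summable fun t : Tr => {t | Tr.ok t}.indicator (fun t => b ^ t.md * z ^ t.inn) t := by
    have := ENNReal.summable_toReal hfin
    exact this.congr (fun t => hval b hb t)
  have heq : EqOn (fr z)
      (fun y => ∑' t : Tr, {t | Tr.ok t}.indicator (fun t => y ^ t.md * z ^ t.inn) t) (Icc 0 b) := by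
    intro y hy
    simp only [fr, gf]
    rw [ENNReal.tsum_toReal_eq]
    · exact tsum_congr (fun t => hval y hy.1 t)
    · intro t
      by_cases ht : t ∈ {t | Tr.ok t}
      · rw [Set.indicator_of_mem ht, wt]
        exact ENNReal.mul_ne_top (ENNReal.pow_ne_top ENNReal.ofReal_ne_top)
          (ENNReal.pow_ne_top ENNReal.ofReal_ne_top)
      · rw [Set.indicator_of_notMem ht]; simp
  refine ContinuousOn.congr ?_ heq
  refine continuousOn_tsum (u := fun t : Tr =>
    {t | Tr.ok t}.indicator (fun t => b ^ t.md * z ^ t.inn) t) ?_ hsum ?_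
  · intro t
    by_cases ht : t ∈ {t | Tr.ok t}
    · simp only [Set.indicator_of_mem ht]
      fun_prop
    · simp only [Set.indicator_of_notMem ht]
      fun_prop
  · intro t y hy
    by_cases ht : t ∈ {t | Tr.ok t}
    · simp only [Set.indicator_of_mem ht]
      rw [Real.norm_eq_abs, abs_of_nonneg (by have := hy.1; positivity)]
      have := hy.1
      have := hy.2
      gcongr
    · simp only [Set.indicator_of_notMem ht]
      simp

/-- the algebraic equation satisfied by `s = 1 + z T₁(z)` -/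
def RelZS (z s : ℝ) : Prop := s ^ 3 - (s ^ 2 + 4 * z) ^ 2 + 36 * z * s - 27 * z = 0

theorem rel_small {z : ℝ} (hz : 0 < z) (hz2 : z ≤ 1 / 27) :
    RelZS z (1 + z * (T1 (ENNReal.ofReal z)).toReal) := by
  set s := 1 + z * (T1 (ENNReal.ofReal z)).toReal with hs
  have hs1 : 1 ≤ s := by
    rw [hs]
    have : 0 ≤ (T1 (ENNReal.ofReal z)).toReal := ENNReal.toReal_nonneg
    nlinarith
  have hquad : ∀ y, 0 < y → y ≤ 1 / 9 →
      y ^ 2 * (fr z y) ^ 2 - (y * s - z) * fr z y + (y - z) = 0 := by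
    intro y h1 h2
    exact (key_quad h1 h2 hz hz2).2
  -- the function `G`
  have hcont : ContinuousOn (fun y => 2 * y ^ 2 * fr z y - (y * s - z)) (Icc 0 (2 * z)) := by
    have h1 := fr_cont (b := 2 * z) hz.le hz2 (by linarith) (by linarith)
    fun_prop
  have hivt := intermediate_value_Ioo' (f := fun y => 2 * y ^ 2 * fr z y - (y * s - z))
    (show (0 : ℝ) ≤ 2 * z by linarith) hcont
  have h0 : (0 : ℝ) ∈ Ioo ((fun y => 2 * y ^ 2 * fr z y - (y * s - z)) (2 * z))
      ((fun y => 2 * y ^ 2 * fr z y - (y * s - z)) 0) := by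
    constructor
    · have h3 := fr_le (z := z) (y := 2 * z) (by linarith) hz2
      have h4 := fr_nonneg z (2 * z)
      show 2 * (2 * z) ^ 2 * fr z (2 * z) - (2 * z * s - z) < 0
      nlinarith [mul_pos hz hz]
    · show (0 : ℝ) < 2 * 0 ^ 2 * fr z 0 - (0 * s - z)
      linarith
  obtain ⟨y₀, hy₀, hG⟩ := hivt h0
  simp only at hG
  -- the discriminant
  set D : ℝ → ℝ := fun y => (y * s - z) ^ 2 - 4 * y ^ 2 * (y - z) with hD
  have hDG : ∀ y, 0 < y → y ≤ 1 / 9 → D y = (2 * y ^ 2 * fr z y - (y * s - z)) ^ 2 := by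
    intro y h1 h2
    have := hquad y h1 h2
    simp only [hD]
    linear_combination (-4 * y ^ 2) * this
  have hD0 : D y₀ = 0 := by
    rw [hDG y₀ hy₀.1 (by linarith [hy₀.2]), hG]; ring
  have hmin : IsLocalMin D y₀ := by
    filter_upwards [Ioo_mem_nhds hy₀.1 hy₀.2] with y hy
    rw [hD0, hDG y hy.1 (by linarith [hy.2])]
    positivity
  have hder : HasDerivAt D (2 * (y₀ * s - z) * s - (8 * y₀ * (y₀ - z) + 4 * y₀ ^ 2)) y₀ := by
    have h1 : HasDerivAt (fun y : ℝ => y * s - z) s y₀ := by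
      simpa using ((hasDerivAt_id y₀).mul_const s).sub_const z
    have h2 : HasDerivAt (fun y : ℝ => y - z) 1 y₀ := by
      simpa using (hasDerivAt_id y₀).sub_const z
    have h3 : HasDerivAt (fun y : ℝ => 4 * y ^ 2) (8 * y₀) y₀ := by
      have := ((hasDerivAt_pow 2 y₀).const_mul 4)
      refine this.congr_deriv ?_
      norm_num; ring
    have h4 := (h1.fun_pow 2).fun_sub (h3.fun_mul h2)
    refine h4.congr_deriv ?_
    norm_num
  have hD' := hmin.hasDerivAt_eq_zero hder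
  -- consequences
  have hy0 := hy₀.1
  have hyz : 0 ≤ y₀ - z := by
    by_contra h
    push Not at h
    have h1 : 0 < -(4 * y₀ ^ 2 * (y₀ - z)) := by
      have : 0 < 4 * y₀ ^ 2 * (-(y₀ - z)) := by
        have : 0 < -(y₀ - z) := by linarith
        positivity
      linarith
    simp only [hD] at hD0
    nlinarith [sq_nonneg (y₀ * s - z)]
  set r := Real.sqrt (y₀ - z) with hr
  have hr0 : 0 ≤ r := Real.sqrt_nonneg _
  have hr2 : r ^ 2 = y₀ - z := Real.sq_sqrt hyz
  have hyr : y₀ = r ^ 2 + z := by linarith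
  have h1 : y₀ * s - z = 2 * y₀ * r := by
    have h2 : 0 ≤ y₀ * s - z := by nlinarith
    have h3 : (y₀ * s - z) ^ 2 = (2 * y₀ * r) ^ 2 := by
      simp only [hD] at hD0
      rw [mul_pow, hr2]; linarith
    have h4 : 0 ≤ 2 * y₀ * r := by positivity
    exact (pow_left_inj₀ h2 h4 (by norm_num)).1 h3
  have h5 : s * r = 3 * r ^ 2 + z := by
    rw [h1, hyr] at hD'
    have h6 : 4 * (r ^ 2 + z) * (s * r - (3 * r ^ 2 + z)) = 0 := by
      linear_combination hD'
    have h7 : (4 * (r ^ 2 + z)) ≠ 0 := by rw [← hyr]; positivity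
    have := (mul_eq_zero.1 h6).resolve_left h7
    linarith
  have h8 : (r ^ 2 + z) ^ 2 = r * z := by
    rw [hyr] at h1
    linear_combination r * h1 - (r ^ 2 + z) * h5
  have hrpos : 0 < r := by
    rcases hr0.lt_or_eq with h | h
    · exact h
    · exfalso
      rw [← h] at h8
      have : z ^ 2 = 0 := by linear_combination h8
      have : 0 < z ^ 2 := by positivity
      linarith
  -- parametrize
  set κ := (r ^ 2 + z) / r with hκ
  have hκr : κ * r = r ^ 2 + z := by rw [hκ]; field_simp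
  have hz3 : z = κ ^ 2 * r := by
    have : κ ^ 2 * r * r = z * r := by
      calc κ ^ 2 * r * r = (κ * r) ^ 2 := by ring
        _ = (r ^ 2 + z) ^ 2 := by rw [hκr]
        _ = z * r := by rw [h8]; ring
    exact (mul_right_cancel₀ hrpos.ne' this).symm
  have hr3 : r = κ - κ ^ 2 := by
    have : r * r = (κ - κ ^ 2) * r := by
      have e : κ * r = r ^ 2 + κ ^ 2 * r := by rw [← hz3]; exact hκr
      linear_combination -e
    exact mul_right_cancel₀ hrpos.ne' this
  have hs3 : s = 3 * r + κ ^ 2 := by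
    have : s * r = (3 * r + κ ^ 2) * r := by
      rw [h5]; linear_combination hz3
    exact mul_right_cancel₀ hrpos.ne' this
  have hs4 : s = 3 * κ - 2 * κ ^ 2 := by rw [hs3, hr3]; ring
  have hz4 : z = κ ^ 3 - κ ^ 4 := by rw [hz3, hr3]; ring
  rw [RelZS, hs4, hz4]
  ring

theorem rel_bound {z s : ℝ} (h : RelZS z s) (hs : 1 ≤ s) : z ≤ 27 / 256 := by
  have h1 : (32 * z + 8 * s ^ 2 - 36 * s + 27) ^ 2 = (9 - 8 * s) ^ 3 := by
    rw [RelZS] at h
    linear_combination (-64) * h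
  have h2 : 0 ≤ 9 - 8 * s := by
    by_contra hc
    push Not at hc
    have : (9 - 8 * s) ^ 3 < 0 := by
      have : 0 < (-(9 - 8 * s)) ^ 3 := by
        have : 0 < -(9 - 8 * s) := by linarith
        positivity
      nlinarith
    nlinarith [sq_nonneg (32 * z + 8 * s ^ 2 - 36 * s + 27)]
  set v := Real.sqrt (9 - 8 * s) with hv
  have hv0 : 0 ≤ v := Real.sqrt_nonneg _
  have hv2 : v ^ 2 = 9 - 8 * s := Real.sq_sqrt h2
  have hv1 : v ≤ 1 := by
    by_contra hc
    push Not at hc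
    nlinarith
  have hsv : s = (9 - v ^ 2) / 8 := by linarith
  have h3 : (32 * z + 8 * s ^ 2 - 36 * s + 27) ^ 2 = (v ^ 3) ^ 2 := by
    rw [h1, ← hv2]; ring
  have h4 : 32 * z + 8 * s ^ 2 - 36 * s + 27 ≤ v ^ 3 := by
    have h5 := abs_le_of_sq_le_sq (le_of_eq h3) (by positivity)
    exact (abs_le.1 h5).2
  have h6 : 8 * s ^ 2 - 36 * s + 27 = -(27 / 8) + (9 / 4) * v ^ 2 + v ^ 4 / 8 := by
    rw [hsv]; ring
  have h7 : v ^ 3 ≤ v ^ 2 := by
    have : 0 ≤ v ^ 2 * (1 - v) := by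
      have : 0 ≤ 1 - v := by linarith
      positivity
    nlinarith
  have h8 : 0 ≤ v ^ 4 := by positivity
  have h9 : 0 ≤ v ^ 2 := by positivity
  linarith

/-! ### The identity theorem -/

/-- shapes of triangles -/
abbrev Shape := {t : Tr // t.ok ∧ t.md = 1}

theorem T1_eq (z : ℝ≥0∞) : T1 z = ∑' t : Shape, z ^ t.1.inn := by
  rw [T1, gf, ← tsum_subtype]
  apply tsum_congr
  rintro ⟨t, ht⟩
  simp [wt]

theorem T1_real {z : ℝ} (hz : 0 ≤ z) :
    (T1 (ENNReal.ofReal z)).toReal = ∑' t : Shape, z ^ t.1.inn := by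
  rw [T1_eq, ENNReal.tsum_toReal_eq (fun t => ENNReal.pow_ne_top ENNReal.ofReal_ne_top)]
  apply tsum_congr
  intro t
  rw [ENNReal.toReal_pow, ENNReal.toReal_ofReal hz]

theorem summable_false {z₁ : ℝ} (hz : 27 / 256 < z₁)
    (hsum : Summable fun t : Shape => z₁ ^ t.1.inn) : False := by
  set T : ℂ → ℂ := fun ζ => ∑' t : Shape, ζ ^ t.1.inn with hT
  have hz0 : 0 < z₁ := by linarith
  have hdT : DifferentiableOn ℂ T (Metric.ball 0 z₁) := by
    apply Complex.differentiableOn_tsum_of_summable_norm hsum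
    · intro t; fun_prop
    · exact Metric.isOpen_ball
    · intro t w hw
      rw [norm_pow]
      have : ‖w‖ < z₁ := by simpa using hw
      gcongr
  set Φ : ℂ → ℂ := fun ζ => (1 + ζ * T ζ) ^ 3 - ((1 + ζ * T ζ) ^ 2 + 4 * ζ) ^ 2 +
    36 * ζ * (1 + ζ * T ζ) - 27 * ζ with hΦ
  have hdΦ : DifferentiableOn ℂ Φ (Metric.ball 0 z₁) := by
    simp only [hΦ]
    fun_prop
  have han := hdΦ.analyticOnNhd Metric.isOpen_ball
  have hTr : ∀ x : ℝ, T (x : ℂ) = ((∑' t : Shape, x ^ t.1.inn : ℝ) : ℂ) := by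
    intro x
    simp only [hT]
    rw [Complex.ofReal_tsum]
    apply tsum_congr
    intro t
    push_cast
    rfl
  have hΦr : ∀ x : ℝ, Φ (x : ℂ) = (((1 + x * ∑' t : Shape, x ^ t.1.inn) ^ 3 -
      ((1 + x * ∑' t : Shape, x ^ t.1.inn) ^ 2 + 4 * x) ^ 2 +
      36 * x * (1 + x * ∑' t : Shape, x ^ t.1.inn) - 27 * x : ℝ) : ℂ) := by
    intro x
    simp only [hΦ]
    rw [hTr]
    push_cast
    rfl
  have hzero : ∀ x : ℝ, 0 < x → x ≤ 1 / 27 → Φ (x : ℂ) = 0 := by
    intro x h1 h2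
    have := rel_small h1 h2
    rw [RelZS, T1_real h1.le] at this
    rw [hΦr, this]; simp
  have hfreq : ∃ᶠ ζ in 𝓝[≠] (0 : ℂ), Φ ζ = 0 := by
    rw [Filter.frequently_iff]
    intro U hU
    rw [mem_nhdsWithin] at hU
    obtain ⟨V, hV, h0, hVU⟩ := hU
    obtain ⟨ε, hε, hball⟩ := Metric.isOpen_iff.1 hV 0 h0
    set x : ℝ := min (ε / 2) (1 / 27) with hx
    have hx0 : 0 < x := by rw [hx]; positivity
    have hx1 : x ≤ 1 / 27 := min_le_right _ _
    have hx2 : x ≤ ε / 2 := min_le_left _ _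
    refine ⟨(x : ℂ), hVU ⟨hball ?_, ?_⟩, hzero x hx0 hx1⟩
    · simp only [Metric.mem_ball, dist_zero_right, Complex.norm_real, Real.norm_eq_abs,
        abs_of_pos hx0]
      linarith
    · simp only [Set.mem_compl_iff, Set.mem_singleton_iff, Complex.ofReal_eq_zero]
      exact hx0.ne'
  have hall := han.eqOn_zero_of_preconnected_of_frequently_eq_zero
    (convex_ball (0 : ℂ) z₁).isPreconnected (Metric.mem_ball_self hz0) hfreq
  obtain ⟨x, hx1, hx2⟩ := exists_between hz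
  have hx0 : 0 < x := by linarith
  have h1 : Φ (x : ℂ) = 0 := by
    apply hall
    simp only [Metric.mem_ball, dist_zero_right, Complex.norm_real, Real.norm_eq_abs,
        abs_of_pos hx0]
    exact hx2
  rw [hΦr, Complex.ofReal_eq_zero] at h1
  have hs : 1 ≤ 1 + x * ∑' t : Shape, x ^ t.1.inn := by
    have : 0 ≤ ∑' t : Shape, x ^ t.1.inn := tsum_nonneg (fun t => by positivity)
    nlinarith
  have := rel_bound (z := x) h1 hs
  linarith

/-- **The count**: above `27/256`, the weights of the shapes of triangles have unbounded sums. -/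
theorem count_unbounded {z : ℝ} (hz : 27 / 256 < z) (B : ℝ) :
    ∃ S : Finset Tr, (∀ t ∈ S, t.ok ∧ t.md = 1) ∧ B ≤ ∑ t ∈ S, z ^ t.inn := by
  by_contra hc
  push Not at hc
  have hz0 : 0 < z := by linarith
  apply summable_false hz
  refine summable_of_sum_le (c := B) (fun t => by positivity) ?_
  intro u
  have := hc (u.map (Function.Embedding.subtype _)) (by
    intro t ht
    rw [Finset.mem_map] at ht
    obtain ⟨⟨s, hs⟩, _, rfl⟩ := ht
    exact hs)
  rw [Finset.sum_map] at this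
  exact this.le

end Pool.Agent.H694
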