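import Mathlib

/-!
# A large connected set
-/

namespace Pool.Agent.H694

open Finset

/-- no edge leaves `S` -/
def NoOut (U : Finset ℕ) (H : ℕ → ℕ → Prop) (S : Finset ℕ) : Prop :=
  S ⊆ U ∧ ∀ x ∈ S, ∀ y ∈ U \ S, ¬ H x y ∧ ¬ H y x

def Big (U : Finset ℕ) (H : ℕ → ℕ → Prop) (R : Finset ℕ) : Prop :=
  NoOut U H R ∧ 3 * U.card < 4 * R.card

def MinBig (U : Finset ℕ) (H : ℕ → ℕ → Prop) (R : Finset ℕ) : Prop :=
  Big U H R ∧ ∀ R', Big U H R' → R.card ≤ R'.card

variable {U : Finset ℕ} {H : ℕ → ℕ → Prop}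

theorem exists_minBig (hU : U.Nonempty) : ∃ R, MinBig U H R := by
  classical
  have hne : (U.powerset.filter (fun R => Big U H R)).Nonempty := by
    refine ⟨U, mem_filter.2 ⟨mem_powerset_self U, ⟨Subset.rfl, ?_⟩, ?_⟩⟩
    · intro x _ y hy
      simp at hy
    · have := card_pos.2 hU
      omega
  obtain ⟨R, hR, hmin⟩ := exists_min_image _ (fun R => R.card) hne
  rw [mem_filter] at hR
  refine ⟨R, hR.2, fun R' hR' => hmin R' ?_⟩
  rw [mem_filter, mem_powerset]
  exact ⟨hR'.1.1, hR'⟩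

open Classical in
/-- the giant component -/
noncomputable def giant (U : Finset ℕ) (H : ℕ → ℕ → Prop) : Finset ℕ :=
  if h : ∃ R, MinBig U H R then h.choose else ∅

theorem giant_spec (hU : U.Nonempty) : MinBig U H (giant U H) := by
  have h := exists_minBig (H := H) hU
  rw [giant, dif_pos h]
  exact h.choose_spec

/-- every balanced cut has an edge -/
def Cuts (U : Finset ℕ) (H : ℕ → ℕ → Prop) : Prop :=
  ∀ S ⊆ U, U.card ≤ 4 * S.card → U.card ≤ 4 * (U \ S).card → ∃ x ∈ S, ∃ y ∈ U \ S, H x y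

theorem noOut_cases (hc : Cuts U H) {S : Finset ℕ} (hS : NoOut U H S) :
    4 * S.card < U.card ∨ 3 * U.card < 4 * S.card := by
  by_contra hcon
  push Not at hcon
  have h1 := card_sdiff_add_card_eq_card hS.1
  obtain ⟨x, hx, y, hy, hxy⟩ := hc S hS.1 (by omega) (by omega)
  exact (hS.2 x hx y hy).1 hxy

theorem giant_conn (hU : U.Nonempty) (hc : Cuts U H) {A : Finset ℕ} (hA : A ⊆ giant U H)
    (hne : A.Nonempty) (hA' : A ≠ giant U H) :
    ∃ x ∈ A, ∃ y ∈ giant U H \ A, H x y ∨ H y x := by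
  have hg := giant_spec (H := H) hU
  by_contra hcon
  push Not at hcon
  have hlt : A.card < (giant U H).card :=
    card_lt_card ⟨hA, fun h => hA' (Subset.antisymm hA h)⟩
  have h1 : NoOut U H A := by
    refine ⟨hA.trans hg.1.1.1, fun x hx y hy => ?_⟩
    rw [mem_sdiff] at hy
    by_cases hyg : y ∈ giant U H
    · exact hcon x hx y (mem_sdiff.2 ⟨hyg, hy.2⟩)
    · exact hg.1.1.2 x (hA hx) y (mem_sdiff.2 ⟨hy.1, hyg⟩)
  rcases noOut_cases hc h1 with h2 | h2
  · have h3 : NoOut U H (giant U H \ A) := by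
      refine ⟨sdiff_subset.trans hg.1.1.1, fun x hx y hy => ?_⟩
      rw [mem_sdiff, mem_sdiff] at hy
      by_cases hyA : y ∈ A
      · exact (hcon y hyA x hx).symm
      · have hyg : y ∉ giant U H := fun h => hy.2 ⟨h, hyA⟩
        exact hg.1.1.2 x (mem_sdiff.1 hx).1 y (mem_sdiff.2 ⟨hy.1, hyg⟩)
    have h4 := card_sdiff_add_card_eq_card hA
    have h5 := hg.1.2
    have h6 := card_pos.2 hne
    rcases noOut_cases hc h3 with h7 | h7
    · omega
    · have := hg.2 _ ⟨h3, h7⟩
      omega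
  · have := hg.2 _ ⟨h1, h2⟩
    omega

/-- a property spreading along the edges fills the giant component -/
theorem giant_spread (hU : U.Nonempty) (hc : Cuts U H) (P : ℕ → ℕ → Prop)
    (hmono : ∀ k x, P k x → P (k + 1) x)
    (hstep : ∀ k, ∀ x ∈ U, ∀ y ∈ U, H x y ∨ H y x → P k x → P (k + 1) y)
    {x₀ : ℕ} (hx₀ : x₀ ∈ giant U H) (h0 : P 0 x₀) : ∀ y ∈ giant U H, P U.card y := by
  classical
  have hg := giant_spec (H := H) hU
  have key : ∀ k, x₀ ∈ (giant U H).filter (P k) ∧
      (k + 1 ≤ ((giant U H).filter (P k)).card ∨ (giant U H).filter (P k) = giant U H) := by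
    intro k
    induction k with
    | zero =>
      have h1 : x₀ ∈ (giant U H).filter (P 0) := mem_filter.2 ⟨hx₀, h0⟩
      exact ⟨h1, Or.inl (card_pos.2 ⟨x₀, h1⟩)⟩
    | succ k ih =>
      have hsub : (giant U H).filter (P k) ⊆ (giant U H).filter (P (k + 1)) := by
        intro x hx
        rw [mem_filter] at hx ⊢
        exact ⟨hx.1, hmono k x hx.2⟩
      refine ⟨hsub ih.1, ?_⟩
      by_cases heq : (giant U H).filter (P k) = giant U H
      · right
        exact Subset.antisymm (filter_subset _ _) (heq.symm.subset.trans hsub)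
      · left
        have h1 := ih.2.resolve_right heq
        obtain ⟨x, hx, y, hy, hxy⟩ := giant_conn hU hc (filter_subset _ _) ⟨_, ih.1⟩ heq
        rw [mem_sdiff] at hy
        have hx' := mem_filter.1 hx
        have hy' : y ∈ (giant U H).filter (P (k + 1)) :=
          mem_filter.2 ⟨hy.1, hstep k x (hg.1.1.1 hx'.1) y (hg.1.1.1 hy.1) hxy hx'.2⟩
        have : ((giant U H).filter (P k)).card < ((giant U H).filter (P (k + 1))).card :=
          card_lt_card ⟨hsub, fun h => hy.2 (h hy')⟩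
        omega
  intro y hy
  have h1 := (key U.card).2
  have h2 : ((giant U H).filter (P U.card)).card ≤ U.card :=
    card_le_card ((filter_subset _ _).trans hg.1.1.1)
  have h3 := h1.resolve_left (by omega)
  rw [← h3, mem_filter] at hy
  exact hy.2

end Pool.Agent.H694
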