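import Pool.Agent.H694.Tree

namespace Pool.Agent.H694

open Tr

variable {t : Tr} {a b : ℕ} {m J : List ℕ} {H : List (Finset ℕ)}

theorem Dk.root_inner {s : Tr} {w : ℕ} (h : Dk s a (m ++ [b]) w J H) (hok : (Tr.inner s).ok)
    (hn : (vs a m b (w :: J)).Nodup) : ∀ f ∈ H, ¬ (a ∈ f ∧ b ∈ f) := by
  have hl := h.length
  simp only [List.length_append, List.length_cons, List.length_nil] at hl
  have h2 := hok.2.1
  refine h.noChord ?_ (j := m.length) (by omega) (by simp) ?_
  · simp [vs, List.nodup_append] at hn ⊢; grind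
  · have h3 := hok.2.2
    rw [show s.md - 1 = m.length by omega] at h3
    exact h3

theorem Dk.root_split {l r : Tr} {c : ℕ} {m₁ m₂ J₁ J₂ : List ℕ} {H₁ H₂ : List (Finset ℕ)}
    (h₁ : Dk l a m₁ c J₁ H₁) (h₂ : Dk r c m₂ b J₂ H₂)
    (hn : (vs a (m₁ ++ c :: m₂) b (J₁ ++ J₂)).Nodup) : ∀ f ∈ H₁ ++ H₂, ¬ (a ∈ f ∧ b ∈ f) := by
  intro f hf
  rcases List.mem_append.1 hf with hf | hf
  · rintro ⟨-, h⟩
    have := h₁.subset f hf b h
    simp [mem_vs] at this
    simp [vs, List.nodup_append] at hn; grind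
  · rintro ⟨h, -⟩
    have := h₂.subset f hf a h
    simp [mem_vs] at this
    simp [vs, List.nodup_append] at hn; grind

theorem nodup_left {c : ℕ} {m₁ m₂ J₁ J₂ : List ℕ}
    (hn : (vs a (m₁ ++ c :: m₂) b (J₁ ++ J₂)).Nodup) : (vs a m₁ c J₁).Nodup := by
  simp [vs, List.nodup_append] at hn ⊢; grind

theorem nodup_right {c : ℕ} {m₁ m₂ J₁ J₂ : List ℕ}
    (hn : (vs a (m₁ ++ c :: m₂) b (J₁ ++ J₂)).Nodup) : (vs c m₂ b J₂).Nodup := by
  simp [vs, List.nodup_append] at hn ⊢; grind

theorem nodup_inner {w : ℕ} (hn : (vs a m b (w :: J)).Nodup) : (vs a (m ++ [b]) w J).Nodup := by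
  simp [vs, List.nodup_append] at hn ⊢; grind

theorem inter_split {c x : ℕ} {m₁ m₂ J₁ J₂ : List ℕ}
    (hn : (vs a (m₁ ++ c :: m₂) b (J₁ ++ J₂)).Nodup) (h₁ : x ∈ vs a m₁ c J₁)
    (h₂ : x ∈ vs c m₂ b J₂) : x = c := by
  simp [mem_vs] at h₁ h₂
  simp [vs, List.nodup_append] at hn; grind

theorem Dk.card (h : Dk t a m b J H) (hn : (vs a m b J).Nodup) : ∀ f ∈ H, f.card = 3 := by
  induction h with
  | edge => simp
  | @split l r a b c m₁ m₂ J₁ J₂ H₁ H₂ h₁ h₂ ih₁ ih₂ =>
    intro f hf
    simp only [List.mem_cons, List.mem_append] at hf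
    rcases hf with rfl | hf | hf
    · rw [Finset.card_eq_three]
      refine ⟨a, c, b, ?_, ?_, ?_, rfl⟩ <;> (simp [vs, List.nodup_append] at hn; grind)
    · exact ih₁ (nodup_left hn) f hf
    · exact ih₂ (nodup_right hn) f hf
  | @inner s a b w m J H h ih =>
    intro f hf
    simp only [List.mem_cons] at hf
    rcases hf with rfl | hf
    · rw [Finset.card_eq_three]
      refine ⟨a, b, w, ?_, ?_, ?_, rfl⟩ <;> (simp [vs, List.nodup_append] at hn; grind)
    · exact ih (nodup_inner hn) f hf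

theorem Dk.nodupH (h : Dk t a m b J H) (hok : t.ok) (hn : (vs a m b J).Nodup) : H.Nodup := by
  induction h with
  | edge => simp
  | @split l r a b c m₁ m₂ J₁ J₂ H₁ H₂ h₁ h₂ ih₁ ih₂ =>
    rw [List.nodup_cons, List.nodup_append]
    refine ⟨fun h => ?_, ih₁ hok.1 (nodup_left hn), ih₂ hok.2 (nodup_right hn), ?_⟩
    · exact h₁.root_split h₂ hn _ h (by simp)
    · rintro f hf g hg rfl
      have h3 := h₁.card (nodup_left hn) f hf
      have h4 : f ⊆ {c} := by
        intro x hx
        rw [Finset.mem_singleton]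
        exact inter_split hn (h₁.subset f hf x hx) (h₂.subset f hg x hx)
      have := Finset.card_le_card h4
      simp at this
      omega
  | @inner s a b w m J H h ih =>
    rw [List.nodup_cons]
    exact ⟨fun hf => h.root_inner hok hn _ hf (by simp), ih hok.1 (nodup_inner hn)⟩

/-! ### Distinctness -/

/-- consecutive vertices of a list -/
def Side (P : List ℕ) (u v : ℕ) : Prop :=
  ∃ i, (P[i]? = some u ∧ P[i + 1]? = some v) ∨ (P[i]? = some v ∧ P[i + 1]? = some u)

/-- No face of `R` meets the disk in two vertices, except for the sides of the polygon other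
than the root. -/
def Free (a : ℕ) (m : List ℕ) (b : ℕ) (J : List ℕ) (R : Set (Finset ℕ)) : Prop :=
  ∀ f ∈ R, ∀ u ∈ vs a m b J, ∀ v ∈ vs a m b J, u ≠ v → u ∈ f → v ∈ f → Side (a :: (m ++ [b])) u v

theorem side_root (hm : m ≠ []) (hn : (vs a m b J).Nodup) : ¬ Side (a :: (m ++ [b])) a b := by
  have hn' : (a :: (m ++ [b])).Nodup := by
    simp [vs, List.nodup_append] at hn ⊢; grind
  have hlen : 0 < m.length := List.length_pos_iff.2 hm
  have e1 : (a :: (m ++ [b]))[0]? = some a := rfl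
  have e2 : (a :: (m ++ [b]))[m.length + 1]? = some b := by simp
  rintro ⟨i, ⟨h1, h2⟩ | ⟨h1, h2⟩⟩
  · have := (List.getElem?_inj (by simp) hn').1 (e1.trans h1.symm)
    have := (List.getElem?_inj (by simp) hn').1 (e2.trans h2.symm)
    omega
  · have := (List.getElem?_inj (by simp) hn').1 (e1.trans h2.symm)
    omega

theorem side_append {P Q : List ℕ} {u v : ℕ} (h : Side P u v) : Side (P ++ Q) u v := by
  obtain ⟨i, h⟩ := h
  refine ⟨i, ?_⟩
  rcases h with ⟨h1, h2⟩ | ⟨h1, h2⟩
  · have := (List.getElem?_eq_some_iff.1 h1).1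
    have := (List.getElem?_eq_some_iff.1 h2).1
    left
    rw [List.getElem?_append_left (by omega), List.getElem?_append_left (by omega)]
    exact ⟨h1, h2⟩
  · have := (List.getElem?_eq_some_iff.1 h1).1
    have := (List.getElem?_eq_some_iff.1 h2).1
    right
    rw [List.getElem?_append_left (by omega), List.getElem?_append_left (by omega)]
    exact ⟨h1, h2⟩

theorem side_left {P Q : List ℕ} {u v : ℕ} (hn : (P ++ Q).Nodup) (hu : u ∈ P) (hv : v ∈ P)
    (h : Side (P ++ Q) u v) : Side P u v := by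
  have key : ∀ (i : ℕ) (x : ℕ), x ∈ P → (P ++ Q)[i]? = some x → P[i]? = some x := by
    intro i x hx h
    by_cases hi : i < P.length
    · rwa [List.getElem?_append_left hi] at h
    · rw [List.getElem?_append_right (by omega)] at h
      have := List.mem_of_getElem? h
      rw [List.nodup_append] at hn
      exact absurd rfl (hn.2.2 x hx x this)
  obtain ⟨i, ⟨h1, h2⟩ | ⟨h1, h2⟩⟩ := h
  · exact ⟨i, Or.inl ⟨key _ _ hu h1, key _ _ hv h2⟩⟩
  · exact ⟨i, Or.inr ⟨key _ _ hv h1, key _ _ hu h2⟩⟩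

theorem side_right {P Q : List ℕ} {u v : ℕ} (hn : (P ++ Q).Nodup) (hu : u ∈ Q) (hv : v ∈ Q)
    (h : Side (P ++ Q) u v) : Side Q u v := by
  have key : ∀ (i : ℕ) (x : ℕ), x ∈ Q → (P ++ Q)[i]? = some x →
      P.length ≤ i ∧ Q[i - P.length]? = some x := by
    intro i x hx h
    by_cases hi : i < P.length
    · rw [List.getElem?_append_left hi] at h
      have := List.mem_of_getElem? h
      rw [List.nodup_append] at hn
      exact absurd rfl (hn.2.2 x this x hx)
    · rw [List.getElem?_append_right (by omega)] at h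
      exact ⟨by omega, h⟩
  obtain ⟨i, ⟨h1, h2⟩ | ⟨h1, h2⟩⟩ := h
  · have e1 := key _ _ hu h1
    have e2 := key _ _ hv h2
    refine ⟨i - P.length, Or.inl ⟨e1.2, ?_⟩⟩
    rw [← e2.2]; congr 1; omega
  · have e1 := key _ _ hv h1
    have e2 := key _ _ hu h2
    refine ⟨i - P.length, Or.inr ⟨e1.2, ?_⟩⟩
    rw [← e2.2]; congr 1; omega

theorem free_left {c : ℕ} {m₁ m₂ K₁ K₂ : List ℕ} {G : List (Finset ℕ)} {S : Set (Finset ℕ)}
    (hG : ∀ f ∈ G, ∀ x ∈ f, x ∈ vs c m₂ b K₂) (hnn : (vs a (m₁ ++ c :: m₂) b (K₁ ++ K₂)).Nodup)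
    (hF : Free a (m₁ ++ c :: m₂) b (K₁ ++ K₂) S) : Free a m₁ c K₁ {f | f ∈ G ∨ f ∈ S} := by
  have hP : ((a :: (m₁ ++ [c])) ++ (m₂ ++ [b])).Nodup := by
    simp [vs, List.nodup_append] at hnn ⊢; grind
  have hin : ∀ z, z ∈ vs a m₁ c K₁ → (∃ i : ℕ, ((a :: (m₁ ++ [c])) ++ (m₂ ++ [b]))[i]? =
      some z) → z ∈ a :: (m₁ ++ [c]) := by
    rintro z hz ⟨i, hi⟩
    have := List.mem_of_getElem? hi
    simp [mem_vs] at hz this ⊢
    simp [vs, List.nodup_append] at hnn; grind
  intro f hf u hu v hv huv hfu hfv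
  rcases hf with hf | hf
  · exfalso
    apply huv
    rw [inter_split hnn hu (hG f hf u hfu), inter_split hnn hv (hG f hf v hfv)]
  · have := hF f hf u (by simp [mem_vs] at hu ⊢; tauto) v
      (by simp [mem_vs] at hv ⊢; tauto) huv hfu hfv
    have e : a :: (m₁ ++ c :: m₂ ++ [b]) = (a :: (m₁ ++ [c])) ++ (m₂ ++ [b]) := by simp
    rw [e] at this
    have hu' : u ∈ a :: (m₁ ++ [c]) := by
      obtain ⟨i, ⟨h1, h2⟩ | ⟨h1, h2⟩⟩ := this
      · exact hin u hu ⟨_, h1⟩
      · exact hin u hu ⟨_, h2⟩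
    have hv' : v ∈ a :: (m₁ ++ [c]) := by
      obtain ⟨i, ⟨h1, h2⟩ | ⟨h1, h2⟩⟩ := this
      · exact hin v hv ⟨_, h2⟩
      · exact hin v hv ⟨_, h1⟩
    exact side_left hP hu' hv' this

theorem free_right {c : ℕ} {m₁ m₂ K₁ K₂ : List ℕ} {G : List (Finset ℕ)} {S : Set (Finset ℕ)}
    (hG : ∀ f ∈ G, ∀ x ∈ f, x ∈ vs a m₁ c K₁) (hnn : (vs a (m₁ ++ c :: m₂) b (K₁ ++ K₂)).Nodup)
    (hF : Free a (m₁ ++ c :: m₂) b (K₁ ++ K₂) S) : Free c m₂ b K₂ {f | f ∈ G ∨ f ∈ S} := by
  have hP : ((a :: m₁) ++ (c :: (m₂ ++ [b]))).Nodup := by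
    simp [vs, List.nodup_append] at hnn ⊢; grind
  have hin : ∀ z, z ∈ vs c m₂ b K₂ → (∃ i : ℕ, ((a :: m₁) ++ (c :: (m₂ ++ [b])))[i]? =
      some z) → z ∈ c :: (m₂ ++ [b]) := by
    rintro z hz ⟨i, hi⟩
    have := List.mem_of_getElem? hi
    simp [mem_vs] at hz this ⊢
    simp [vs, List.nodup_append] at hnn; grind
  intro f hf u hu v hv huv hfu hfv
  rcases hf with hf | hf
  · exfalso
    apply huv
    rw [inter_split hnn (hG f hf u hfu) hu, inter_split hnn (hG f hf v hfv) hv]
  · have := hF f hf u (by simp [mem_vs] at hu ⊢; tauto) v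
      (by simp [mem_vs] at hv ⊢; tauto) huv hfu hfv
    have e : a :: (m₁ ++ c :: m₂ ++ [b]) = (a :: m₁) ++ (c :: (m₂ ++ [b])) := by simp
    rw [e] at this
    have hu' : u ∈ c :: (m₂ ++ [b]) := by
      obtain ⟨i, ⟨h1, h2⟩ | ⟨h1, h2⟩⟩ := this
      · exact hin u hu ⟨_, h1⟩
      · exact hin u hu ⟨_, h2⟩
    have hv' : v ∈ c :: (m₂ ++ [b]) := by
      obtain ⟨i, ⟨h1, h2⟩ | ⟨h1, h2⟩⟩ := this
      · exact hin v hv ⟨_, h2⟩
      · exact hin v hv ⟨_, h1⟩
    exact side_right hP hu' hv' this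

theorem free_inner {w : ℕ} {K : List ℕ} {S : Set (Finset ℕ)} (hF : Free a m b (w :: K) S) :
    Free a (m ++ [b]) w K S := by
  intro f hf u hu v hv huv hfu hfv
  have := hF f hf u (by simp [mem_vs] at hu ⊢; tauto) v
    (by simp [mem_vs] at hv ⊢; tauto) huv hfu hfv
  have e : a :: (m ++ [b] ++ [w]) = (a :: (m ++ [b])) ++ [w] := by simp
  rw [e]
  exact side_append this

theorem free_root {K : List ℕ} {S : Set (Finset ℕ)} (hm : m ≠ []) (hn : (vs a m b K).Nodup)
    (hF : Free a m b K S) : ∀ f, f ∈ S → ¬ (a ∈ f ∧ b ∈ f) := by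
  rintro f hf ⟨h1, h2⟩
  exact side_root hm hn (hF f hf a (by simp [mem_vs]) b (by simp [mem_vs])
    (by simp [vs, List.nodup_append] at hn; grind) h1 h2)

theorem peel {f₀ : Finset ℕ} {T T' : Finset ℕ → Prop} {bad : Finset ℕ → Prop} (h0 : bad f₀)
    (hT : ∀ f, T f → ¬ bad f) (hT' : ∀ f, T' f → ¬ bad f)
    (heq : ∀ f, (f = f₀ ∨ T f) ↔ (f = f₀ ∨ T' f)) (f : Finset ℕ) : T f ↔ T' f := by
  constructor
  · intro h
    rcases (heq f).1 (Or.inr h) with rfl | h'
    · exact absurd h0 (hT _ h)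
    · exact h'
  · intro h
    rcases (heq f).2 (Or.inr h) with rfl | h'
    · exact absurd h0 (hT' _ h)
    · exact h'

theorem Dk.unique (h : Dk t a m b J H) (hok : t.ok) (hn : (vs a m b J).Nodup) :
    ∀ {t' : Tr} {J' : List ℕ} {H' : List (Finset ℕ)}, Dk t' a m b J' H' → t'.ok →
      (vs a m b J').Nodup → ∀ {R R' : Set (Finset ℕ)}, Free a m b J R → Free a m b J' R' →
      (∀ f, (f ∈ H ∨ f ∈ R) ↔ (f ∈ H' ∨ f ∈ R')) → t = t' ∧ J = J' := by
  induction h with
  | edge a b =>
    intro t' J' H' h' hok' hn' R R' hR hR' heq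
    generalize hm : ([] : List ℕ) = m' at h'
    cases h' with
    | edge => exact ⟨rfl, rfl⟩
    | split => simp at hm
    | inner h =>
      have := h.length
      have h2 := hok'.2.1
      subst hm
      simp at this
      omega
  | @split l r a b c m₁ m₂ J₁ J₂ H₁ H₂ h₁ h₂ ih₁ ih₂ =>
    intro t' J' H' h' hok' hn' R R' hR hR' heq
    have hm : m₁ ++ c :: m₂ ≠ [] := by simp
    have hroot : ∀ f, f ∈ R → ¬ (a ∈ f ∧ b ∈ f) := free_root hm hn hR
    have hroot' : ∀ f, f ∈ R' → ¬ (a ∈ f ∧ b ∈ f) := free_root hm hn' hR'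
    have hf0 := (heq {a, c, b}).1 (Or.inl (by simp))
    replace hf0 : ({a, c, b} : Finset ℕ) ∈ H' := by
      rcases hf0 with hf0 | hf0
      · exact hf0
      · exact absurd ⟨by simp, by simp⟩ (hroot' _ hf0)
    generalize hmm : m₁ ++ c :: m₂ = m' at h'
    cases h' with
    | edge => simp at hmm
    | @split l' r' _ _ c' m₁' m₂' J₁' J₂' H₁' H₂' h₁' h₂' =>
      rw [hmm] at hn'
      have hr' := h₁'.root_split h₂' hn'
      have hcc : c = c' := by
        rcases List.mem_cons.1 hf0 with hf0 | hf0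
        · have : c ∈ ({a, c', b} : Finset ℕ) := by rw [← hf0]; simp
          simp only [Finset.mem_insert, Finset.mem_singleton] at this
          simp [vs, List.nodup_append] at hn; grind
        · exact absurd ⟨by simp, by simp⟩ (hr' _ hf0)
      subst hcc
      have hmm' : m₁ = m₁' ∧ m₂ = m₂' := by
        have hc1 : c ∉ m₁ := by simp [vs, List.nodup_append] at hn; grind
        have hc2 : c ∉ m₂ := by simp [vs, List.nodup_append] at hn; grind
        have := (List.append_cons_inj_of_notMem hc1 hc2).1 hmm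
        exact ⟨this.1, this.2.2⟩
      obtain ⟨rfl, rfl⟩ := hmm'
      have hr := h₁.root_split h₂ hn
      have heq' : ∀ f, ((f ∈ H₁ ∨ f ∈ H₂) ∨ f ∈ R) ↔ ((f ∈ H₁' ∨ f ∈ H₂') ∨ f ∈ R') := by
        refine peel (f₀ := {a, c, b}) (bad := fun f => a ∈ f ∧ b ∈ f) ⟨by simp, by simp⟩
          ?_ ?_ ?_
        · rintro f (h | h)
          · exact hr f (List.mem_append.2 h)
          · exact hroot f h
        · rintro f (h | h)
          · exact hr' f (List.mem_append.2 h)
          · exact hroot' f h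
        · intro f
          have h3 := heq f
          simp only [List.mem_cons, List.mem_append, or_assoc] at h3 ⊢
          exact h3
      have hnl := nodup_left hn
      have hnr := nodup_right hn
      have hnl' := nodup_left hn'
      have hnr' := nodup_right hn'
      have i1 := ih₁ hok.1 hnl h₁' hok'.1 hnl' (free_left h₂.subset hn hR)
        (free_left h₂'.subset hn' hR') (by
        intro f
        have := heq' f
        simp only [Set.mem_setOf_eq]
        rwa [or_assoc, or_assoc] at this)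
      have i2 := ih₂ hok.2 hnr h₂' hok'.2 hnr' (free_right h₁.subset hn hR)
        (free_right h₁'.subset hn' hR') (by
        intro f
        have := heq' f
        simp only [Set.mem_setOf_eq]
        rw [or_comm (a := f ∈ H₁), or_comm (a := f ∈ H₁'), or_assoc, or_assoc] at this
        exact this)
      exact ⟨by rw [i1.1, i2.1], by rw [i1.2, i2.2]⟩
    | @inner s' _ _ w' _ J' H' hs' =>
      exfalso
      subst hmm
      have hr' := hs'.root_inner hok' hn'
      rcases List.mem_cons.1 hf0 with hf0 | hf0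
      · have : c ∈ ({a, b, w'} : Finset ℕ) := by rw [← hf0]; simp
        simp only [Finset.mem_insert, Finset.mem_singleton] at this
        simp [vs, List.nodup_append] at hn'; grind
      · exact hr' _ hf0 ⟨by simp, by simp⟩
  | @inner s a b w m J H h ih =>
    intro t' J' H' h' hok' hn' R R' hR hR' heq
    have hm : m ≠ [] := by
      rintro rfl
      have := h.length
      have h2 := hok.2.1
      simp at this
      omega
    have hroot : ∀ f, f ∈ R → ¬ (a ∈ f ∧ b ∈ f) := free_root hm hn hR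
    have hroot' : ∀ f, f ∈ R' → ¬ (a ∈ f ∧ b ∈ f) := free_root hm hn' hR'
    have hf0 := (heq {a, b, w}).1 (Or.inl (by simp))
    replace hf0 : ({a, b, w} : Finset ℕ) ∈ H' := by
      rcases hf0 with hf0 | hf0
      · exact hf0
      · exact absurd ⟨by simp, by simp⟩ (hroot' _ hf0)
    generalize hmm : m = m' at h'
    cases h' with
    | edge => exact absurd hmm hm
    | @split l' r' _ _ c' m₁' m₂' J₁' J₂' H₁' H₂' h₁' h₂' =>
      exfalso
      subst hmm
      have hr' := h₁'.root_split h₂' hn'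
      rcases List.mem_cons.1 hf0 with hf0 | hf0
      · have : w ∈ ({a, c', b} : Finset ℕ) := by rw [← hf0]; simp
        simp only [Finset.mem_insert, Finset.mem_singleton] at this
        simp [vs, List.nodup_append] at hn; grind
      · exact hr' _ hf0 ⟨by simp, by simp⟩
    | @inner s' _ _ w' _ J' H' hs' =>
      subst hmm
      have hr' := hs'.root_inner hok' hn'
      have hr := h.root_inner hok hn
      have hww : w = w' := by
        rcases List.mem_cons.1 hf0 with hf0 | hf0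
        · have : w ∈ ({a, b, w'} : Finset ℕ) := by rw [← hf0]; simp
          simp only [Finset.mem_insert, Finset.mem_singleton] at this
          simp [vs, List.nodup_append] at hn; grind
        · exact absurd ⟨by simp, by simp⟩ (hr' _ hf0)
      subst hww
      have i1 := ih hok.1 (nodup_inner hn) hs' hok'.1 (nodup_inner hn') (free_inner hR)
        (free_inner hR') (by
        refine peel (f₀ := {a, b, w}) (bad := fun f => a ∈ f ∧ b ∈ f) ⟨by simp, by simp⟩
          ?_ ?_ ?_
        · rintro f (h | h)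
          · exact hr f h
          · exact hroot f h
        · rintro f (h | h)
          · exact hr' f h
          · exact hroot' f h
        · intro f
          have h3 := heq f
          simp only [List.mem_cons, or_assoc] at h3 ⊢
          exact h3)
      exact ⟨by rw [i1.1], by rw [i1.2]⟩

end Pool.Agent.H694
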