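import Pool.Agent.H694.Tree

/-!
# Cutting along a chord
-/

namespace Pool.Agent.H694

namespace Tr

/-- number of nodes -/
def size : Tr → ℕ
  | edge => 1
  | split l r => l.size + r.size + 1
  | inner s => s.size + 1

theorem size_eq : ∀ {t : Tr}, t.ok → t.size = 2 * t.md + 3 * t.inn + 1
  | edge, _ => rfl
  | split l r, h => by
    have h1 := size_eq h.1
    have h2 := size_eq h.2
    simp only [size, md, inn, h1, h2]; ring
  | inner s, h => by
    have h1 := size_eq h.1
    have h2 := h.2.1
    simp only [size, md, inn, h1]; omega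

theorem md_pos {t : Tr} (h : t.ok) (ht : t ≠ edge) : 1 ≤ t.md := by
  cases t with
  | edge => exact absurd rfl ht
  | split l r => simp only [md]; omega
  | inner s =>
    have := h.2.1
    simp only [md]; omega

/-- replace the leftmost leaf of `u` by `v` -/
def glue : Tr → Tr → Tr
  | edge, v => v
  | split l r, v => split (glue l v) r
  | inner s, v => inner (glue s v)

theorem md_glue : ∀ {u : Tr}, u.ok → ∀ v : Tr, (glue u v).md = u.md + v.md
  | edge, _, v => by simp [glue, md]
  | split l r, h, v => by
    simp only [glue, md, md_glue h.1 v]; ring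
  | inner s, h, v => by
    have := h.2.1
    simp only [glue, md, md_glue h.1 v]; omega

theorem inn_glue : ∀ (u v : Tr), (glue u v).inn = u.inn + v.inn
  | edge, v => by simp [glue, inn]
  | split l r, v => by simp only [glue, inn, inn_glue l v]; ring
  | inner s, v => by simp only [glue, inn, inn_glue s v]; ring

theorem ch_glue_add : ∀ {u : Tr}, u.ok → ∀ (v : Tr) (j : ℕ), 1 ≤ j → j < u.md →
    ((glue u v).ch (v.md + j) ↔ u.ch j)
  | edge, _, v, j, _, h => by simp [md] at h
  | split l r, hok, v, j, hj, h => by
    simp only [glue, ch, md_glue hok.1 v]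
    by_cases hl : j < l.md
    · have := ch_glue_add hok.1 v j hj hl
      constructor
      · rintro (⟨-, h1⟩ | h1)
        · exact Or.inl ⟨hl, this.1 h1⟩
        · omega
      · rintro (⟨-, h1⟩ | h1)
        · exact Or.inl ⟨by omega, this.2 h1⟩
        · omega
    · constructor
      · rintro (⟨h1, -⟩ | h1)
        · omega
        · exact Or.inr (by omega)
      · rintro (⟨h1, -⟩ | h1)
        · omega
        · exact Or.inr (by omega)
  | inner s, hok, v, j, hj, h => by
    simp only [md] at h
    exact ch_glue_add hok.1 v j hj (by omega)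

theorem ch_glue : ∀ {u : Tr}, u.ok → u ≠ edge → ∀ v : Tr, (glue u v).ch v.md
  | edge, _, h, _ => absurd rfl h
  | split l r, hok, _, v => by
    simp only [glue, ch, md_glue hok.1 v]
    by_cases hl : l = edge
    · subst hl; simp [md]
    · have := md_pos hok.1 hl
      exact Or.inl ⟨by omega, ch_glue hok.1 hl v⟩
  | inner s, hok, _, v => by
    have hs : s ≠ edge := by
      rintro rfl
      have := hok.2.1
      simp [md] at this
    exact ch_glue hok.1 hs v

theorem ok_glue : ∀ {u : Tr}, u.ok → ∀ {v : Tr}, v.ok → (glue u v).ok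
  | edge, _, v, hv => hv
  | split l r, hok, v, hv => ⟨ok_glue hok.1 hv, hok.2⟩
  | inner s, hok, v, hv => by
    have h2 := hok.2.1
    refine ⟨ok_glue hok.1 hv, ?_, ?_⟩
    · rw [md_glue hok.1]; omega
    · have := ch_glue_add hok.1 v (s.md - 1) (by omega) (by omega)
      rw [md_glue hok.1, show s.md + v.md - 1 = v.md + (s.md - 1) by omega, this]
      exact hok.2.2

theorem exists_glue : ∀ {t : Tr}, t.ok → ∀ (j : ℕ), t.ch j → j < t.md →
    ∃ u v : Tr, u.ok ∧ v.ok ∧ u ≠ edge ∧ v.md = j ∧ glue u v = t
  | edge, _, j, h, _ => h.elim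
  | split l r, hok, j, h, hj => by
    rcases h with ⟨h1, h2⟩ | h1
    · obtain ⟨u, v, hu, hv, hne, hvj, hg⟩ := exists_glue hok.1 j h2 h1
      exact ⟨split u r, v, ⟨hu, hok.2⟩, hv, by simp, hvj, by simp [glue, hg]⟩
    · exact ⟨split edge r, l, ⟨trivial, hok.2⟩, hok.1, by simp, h1.symm, rfl⟩
  | inner s, hok, j, h, hj => by
    simp only [md] at hj
    obtain ⟨u, v, hu, hv, hne, hvj, hg⟩ := exists_glue hok.1 j h (by omega)
    have h3 : s.md = u.md + v.md := by rw [← hg, md_glue hu]
    refine ⟨inner u, v, ⟨hu, by omega, ?_⟩, hv, by simp, hvj, by simp [glue, hg]⟩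
    have := ch_glue_add hu v (u.md - 1) (by omega) (by omega)
    rw [← this, hg]
    have h4 := hok.2.2
    rw [show s.md - 1 = v.md + (u.md - 1) by omega] at h4
    exact h4

theorem glue_inj : ∀ {u u' : Tr}, u.ok → u'.ok → ∀ {v v' : Tr}, u.md = u'.md →
    glue u v = glue u' v' → v.md = v'.md → u = u' ∧ v = v'
  | edge, u', _, hok', v, v', hm, h, hv => by
    by_cases hu : u' = edge
    · subst hu; exact ⟨rfl, h⟩
    · have := md_pos hok' hu
      simp [md] at hm
      omega
  | split l r, edge, hok, _, v, v', hm, h, hv => by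
    simp [md] at hm
  | split l r, split l' r', hok, hok', v, v', hm, h, hv => by
    simp only [glue, split.injEq] at h
    have hr := h.2
    subst hr
    simp only [md] at hm
    have := glue_inj hok.1 hok'.1 (by omega) h.1 hv
    exact ⟨by rw [this.1], this.2⟩
  | split l r, inner s', hok, hok', v, v', hm, h, hv => by simp [glue] at h
  | inner s, edge, hok, _, v, v', hm, h, hv => by
    have := md_pos hok (by simp)
    simp [md] at hm this
    omega
  | inner s, split l' r', hok, hok', v, v', hm, h, hv => by simp [glue] at h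
  | inner s, inner s', hok, hok', v, v', hm, h, hv => by
    simp only [glue, inner.injEq] at h
    simp only [md] at hm
    have h1 := hok.2.1
    have h2 := hok'.2.1
    have := glue_inj hok.1 hok'.1 (by omega) h hv
    exact ⟨by rw [this.1], this.2⟩

theorem md_zero {t : Tr} (h : t.ok) (h0 : t.md = 0) : t = edge := by
  by_contra hne
  have := md_pos h hne
  omega

/-- the decomposition of shapes -/
def equiv : Tr ≃ Unit ⊕ (Tr × Tr) ⊕ Tr where
  toFun
    | edge => Sum.inl ()
    | split l r => Sum.inr (Sum.inl (l, r))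
    | inner s => Sum.inr (Sum.inr s)
  invFun
    | Sum.inl _ => edge
    | Sum.inr (Sum.inl p) => split p.1 p.2
    | Sum.inr (Sum.inr s) => inner s
  left_inv t := by cases t <;> rfl
  right_inv x := by rcases x with _ | _ | _ <;> rfl

end Tr

end Pool.Agent.H694
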