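import Pool.Agent.H694.Pair
import Pool.Agent.H694.Count2

/-!
# The algorithm says yes on almost all complexes
-/

namespace Pool.Agent.H694

open Finset Filter Topology

/-- the triangle `x y z` bounds a disk with a shape in `T` -/
def fil (T : Finset Tr) (V : Finset ℕ) (F : Finset (Finset ℕ)) (x y z : ℕ) : Prop :=
  ∃ t ∈ T, ∃ J ∈ words V t.inn, ∀ f ∈ tri t x [y] z J, fs f ∈ F

/-- the symmetric version -/
def base (T : Finset Tr) (V : Finset ℕ) (F : Finset (Finset ℕ)) (x y z : ℕ) : Prop :=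
  fil T V F x y z ∨ fil T V F y z x ∨ fil T V F z x y ∨
    fil T V F y x z ∨ fil T V F x z y ∨ fil T V F z y x

/-- the closure under the tetrahedron rule -/
def cl (T : Finset Tr) (V : Finset ℕ) (F : Finset (Finset ℕ)) : ℕ → ℕ → ℕ → ℕ → Prop
  | 0, x, y, z => base T V F x y z
  | k + 1, x, y, z => cl T V F k x y z ∨
      ∃ w ∈ V, cl T V F k x y w ∧ cl T V F k y z w ∧ cl T V F k x z w

variable {T : Finset Tr} {V : Finset ℕ} {F : Finset (Finset ℕ)}

theorem base_swap12 {x y z : ℕ} (h : base T V F x y z) : base T V F y x z := by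
  unfold base at *; tauto

theorem base_swap23 {x y z : ℕ} (h : base T V F x y z) : base T V F x z y := by
  unfold base at *; tauto

theorem cl_swap12 : ∀ {k x y z : ℕ}, cl T V F k x y z → cl T V F k y x z
  | 0, _, _, _, h => base_swap12 h
  | k + 1, x, y, z, h => by
    rcases h with h | ⟨w, hw, h1, h2, h3⟩
    · exact Or.inl (cl_swap12 h)
    · exact Or.inr ⟨w, hw, cl_swap12 h1, h3, h2⟩

theorem cl_swap23 : ∀ {k x y z : ℕ}, cl T V F k x y z → cl T V F k x z y
  | 0, _, _, _, h => base_swap23 h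
  | k + 1, x, y, z, h => by
    rcases h with h | ⟨w, hw, h1, h2, h3⟩
    · exact Or.inl (cl_swap23 h)
    · exact Or.inr ⟨w, hw, h3, cl_swap12 h2, h1⟩

theorem cl_mono {k l : ℕ} (hkl : k ≤ l) {x y z : ℕ} (h : cl T V F k x y z) :
    cl T V F l x y z := by
  induction hkl with
  | refl => exact h
  | step _ ih => exact Or.inl ih

/-- all triples are obtained -/
def Good (T : Finset Tr) (n : ℕ) (F : Finset (Finset ℕ)) : Prop :=
  ∀ x ∈ range n, ∀ y ∈ range n, ∀ z ∈ range n, x ≠ y → y ≠ z → x ≠ z →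
    cl T (range n) F (n + 1) x y z

/-- the sets attached to a pair -/
def Us (u a b : ℕ) : Finset ℕ := range u \ {a, b}
def Ws (n u a b : ℕ) : Finset ℕ := (range n \ range u) \ {a, b}

theorem setting (hT : ∀ t ∈ T, t.ok ∧ t.md = 1) {n u a b : ℕ} (hu : u ≤ n) (hab : a ≠ b)
    (ha : a ∈ range n) (hb : b ∈ range n) : Setting T a b n (Us u a b) (Ws n u a b) := by
  refine ⟨hT, hab, ha, hb, ?_, ?_, ?_, ?_, ?_, ?_, ?_⟩
  · exact sdiff_subset.trans (range_subset_range.2 hu)
  · exact sdiff_subset.trans sdiff_subset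
  · simp [Us]
  · simp [Us]
  · simp [Ws]
  · simp [Ws]
  · intro x hx hx'
    simp only [Us, Ws, Finset.mem_sdiff] at hx hx'
    exact hx'.1.2 hx.1

theorem card_Us (u a b : ℕ) : u ≤ (Us u a b).card + 2 := by
  have h1 := le_card_sdiff {a, b} (range u)
  have h2 : ({a, b} : Finset ℕ).card ≤ 2 := card_le_two
  rw [card_range] at h1
  unfold Us; omega

theorem card_Ws (n u a b : ℕ) : n ≤ (Ws n u a b).card + u + 2 := by
  have h1 := le_card_sdiff {a, b} (range n \ range u)
  have h3 := le_card_sdiff (range u) (range n)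
  have h2 : ({a, b} : Finset ℕ).card ≤ 2 := card_le_two
  rw [card_range, card_range] at h3
  unfold Ws; omega

theorem base_of_comp {a b x y : ℕ} {t₁ t₂ : Tr} {J : List ℕ} (h₁ : t₁ ∈ T) (h₂ : t₂ ∈ T)
    (hJ : J ∈ words V (t₁.inn + t₂.inn)) (hs : comp a b t₁ t₂ x y J ⊆ F) :
    base T V F a x y ∧ base T V F b x y := by
  rw [mem_words] at hJ
  constructor
  · left
    refine ⟨t₁, h₁, J.take t₁.inn, ?_, ?_⟩
    · rw [mem_words]
      exact ⟨by rw [List.length_take, hJ.1]; omega, fun v hv => hJ.2 v (List.mem_of_mem_take hv)⟩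
    · intro f hf
      apply hs
      rw [Adm.mem_comp]
      exact Or.inl (List.mem_map_of_mem hf)
  · left
    refine ⟨t₂, h₂, J.drop t₁.inn, ?_, ?_⟩
    · rw [mem_words]
      exact ⟨by rw [List.length_drop, hJ.1]; omega, fun v hv => hJ.2 v (List.mem_of_mem_drop hv)⟩
    · intro f hf
      apply hs
      rw [Adm.mem_comp]
      exact Or.inr (List.mem_map_of_mem hf)

theorem pair_closed (hT0 : Tr.split Tr.edge Tr.edge ∈ T) {n a b : ℕ} {U W : Finset ℕ}
    (hU : U ⊆ range n) (hW : W ⊆ range n) (hUne : U.Nonempty) (hOK : OKp T a b U W F) :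
    ∀ y ∈ giant U (HH T a b U W F), cl T (range n) F n a b y := by
  obtain ⟨hc, x₀, hx₀, hf⟩ := hOK
  intro y hy
  have h1 : cl T (range n) F U.card a b y := by
    refine giant_spread hUne hc (fun k y => cl T (range n) F k a b y) ?_ ?_ hx₀ ?_ y hy
    · intro k x h
      exact Or.inl h
    · intro k x hx y hy hxy hk
      have hxn := hU hx
      have key : ∀ x y, HH T a b U W F x y → base T (range n) F a x y ∧ base T (range n) F b x y := by
        rintro x y ⟨_, _, _, t₁, h₁, t₂, h₂, J, hJ, hs⟩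
        refine base_of_comp h₁ h₂ ?_ hs
        rw [mem_nod] at hJ
        rw [mem_words]
        exact ⟨hJ.1.1, fun v hv => hW (hJ.1.2 v hv)⟩
      have h2 : cl T (range n) F 0 a y x ∧ cl T (range n) F 0 b y x := by
        rcases hxy with h | h
        · exact ⟨base_swap23 (key x y h).1, base_swap23 (key x y h).2⟩
        · exact key y x h
      exact Or.inr ⟨x, hxn, hk, cl_mono (Nat.zero_le k) h2.2, cl_mono (Nat.zero_le k) h2.1⟩
    · left
      refine ⟨_, hT0, [], ?_, ?_⟩
      · rw [mem_words]; exact ⟨rfl, by simp⟩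
      · simp only [tri, Tr.md, List.getD_cons_zero, List.append_nil,
          List.mem_singleton, forall_eq, fs]
        exact hf
  have h2 : U.card ≤ n := by
    have := card_le_card hU
    rwa [card_range] at this
  exact cl_mono h2 h1

theorem good_of_pairs (hT0 : Tr.split Tr.edge Tr.edge ∈ T)
    {n u : ℕ} (hu : u ≤ n) (hu18 : 18 ≤ u)
    (hOK : ∀ a ∈ range n, ∀ b ∈ range n, a ≠ b → OKp T a b (Us u a b) (Ws n u a b) F) :
    Good T n F := by
  intro a ha b hb d hd hab hbd had
  have key : ∀ a ∈ range n, ∀ b ∈ range n, a ≠ b → ∃ G ⊆ range u, 3 * u < 4 * G.card + 6 ∧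
      ∀ y ∈ G, cl T (range n) F n a b y := by
    intro a ha b hb hab
    have h1 : (Us u a b).Nonempty := by
      rw [← card_pos]
      have := card_Us u a b
      omega
    have h2 := giant_spec (H := HH T a b (Us u a b) (Ws n u a b) F) h1
    refine ⟨giant (Us u a b) (HH T a b (Us u a b) (Ws n u a b) F), ?_, ?_, ?_⟩
    · exact h2.1.1.1.trans sdiff_subset
    · have h3 := card_Us u a b
      have h4 := h2.1.2
      omega
    · exact pair_closed hT0 (sdiff_subset.trans (range_subset_range.2 hu))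
        (sdiff_subset.trans sdiff_subset) h1 (hOK a ha b hb hab)
  obtain ⟨G1, hG1, hc1, h1⟩ := key a ha b hb hab
  obtain ⟨G2, hG2, hc2, h2⟩ := key b hb d hd hbd
  obtain ⟨G3, hG3, hc3, h3⟩ := key a ha d hd had
  have h4 : ((G1 ∩ G2) ∩ G3).Nonempty := by
    rw [← card_pos]
    have e1 := card_union_add_card_inter G1 G2
    have e2 := card_union_add_card_inter (G1 ∩ G2) G3
    have e3 : (G1 ∪ G2).card ≤ u := by
      have := card_le_card (union_subset hG1 hG2)
      rwa [card_range] at this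
    have e4 : ((G1 ∩ G2) ∪ G3).card ≤ u := by
      have := card_le_card (union_subset (inter_subset_left.trans hG1 : G1 ∩ G2 ⊆ range u) hG3)
      rwa [card_range] at this
    omega
  obtain ⟨w, hw⟩ := h4
  rw [mem_inter, mem_inter] at hw
  exact Or.inr ⟨w, range_subset_range.2 hu (hG1 hw.1.1), h1 w hw.1.1, h2 w hw.1.2, h3 w hw.2⟩

/-! ### The limit -/

open Classical in
/-- the probability that not all triples are obtained -/
theorem fail_le (hT : ∀ t ∈ T, t.ok ∧ t.md = 1) (hT0 : Tr.split Tr.edge Tr.edge ∈ T)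
    {n u L : ℕ} {p z δ₁ δ₂ : ℝ} (hu : u ≤ n) (hu18 : 18 ≤ u) (hp : 0 < p) (hp1 : p ≤ 1)
    (hz : 0 ≤ z) (hL : ∀ t ∈ T, t.inn ≤ L)
    (hzp : z ≤ ((n - u - 2 - 2 * L : ℕ) : ℝ) * p ^ 2)
    (h1 : (2 : ℝ) ^ u * Real.exp (-(3 / 16 * ((u : ℝ) - 2) ^ 2 * p ^ 2 *
      (∑ t ∈ T, z ^ t.inn) ^ 2) + KK T (n * p ^ 2) / p) ≤ δ₁)
    (h2 : Real.exp (-(3 / 4 * p * ((u : ℝ) - 2))) ≤ δ₂) :
    1 - (n : ℝ) ^ 2 * (δ₁ + δ₂) ≤
      ex (powersetCard 3 (range n)) p (fun F => if Good T n F then 1 else 0) := by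
  have hpt : ∀ F ⊆ powersetCard 3 (range n), 1 - ∑ a ∈ range n, ∑ b ∈ range n,
      (if a ≠ b then (if OKp T a b (Us u a b) (Ws n u a b) F then (0 : ℝ) else 1) else 0) ≤
      if Good T n F then 1 else 0 := by
    intro F _
    have h0 : ∀ a ∈ range n, ∀ b ∈ range n, (0 : ℝ) ≤
        (if a ≠ b then (if OKp T a b (Us u a b) (Ws n u a b) F then (0 : ℝ) else 1) else 0) := by
      intro a _ b _
      split_ifs <;> norm_num
    by_cases hG : Good T n F
    · rw [if_pos hG]
      have := sum_nonneg fun a ha => sum_nonneg fun b hb => h0 a ha b hb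
      linarith
    · rw [if_neg hG]
      have h3 : ∃ a ∈ range n, ∃ b ∈ range n, a ≠ b ∧
          ¬ OKp T a b (Us u a b) (Ws n u a b) F := by
        by_contra hcon
        push Not at hcon
        exact hG (good_of_pairs hT0 hu hu18 hcon)
      obtain ⟨a, ha, b, hb, hab, hno⟩ := h3
      have h4 := single_le_sum (f := fun a => ∑ b ∈ range n,
        (if a ≠ b then (if OKp T a b (Us u a b) (Ws n u a b) F then (0 : ℝ) else 1) else 0))
        (fun a ha => sum_nonneg fun b hb => h0 a ha b hb) ha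
      have h5 := single_le_sum (f := fun b =>
        (if a ≠ b then (if OKp T a b (Us u a b) (Ws n u a b) F then (0 : ℝ) else 1) else 0))
        (fun b hb => h0 a ha b hb) hb
      rw [if_pos hab, if_neg hno] at h5
      linarith
  refine le_trans ?_ (ex_mono hp.le hp1 hpt)
  rw [ex_sub, ex_const, ex_sum]
  have h3 : ∀ a ∈ range n, ex (powersetCard 3 (range n)) p (fun F => ∑ b ∈ range n,
      (if a ≠ b then (if OKp T a b (Us u a b) (Ws n u a b) F then (0 : ℝ) else 1) else 0)) ≤
      n * (δ₁ + δ₂) := by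
    intro a ha
    rw [ex_sum]
    have hδ₁ : 0 ≤ δ₁ := le_trans (by positivity) h1
    have hδ₂ : 0 ≤ δ₂ := le_trans (by positivity) h2
    have h4 : ∀ b ∈ range n, ex (powersetCard 3 (range n)) p (fun F =>
        (if a ≠ b then (if OKp T a b (Us u a b) (Ws n u a b) F then (0 : ℝ) else 1) else 0)) ≤
        δ₁ + δ₂ := by
      intro b hb
      by_cases hab : a ≠ b
      · simp only [if_pos hab]
        have hs := setting hT hu hab ha hb
        have hUc := card_Us u a b
        have hUn : (Us u a b).Nonempty := by rw [← card_pos]; omega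
        have hWc := card_Ws n u a b
        have hUc' : (Us u a b).card ≤ u := by
          have := card_le_card (sdiff_subset : Us u a b ⊆ range u)
          rwa [card_range] at this
        have hUr : (u : ℝ) - 2 ≤ (Us u a b).card := by
          have : (u : ℝ) ≤ (Us u a b).card + 2 := by exact_mod_cast hUc
          linarith
        have hur : (0 : ℝ) ≤ (u : ℝ) - 2 := by
          have : (18 : ℝ) ≤ u := by exact_mod_cast hu18
          linarith
        have hzp' : z ≤ (((Ws n u a b).card - 2 * L : ℕ) : ℝ) * p ^ 2 := by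
          refine hzp.trans ?_
          have : n - u - 2 - 2 * L ≤ (Ws n u a b).card - 2 * L := by omega
          gcongr
        refine (hs.fail hUn hp hp1 hz hL hzp').trans (add_le_add ?_ ?_)
        · refine le_trans ?_ h1
          gcongr
          norm_num
        · refine le_trans ?_ h2
          gcongr
      · simp only [if_neg hab]
        rw [ex_const]
        positivity
    refine (sum_le_sum h4).trans ?_
    rw [sum_const, card_range, nsmul_eq_mul]
  have h4 := sum_le_sum h3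
  rw [sum_const, card_range, nsmul_eq_mul] at h4
  have : (n : ℝ) * (n * (δ₁ + δ₂)) = (n : ℝ) ^ 2 * (δ₁ + δ₂) := by ring
  rw [this] at h4
  linarith

theorem KK_nonneg (T : Finset Tr) {c : ℝ} (hc : 0 ≤ c) : 0 ≤ KK T c := by
  unfold KK
  positivity

open Classical in
/-- **The probabilistic statement.** -/
theorem main_prob {c : ℝ} (hc0 : 0 < c) (hc : 27 / 256 < c ^ 2) :
    ∃ T : Finset Tr, (∀ t ∈ T, t.ok ∧ t.md = 1) ∧
      Tendsto (fun n : ℕ => ex (powersetCard 3 (range n)) (c / Real.sqrt n)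
        (fun F => if Good T n F then 1 else 0)) atTop (𝓝 1) := by
  obtain ⟨z, hz⟩ : ∃ z, z = (27 / 256 + c ^ 2) / 2 := ⟨_, rfl⟩
  have hz1 : 27 / 256 < z := by rw [hz]; linarith
  have hz2 : z < c ^ 2 := by rw [hz]; linarith
  have hz0 : 0 ≤ z := by linarith
  obtain ⟨ε, hε⟩ : ∃ ε, ε = (c ^ 2 - z) / (2 * c ^ 2) := ⟨_, rfl⟩
  have hε0 : 0 < ε := by rw [hε]; apply div_pos <;> nlinarith
  have hε1 : ε < 1 := by rw [hε, div_lt_one (by positivity)]; nlinarith
  have hεz : (1 - 2 * ε) * c ^ 2 = z := by rw [hε]; field_simp; ring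
  obtain ⟨T₀, hT₀, hB⟩ := count_unbounded hz1 (8 / (ε * c))
  obtain ⟨T, hTdef⟩ : ∃ T, T = insert (Tr.split Tr.edge Tr.edge) T₀ := ⟨_, rfl⟩
  have hT : ∀ t ∈ T, t.ok ∧ t.md = 1 := by
    intro t ht
    rw [hTdef, mem_insert] at ht
    rcases ht with rfl | ht
    · simp [Tr.ok, Tr.md]
    · exact hT₀ t ht
  have hT0 : Tr.split Tr.edge Tr.edge ∈ T := by rw [hTdef]; exact mem_insert_self _ _
  have hQ : 8 / (ε * c) ≤ ∑ t ∈ T, z ^ t.inn := by
    refine hB.trans ?_
    apply sum_le_sum_of_subset_of_nonneg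
    · rw [hTdef]; exact subset_insert _ _
    · intro t _ _; positivity
  refine ⟨T, hT, ?_⟩
  obtain ⟨L, hL⟩ : ∃ L : ℕ, ∀ t ∈ T, t.inn ≤ L := ⟨T.sup Tr.inn, fun t ht => le_sup ht⟩
  obtain ⟨K, hK⟩ : ∃ K, K = KK T (c ^ 2) := ⟨_, rfl⟩
  have hK0 : 0 ≤ K := by rw [hK]; exact KK_nonneg T (by positivity)
  obtain ⟨δ, hδ⟩ : ∃ δ, δ = 3 / 8 * c * ε := ⟨_, rfl⟩
  have hδ0 : 0 < δ := by rw [hδ]; positivity
  have hsq : Tendsto (fun n : ℕ => Real.sqrt n) atTop atTop :=
    Real.tendsto_sqrt_atTop.comp tendsto_natCast_atTop_atTop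
  -- the lower bound
  have hlow : ∀ᶠ n : ℕ in atTop, 1 - (n : ℝ) ^ 2 * (Real.exp (-(δ * Real.sqrt n)) +
      Real.exp (-(δ * Real.sqrt n))) ≤ ex (powersetCard 3 (range n)) (c / Real.sqrt n)
        (fun F => if Good T n F then 1 else 0) := by
    filter_upwards [hsq.eventually_ge_atTop (c + 1 + K / c + δ),
      (tendsto_natCast_atTop_atTop (R := ℝ)).eventually_ge_atTop ((20 + 2 * L) / ε)] with n hs hn
    obtain ⟨s, hsdef⟩ : ∃ s, s = Real.sqrt n := ⟨_, rfl⟩
    rw [← hsdef] at hs ⊢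
    have hKc : 0 ≤ K / c := by positivity
    have hs1 : 1 ≤ s := by linarith
    have hs0 : 0 < s := by linarith
    have hsc : c ≤ s := by linarith
    have hs2 : s * s = n := by rw [hsdef]; exact Real.mul_self_sqrt (Nat.cast_nonneg n)
    have hnε : 20 + 2 * (L : ℝ) ≤ ε * n := by
      rw [div_le_iff₀ hε0] at hn
      linarith
    have hL0 : (0 : ℝ) ≤ L := Nat.cast_nonneg L
    obtain ⟨u, hu⟩ : ∃ u, u = ⌊ε * (n : ℝ)⌋₊ := ⟨_, rfl⟩
    have hu1 : (u : ℝ) ≤ ε * n := by
      rw [hu]; exact Nat.floor_le (by positivity)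
    have hu2 : ε * n < (u : ℝ) + 1 := by
      rw [hu]; exact Nat.lt_floor_add_one _
    have hn0 : (0 : ℝ) < n := by rw [← hs2]; positivity
    have hun : (u : ℝ) ≤ n := by nlinarith
    have hun' : u ≤ n := by exact_mod_cast hun
    have hu18 : 18 ≤ u := by
      have : (18 : ℝ) < (u : ℝ) + 1 := by linarith
      have : 18 < u + 1 := by exact_mod_cast this
      omega
    have hp0 : 0 < c / s := by positivity
    have hp1 : c / s ≤ 1 := by rw [div_le_one hs0]; exact hsc
    have hp2 : (c / s) ^ 2 = c ^ 2 / n := by rw [div_pow, ← hs2]; ring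
    have hnp : (n : ℝ) * (c / s) ^ 2 = c ^ 2 := by rw [hp2]; field_simp
    refine fail_le hT hT0 (L := L) (z := z) hun' hu18 hp0 hp1 hz0 hL ?_ ?_ ?_
    · -- `z`
      rw [hp2]
      have h1 : (1 - 2 * ε) * n ≤ ((n - u - 2 - 2 * L : ℕ) : ℝ) := by
        have h2 : n ≤ (n - u - 2 - 2 * L) + u + 2 + 2 * L := by omega
        have h3 : (n : ℝ) ≤ ((n - u - 2 - 2 * L : ℕ) : ℝ) + u + 2 + 2 * L := by
          exact_mod_cast h2
        nlinarith
      calc z = ((1 - 2 * ε) * n) * (c ^ 2 / n) := by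
            rw [← hεz]; field_simp
        _ ≤ _ := by gcongr
    · -- the cuts
      rw [hnp, ← hK]
      have h2 : (2 : ℝ) ^ u ≤ Real.exp n := by
        calc (2 : ℝ) ^ u ≤ (Real.exp 1) ^ u := by
              apply pow_le_pow_left₀ (by norm_num)
              have := Real.add_one_le_exp (1 : ℝ)
              linarith
          _ = Real.exp u := by rw [← Real.exp_nat_mul, mul_one]
          _ ≤ Real.exp n := Real.exp_le_exp.2 hun
      have h3 : 3 * (n : ℝ) ≤ 3 / 16 * ((u : ℝ) - 2) ^ 2 * (c / s) ^ 2 *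
          (∑ t ∈ T, z ^ t.inn) ^ 2 := by
        have h4 : ε * n / 2 ≤ (u : ℝ) - 2 := by linarith
        have h5 : 0 ≤ ε * n / 2 := by positivity
        have h6 : 0 ≤ 8 / (ε * c) := by positivity
        calc 3 * (n : ℝ) = 3 / 16 * (ε * n / 2) ^ 2 * (c / s) ^ 2 * (8 / (ε * c)) ^ 2 := by
              rw [hp2]; field_simp; ring
          _ ≤ _ := by gcongr
      have h4 : K / (c / s) ≤ n := by
        rw [← hs2]
        have : K / (c / s) = (K / c) * s := by field_simp
        rw [this]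
        apply mul_le_mul_of_nonneg_right _ hs0.le
        linarith
      have h5 : δ * s ≤ n := by
        rw [← hs2]
        apply mul_le_mul_of_nonneg_right _ hs0.le
        linarith
      calc _ ≤ Real.exp n * Real.exp (-(3 * (n : ℝ)) + n) := by gcongr
        _ = Real.exp (-n) := by rw [← Real.exp_add]; congr 1; ring
        _ ≤ Real.exp (-(δ * s)) := Real.exp_le_exp.2 (by linarith)
    · -- the faces over the pair
      apply Real.exp_le_exp.2
      have h4 : ε * n / 2 ≤ (u : ℝ) - 2 := by linarith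
      have h5 : 3 / 4 * (c / s) * (ε * n / 2) ≤ 3 / 4 * (c / s) * ((u : ℝ) - 2) := by gcongr
      have h6 : 3 / 4 * (c / s) * (ε * n / 2) = δ * s := by
        rw [hδ, ← hs2]; field_simp; ring
      linarith
  -- the upper bound
  have hup : ∀ᶠ n : ℕ in atTop, ex (powersetCard 3 (range n)) (c / Real.sqrt n)
        (fun F => if Good T n F then 1 else 0) ≤ 1 := by
    filter_upwards [hsq.eventually_ge_atTop (c + 1)] with n hs
    have hs0 : 0 < Real.sqrt n := by linarith
    calc _ ≤ ex (powersetCard 3 (range n)) (c / Real.sqrt n) (fun _ => 1) := by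
          apply ex_mono (by positivity) (by rw [div_le_one hs0]; linarith)
          intro F _
          split_ifs <;> norm_num
      _ = 1 := ex_const 1
  have hlim : Tendsto (fun n : ℕ => 1 - (n : ℝ) ^ 2 * (Real.exp (-(δ * Real.sqrt n)) +
      Real.exp (-(δ * Real.sqrt n)))) atTop (𝓝 1) := by
    have h1 := (Real.tendsto_pow_mul_exp_neg_atTop_nhds_zero 4).comp (hsq.const_mul_atTop hδ0)
    have h2 := (h1.const_mul (2 / δ ^ 4)).const_sub 1
    rw [mul_zero, sub_zero] at h2
    refine h2.congr fun n => ?_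
    simp only [Function.comp]
    have h3 : (n : ℝ) ^ 2 = (Real.sqrt n) ^ 4 := by
      have : (n : ℝ) = (Real.sqrt n) ^ 2 := (Real.sq_sqrt (Nat.cast_nonneg n)).symm
      rw [show (Real.sqrt n) ^ 4 = ((Real.sqrt n) ^ 2) ^ 2 by ring, ← this]
    rw [h3]
    field_simp
    ring
  exact tendsto_of_tendsto_of_tendsto_of_le_of_le' hlim tendsto_const_nhds hlow hup

end Pool.Agent.H694
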