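import Mathlib

/-!
# Random subsets of a finite set: Harris' and Janson's inequalities
-/

namespace Pool.Agent.H694

open Finset

set_option linter.unusedSectionVars false

variable {α : Type*} [DecidableEq α]

/-- expectation of a function of a random subset of `N`, each element taken with probability `p` -/
noncomputable def ex (N : Finset α) (p : ℝ) (f : Finset α → ℝ) : ℝ :=
  ∑ F ∈ N.powerset, p ^ F.card * (1 - p) ^ (N.card - F.card) * f F

variable {N : Finset α} {p : ℝ}

theorem ex_insert {e : α} (he : e ∉ N) (f : Finset α → ℝ) :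
    ex (insert e N) p f = p * ex N p (fun F => f (insert e F)) + (1 - p) * ex N p f := by
  unfold ex
  rw [sum_powerset_insert he, mul_sum, mul_sum, add_comm]
  congr 1
  · apply sum_congr rfl
    intro F hF
    have hF' := mem_powerset.1 hF
    have h1 : e ∉ F := fun h => he (hF' h)
    rw [card_insert_of_notMem h1, card_insert_of_notMem he, Nat.add_sub_add_right, pow_succ]
    ring
  · apply sum_congr rfl
    intro F hF
    have hF' := card_le_card (mem_powerset.1 hF)
    rw [card_insert_of_notMem he, Nat.sub_add_comm hF', pow_succ]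
    ring

theorem ex_congr {f g : Finset α → ℝ} (h : ∀ F ⊆ N, f F = g F) : ex N p f = ex N p g := by
  unfold ex
  exact sum_congr rfl fun F hF => by rw [h F (mem_powerset.1 hF)]

theorem ex_add (f g : Finset α → ℝ) : ex N p (fun F => f F + g F) = ex N p f + ex N p g := by
  unfold ex
  rw [← sum_add_distrib]
  exact sum_congr rfl fun F _ => by ring

theorem ex_sub (f g : Finset α → ℝ) : ex N p (fun F => f F - g F) = ex N p f - ex N p g := by
  unfold ex
  rw [← sum_sub_distrib]
  exact sum_congr rfl fun F _ => by ring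

theorem ex_mul (c : ℝ) (f : Finset α → ℝ) : ex N p (fun F => c * f F) = c * ex N p f := by
  unfold ex
  rw [mul_sum]
  exact sum_congr rfl fun F _ => by ring

theorem ex_sum {ι : Type*} (s : Finset ι) (f : ι → Finset α → ℝ) :
    ex N p (fun F => ∑ i ∈ s, f i F) = ∑ i ∈ s, ex N p (f i) := by
  unfold ex
  rw [sum_comm]
  exact sum_congr rfl fun F _ => by rw [mul_sum]

theorem ex_const (c : ℝ) : ex N p (fun _ => c) = c := by
  unfold ex
  rw [← sum_mul, sum_pow_mul_eq_add_pow]
  simp

theorem ex_mono (h0 : 0 ≤ p) (h1 : p ≤ 1) {f g : Finset α → ℝ} (h : ∀ F ⊆ N, f F ≤ g F) :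
    ex N p f ≤ ex N p g := by
  unfold ex
  apply sum_le_sum
  intro F hF
  exact mul_le_mul_of_nonneg_left (h F (mem_powerset.1 hF))
    (mul_nonneg (pow_nonneg h0 _) (pow_nonneg (by linarith) _))

theorem ex_nonneg (h0 : 0 ≤ p) (h1 : p ≤ 1) {f : Finset α → ℝ} (h : ∀ F ⊆ N, 0 ≤ f F) :
    0 ≤ ex N p f := by
  have := ex_mono (N := N) h0 h1 (f := fun _ => 0) h
  rwa [ex_const] at this

/-- Harris' inequality. -/
theorem harris (h0 : 0 ≤ p) (h1 : p ≤ 1) : ∀ (N : Finset α) {f g : Finset α → ℝ}, Monotone f →
    Monotone g → ex N p f * ex N p g ≤ ex N p (fun F => f F * g F) := by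
  intro N
  induction N using Finset.induction_on with
  | empty =>
    intro f g _ _
    simp [ex]
  | insert e N he ih =>
    intro f g hf hg
    rw [ex_insert he, ex_insert he, ex_insert he]
    have hf1 : Monotone (fun F => f (insert e F)) := fun F G h => hf (insert_subset_insert e h)
    have hg1 : Monotone (fun F => g (insert e F)) := fun F G h => hg (insert_subset_insert e h)
    have e1 := ih hf1 hg1
    have e2 := ih hf hg
    have e3 : ex N p f ≤ ex N p (fun F => f (insert e F)) :=
      ex_mono h0 h1 fun F _ => hf (subset_insert e F)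
    have e4 : ex N p g ≤ ex N p (fun F => g (insert e F)) :=
      ex_mono h0 h1 fun F _ => hg (subset_insert e F)
    have e5 : 0 ≤ p * (1 - p) * ((ex N p (fun F => f (insert e F)) - ex N p f) *
        (ex N p (fun F => g (insert e F)) - ex N p g)) :=
      mul_nonneg (mul_nonneg h0 (by linarith)) (mul_nonneg (by linarith) (by linarith))
    have e6 := mul_le_mul_of_nonneg_left e1 h0
    have e7 := mul_le_mul_of_nonneg_left e2 (by linarith : 0 ≤ 1 - p)
    nlinarith [e5, e6, e7]

theorem harris_anti (h0 : 0 ≤ p) (h1 : p ≤ 1) (N : Finset α) {f g : Finset α → ℝ}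
    (hf : Monotone f) (hg : Antitone g) :
    ex N p (fun F => f F * g F) ≤ ex N p f * ex N p g := by
  have h := harris h0 h1 N hf (g := fun F => (-1) * g F)
    (fun F G hFG => by have := hg hFG; simp only; linarith)
  rw [ex_mul] at h
  have e : ex N p (fun F => f F * ((-1) * g F)) = (-1) * ex N p (fun F => f F * g F) := by
    rw [← ex_mul]
    exact ex_congr fun F _ => by ring
  rw [e] at h
  linarith

/-- indicator of `S ⊆ F` -/
noncomputable def sb (S F : Finset α) : ℝ := if S ⊆ F then 1 else 0

theorem sb_mono (S : Finset α) : Monotone (sb S) := by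
  intro F G h
  unfold sb
  split_ifs with h1 h2
  · exact le_rfl
  · exact absurd (h1.trans h) h2
  · exact zero_le_one
  · exact le_rfl

theorem sb_nonneg (S F : Finset α) : 0 ≤ sb S F := by unfold sb; split_ifs <;> norm_num

theorem sb_mul (S T F : Finset α) : sb S F * sb T F = sb (S ∪ T) F := by
  unfold sb
  by_cases h1 : S ⊆ F <;> by_cases h2 : T ⊆ F <;> simp [h1, h2, union_subset_iff]

theorem ex_mem {e : α} (he : e ∈ N) {g : Finset α → ℝ} (hg : ∀ F, g (insert e F) = g F) :
    ex N p (fun F => (if e ∈ F then 1 else 0) * g F) = p * ex N p g ∧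
      ex N p (fun F => (if e ∈ F then 0 else 1) * g F) = (1 - p) * ex N p g := by
  obtain ⟨N', hN', rfl⟩ : ∃ N', e ∉ N' ∧ N = insert e N' :=
    ⟨N.erase e, notMem_erase e N, (insert_erase he).symm⟩
  rw [ex_insert hN', ex_insert hN', ex_insert hN']
  have e1 : ex N' p (fun F => (if e ∈ insert e F then (1 : ℝ) else 0) * g (insert e F)) =
      ex N' p g := ex_congr fun F _ => by simp [hg]
  have e2 : ex N' p (fun F => (if e ∈ F then (1 : ℝ) else 0) * g F) = 0 :=
    (ex_congr (g := fun _ => 0) fun F hF => by
      rw [if_neg (fun h => hN' (hF h))]; simp).trans (ex_const 0)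
  have e3 : ex N' p (fun F => (if e ∈ insert e F then (0 : ℝ) else 1) * g (insert e F)) = 0 :=
    (ex_congr (g := fun _ => 0) fun F _ => by simp).trans (ex_const 0)
  have e4 : ex N' p (fun F => (if e ∈ F then (0 : ℝ) else 1) * g F) = ex N' p g :=
    ex_congr fun F hF => by rw [if_neg (fun h => hN' (hF h))]; simp
  have e5 : ex N' p (fun F => g (insert e F)) = ex N' p g := ex_congr fun F _ => by rw [hg]
  rw [e1, e2, e3, e4, e5]
  constructor <;> ring

theorem ex_sb : ∀ (S : Finset α), S ⊆ N → ∀ {g : Finset α → ℝ},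
    (∀ e ∈ S, ∀ F, g (insert e F) = g F) → ex N p (fun F => sb S F * g F) =
      p ^ S.card * ex N p g := by
  intro S
  induction S using Finset.induction_on with
  | empty =>
    intro _ g _
    simp [sb]
  | insert e S he ih =>
    intro hS g hg
    have h1 := ih ((subset_insert e S).trans hS) (g := g)
      (fun e' he' F => hg e' (mem_insert_of_mem he') F)
    rw [card_insert_of_notMem he, pow_succ, mul_assoc, mul_left_comm, ← h1]
    rw [← (ex_mem (p := p) (hS (mem_insert_self e S)) (g := fun F => sb S F * g F) ?_).1]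
    · apply ex_congr
      intro F _
      rw [← mul_assoc]
      congr 1
      unfold sb
      by_cases h1 : e ∈ F <;> by_cases h2 : S ⊆ F <;> simp [h1, h2, insert_subset_iff]
    · intro F
      rw [hg e (mem_insert_self e S) F]
      congr 1
      unfold sb
      have : S ⊆ insert e F ↔ S ⊆ F := by
        rw [subset_insert_iff_of_notMem he]
      simp [this]

theorem ex_sb_one (S : Finset α) (hS : S ⊆ N) : ex N p (sb S) = p ^ S.card := by
  have := ex_sb (p := p) S hS (g := fun _ => 1) (fun _ _ _ => rfl)
  rw [ex_const, mul_one] at this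
  rw [← this]
  exact ex_congr fun F _ => by ring

/-- a set of elements is avoided -/
theorem ex_avoid : ∀ (S : Finset α), S ⊆ N → ∀ {g : Finset α → ℝ},
    (∀ e ∈ S, ∀ F, g (insert e F) = g F) →
    ex N p (fun F => (if Disjoint S F then 1 else 0) * g F) = (1 - p) ^ S.card * ex N p g := by
  intro S
  induction S using Finset.induction_on with
  | empty =>
    intro _ g _
    simp
  | insert e S he ih =>
    intro hS g hg
    have h1 := ih ((subset_insert e S).trans hS) (g := g)
      (fun e' he' F => hg e' (mem_insert_of_mem he') F)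
    rw [card_insert_of_notMem he, pow_succ, mul_assoc, mul_left_comm, ← h1]
    rw [← (ex_mem (p := p) (hS (mem_insert_self e S))
      (g := fun F => (if Disjoint S F then 1 else 0) * g F) ?_).2]
    · apply ex_congr
      intro F _
      rw [← mul_assoc]
      congr 1
      by_cases h1 : e ∈ F <;> by_cases h2 : Disjoint S F <;> simp [h1, h2]
    · intro F
      rw [hg e (mem_insert_self e S) F]
      congr 1
      have : Disjoint S (insert e F) ↔ Disjoint S F := by
        rw [disjoint_insert_right]; simp [he]
      simp [this]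

/-- none of the sets `S i`, `i ∈ I`, is contained in `F` -/
noncomputable def nn {ι : Type*} (S : ι → Finset α) (I : Finset ι) (F : Finset α) : ℝ :=
  ∏ i ∈ I, (1 - sb (S i) F)

theorem nn_01 {ι : Type*} (S : ι → Finset α) (I : Finset ι) (F : Finset α) :
    0 ≤ nn S I F ∧ nn S I F ≤ 1 := by
  have h : ∀ i ∈ I, 0 ≤ 1 - sb (S i) F ∧ 1 - sb (S i) F ≤ 1 := by
    intro i _
    unfold sb
    split_ifs <;> norm_num
  exact ⟨prod_nonneg fun i hi => (h i hi).1, prod_le_one (fun i hi => (h i hi).1)
    fun i hi => (h i hi).2⟩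

theorem nn_anti {ι : Type*} (S : ι → Finset α) (I : Finset ι) : Antitone (nn S I) := by
  intro F G h
  apply prod_le_prod
  · intro i _
    unfold sb
    split_ifs <;> norm_num
  · intro i _
    have := sb_mono (S i) h
    linarith

theorem nn_ge {ι : Type*} [DecidableEq ι] (S : ι → Finset α) (I : Finset ι) (F : Finset α) :
    1 - ∑ i ∈ I, sb (S i) F ≤ nn S I F := by
  induction I using Finset.induction_on with
  | empty => simp [nn]
  | insert i I hi ih =>
    unfold nn at ih ⊢
    rw [prod_insert hi, sum_insert hi]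
    have h1 := nn_01 S I F
    unfold nn at h1
    have h2 := sb_nonneg (S i) F
    nlinarith

/-- Janson's inequality. -/
theorem janson {ι : Type*} [DecidableEq ι] (h0 : 0 ≤ p) (h1 : p ≤ 1) (S : ι → Finset α)
    (I : Finset ι) (hS : ∀ i ∈ I, S i ⊆ N) :
    ex N p (nn S I) ≤ Real.exp (-(∑ i ∈ I, p ^ (S i).card) +
      ∑ i ∈ I, ∑ j ∈ I, if i ≠ j ∧ ¬ Disjoint (S i) (S j) then p ^ (S i ∪ S j).card else 0) := by
  induction I using Finset.induction_on with
  | empty =>
    have : nn S (∅ : Finset ι) = fun _ => 1 := by funext F; simp [nn]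
    rw [this, ex_const]
    simp
  | insert i I hi ih =>
    have ih := ih (fun j hj => hS j (mem_insert_of_mem hj))
    have hSi := hS i (mem_insert_self i I)
    obtain ⟨I₀, hI₀⟩ : ∃ I₀, I₀ = I.filter (fun j => Disjoint (S i) (S j)) := ⟨_, rfl⟩
    obtain ⟨I₁, hI₁⟩ : ∃ I₁, I₁ = I.filter (fun j => ¬ Disjoint (S i) (S j)) := ⟨_, rfl⟩
    have hsplit : ∀ F, nn S I F = nn S I₀ F * nn S I₁ F := by
      intro F
      unfold nn
      rw [hI₀, hI₁, prod_filter_mul_prod_filter_not]
    have hind : ∀ e ∈ S i, ∀ F, nn S I₀ (insert e F) = nn S I₀ F := by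
      intro e he F
      unfold nn
      apply prod_congr rfl
      intro j hj
      rw [hI₀, mem_filter] at hj
      have : e ∉ S j := fun h => (disjoint_left.1 hj.2) he h
      unfold sb
      simp only [subset_insert_iff_of_notMem this]
    obtain ⟨D, hD⟩ : ∃ D : ℝ, D = ∑ j ∈ I₁, p ^ (S i ∪ S j).card := ⟨_, rfl⟩
    have hD0 : 0 ≤ D := by
      rw [hD]; exact sum_nonneg fun j _ => pow_nonneg h0 _
    -- lower bound for the probability of `A_i` and none of the others
    have key : (p ^ (S i).card - D) * ex N p (nn S I) ≤ ex N p (fun F => sb (S i) F * nn S I F) := by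
      have hC : ex N p (nn S I) ≤ ex N p (nn S I₀) := by
        apply ex_mono h0 h1
        intro F _
        rw [hsplit F]
        have h2 := nn_01 S I₀ F
        have h3 := nn_01 S I₁ F
        nlinarith
      have hCn : 0 ≤ ex N p (nn S I) := ex_nonneg h0 h1 fun F _ => (nn_01 S I F).1
      have hlow : (p ^ (S i).card - D) * ex N p (nn S I₀) ≤
          ex N p (fun F => sb (S i) F * nn S I F) := by
        have e1 : ex N p (fun F => sb (S i) F * nn S I₀ F) = p ^ (S i).card * ex N p (nn S I₀) :=
          ex_sb (S i) hSi hind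
        have e2 : ∀ j ∈ I₁, ex N p (fun F => sb (S i ∪ S j) F * nn S I₀ F) ≤
            p ^ (S i ∪ S j).card * ex N p (nn S I₀) := by
          intro j hj
          rw [hI₁, mem_filter] at hj
          refine (harris_anti h0 h1 N (sb_mono _) (nn_anti S I₀)).trans ?_
          rw [ex_sb_one _ (union_subset hSi (hS j (mem_insert_of_mem hj.1)))]
        have e3 : ex N p (fun F => sb (S i) F * nn S I₀ F -
            ∑ j ∈ I₁, sb (S i ∪ S j) F * nn S I₀ F) ≤
            ex N p (fun F => sb (S i) F * nn S I F) := by
          apply ex_mono h0 h1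
          intro F _
          rw [hsplit F]
          have h2 := nn_ge S I₁ F
          have h3 := nn_01 S I₀ F
          have h4 := sb_nonneg (S i) F
          have h5 : ∑ j ∈ I₁, sb (S i ∪ S j) F * nn S I₀ F =
              (sb (S i) F * nn S I₀ F) * ∑ j ∈ I₁, sb (S j) F := by
            rw [mul_sum]
            apply sum_congr rfl
            intro j _
            rw [← sb_mul]; ring
          rw [h5]
          have h6 : 0 ≤ sb (S i) F * nn S I₀ F := mul_nonneg h4 h3.1
          nlinarith
        refine le_trans ?_ e3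
        rw [ex_sub, ex_sum, e1, sub_mul, hD, sum_mul]
        have := sum_le_sum e2
        linarith
      by_cases hd : 0 ≤ p ^ (S i).card - D
      · exact (mul_le_mul_of_nonneg_left hC hd).trans hlow
      · refine le_trans (mul_nonpos_of_nonpos_of_nonneg (by linarith) hCn) ?_
        exact ex_nonneg h0 h1 fun F _ => mul_nonneg (sb_nonneg _ _) (nn_01 S I F).1
    have hnn : 0 ≤ ex N p (nn S I) := ex_nonneg h0 h1 fun F _ => (nn_01 S I F).1
    have e1 : ex N p (nn S (insert i I)) =
        ex N p (nn S I) - ex N p (fun F => sb (S i) F * nn S I F) := by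
      rw [← ex_sub]
      apply ex_congr
      intro F _
      unfold nn
      rw [prod_insert hi]; ring
    have e2 : ex N p (nn S (insert i I)) ≤
        Real.exp (-(p ^ (S i).card) + D) * ex N p (nn S I) := by
      rw [e1]
      have := Real.add_one_le_exp (-(p ^ (S i).card) + D)
      nlinarith
    refine e2.trans ((mul_le_mul_of_nonneg_left ih (Real.exp_pos _).le).trans ?_)
    rw [← Real.exp_add]
    apply Real.exp_le_exp.2
    rw [sum_insert hi, sum_insert hi]
    have e3 : D ≤ ∑ j ∈ insert i I,
        if i ≠ j ∧ ¬ Disjoint (S i) (S j) then p ^ (S i ∪ S j).card else 0 := by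
      rw [hD, sum_insert hi, if_neg (by simp), zero_add, hI₁, sum_filter]
      apply sum_le_sum
      intro j hj
      have hij : i ≠ j := by rintro rfl; exact hi hj
      by_cases hd : Disjoint (S i) (S j) <;> simp [hd, hij]
    have e4 : ∑ k ∈ I, ∑ j ∈ I,
        (if k ≠ j ∧ ¬ Disjoint (S k) (S j) then p ^ (S k ∪ S j).card else 0) ≤
        ∑ k ∈ I, ∑ j ∈ insert i I,
        (if k ≠ j ∧ ¬ Disjoint (S k) (S j) then p ^ (S k ∪ S j).card else 0) := by
      apply sum_le_sum
      intro k _
      apply sum_le_sum_of_subset_of_nonneg (subset_insert i I)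
      intro j _ _
      split_ifs
      · exact pow_nonneg h0 _
      · exact le_rfl
    linarith

end Pool.Agent.H694
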