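import Mathlib

/-!
# Sums over words
-/

namespace Pool.Agent.H694

open Finset

/-- words of length `ℓ` over `A` -/
def words (A : Finset ℕ) : ℕ → Finset (List ℕ)
  | 0 => {[]}
  | ℓ + 1 => (A ×ˢ words A ℓ).image fun p => p.1 :: p.2

theorem mem_words {A : Finset ℕ} : ∀ {ℓ : ℕ} {w : List ℕ}, w ∈ words A ℓ ↔
    w.length = ℓ ∧ ∀ v ∈ w, v ∈ A
  | 0, w => by
    simp only [words, mem_singleton, List.length_eq_zero_iff]
    constructor
    · rintro rfl; simp
    · rintro ⟨h, -⟩; exact h
  | ℓ + 1, w => by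
    simp only [words, mem_image, mem_product, Prod.exists]
    constructor
    · rintro ⟨x, w', ⟨h1, h2⟩, rfl⟩
      have := mem_words.1 h2
      simp only [List.length_cons, List.mem_cons, forall_eq_or_imp]
      exact ⟨by rw [this.1], h1, this.2⟩
    · rintro ⟨h1, h2⟩
      cases w with
      | nil => simp at h1
      | cons x w' =>
        simp only [List.length_cons, Nat.add_right_cancel_iff, List.mem_cons,
          forall_eq_or_imp] at h1 h2
        exact ⟨x, w', ⟨h2.1, mem_words.2 ⟨h1, h2.2⟩⟩, rfl⟩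

theorem sum_words_succ (A : Finset ℕ) (ℓ : ℕ) (f : List ℕ → ℝ) :
    ∑ w ∈ words A (ℓ + 1), f w = ∑ x ∈ A, ∑ w ∈ words A ℓ, f (x :: w) := by
  rw [words, sum_image, sum_product]
  rintro ⟨x, w⟩ _ ⟨y, w'⟩ _ h
  simp only [List.cons.injEq] at h
  exact Prod.ext h.1 h.2

theorem sum_words_add (A : Finset ℕ) : ∀ (k l : ℕ) (f : List ℕ → ℝ),
    ∑ w ∈ words A (k + l), f w = ∑ w ∈ words A k, ∑ w' ∈ words A l, f (w ++ w')
  | 0, l, f => by simp [words]
  | k + 1, l, f => by
    rw [Nat.add_right_comm, sum_words_succ, sum_words_succ]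
    apply sum_congr rfl
    intro x _
    rw [sum_words_add A k l]
    rfl

/-- words with distinct letters -/
def nod (A : Finset ℕ) (ℓ : ℕ) : Finset (List ℕ) := (words A ℓ).filter List.Nodup

theorem mem_nod {A : Finset ℕ} {ℓ : ℕ} {w : List ℕ} : w ∈ nod A ℓ ↔
    (w.length = ℓ ∧ ∀ v ∈ w, v ∈ A) ∧ w.Nodup := by
  rw [nod, mem_filter, mem_words]

theorem card_nod (A : Finset ℕ) : ∀ ℓ : ℕ, (A.card - ℓ) ^ ℓ ≤ (nod A ℓ).card
  | 0 => by
    have : [] ∈ nod A 0 := mem_nod.2 ⟨⟨rfl, by simp⟩, List.nodup_nil⟩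
    simpa using card_pos.2 ⟨_, this⟩
  | ℓ + 1 => by
    have ih := card_nod A ℓ
    -- the nonrepetitive words of length `ℓ + 1`
    have h1 : (nod A (ℓ + 1)).card = ∑ w ∈ nod A ℓ, (A \ w.toFinset).card := by
      rw [← card_sigma]
      symm
      apply card_bij (fun (p : (_ : List ℕ) × ℕ) _ => p.2 :: p.1)
      · rintro ⟨w, x⟩ hp
        simp only [mem_sigma, mem_sdiff, List.mem_toFinset] at hp
        have h2 := mem_nod.1 hp.1
        rw [mem_nod]
        simp only [List.length_cons, List.mem_cons, forall_eq_or_imp, List.nodup_cons]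
        exact ⟨⟨by rw [h2.1.1], hp.2.1, h2.1.2⟩, hp.2.2, h2.2⟩
      · rintro ⟨w, x⟩ _ ⟨w', x'⟩ _ h
        simp only [List.cons.injEq] at h
        obtain ⟨rfl, rfl⟩ := h
        rfl
      · intro w hw
        rw [mem_nod] at hw
        cases w with
        | nil => simp at hw
        | cons x w' =>
          simp only [List.length_cons, Nat.add_right_cancel_iff, List.mem_cons, forall_eq_or_imp,
            List.nodup_cons] at hw
          refine ⟨⟨w', x⟩, ?_, rfl⟩
          simp only [mem_sigma, mem_sdiff, List.mem_toFinset]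
          exact ⟨mem_nod.2 ⟨⟨hw.1.1, hw.1.2.2⟩, hw.2.2⟩, hw.1.2.1, hw.2.1⟩
    have h2 : ∀ w ∈ nod A ℓ, A.card - ℓ ≤ (A \ w.toFinset).card := by
      intro w hw
      have h3 := le_card_sdiff w.toFinset A
      have h4 : w.toFinset.card ≤ ℓ := by
        rw [← (mem_nod.1 hw).1.1]; exact List.toFinset_card_le w
      omega
    rw [h1]
    calc (A.card - (ℓ + 1)) ^ (ℓ + 1) ≤ (A.card - ℓ) ^ (ℓ + 1) :=
          Nat.pow_le_pow_left (by omega) _
      _ = (A.card - ℓ) ^ ℓ * (A.card - ℓ) := pow_succ _ _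
      _ ≤ (nod A ℓ).card * (A.card - ℓ) := Nat.mul_le_mul_right _ ih
      _ = ∑ w ∈ nod A ℓ, (A.card - ℓ) := by rw [sum_const, smul_eq_mul]
      _ ≤ _ := sum_le_sum h2

theorem sum_toFinset {q : ℝ} (hq : 0 ≤ q) (A : Finset ℕ) : ∀ ℓ : ℕ,
    ∑ w ∈ words A ℓ, q ^ w.toFinset.card ≤ ∏ j ∈ range ℓ, ((j : ℝ) + A.card * q)
  | 0 => by simp [words]
  | ℓ + 1 => by
    have ih := sum_toFinset hq A ℓ
    rw [sum_words_succ, sum_comm, prod_range_succ]
    have h1 : ∀ w ∈ words A ℓ, ∑ x ∈ A, q ^ (x :: w).toFinset.card ≤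
        q ^ w.toFinset.card * ((ℓ : ℝ) + A.card * q) := by
      intro w hw
      have h2 : ∀ x ∈ A, q ^ (x :: w).toFinset.card ≤
          (if x ∈ w.toFinset then q ^ w.toFinset.card else 0) + q ^ w.toFinset.card * q := by
        intro x _
        have h3 : 0 ≤ q ^ w.toFinset.card * q := by positivity
        have h4 : 0 ≤ q ^ w.toFinset.card := by positivity
        rw [List.toFinset_cons]
        by_cases hx : x ∈ w.toFinset
        · rw [if_pos hx, insert_eq_of_mem hx]; linarith
        · rw [if_neg hx, card_insert_of_notMem hx, pow_succ, zero_add]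
      refine (sum_le_sum h2).trans ?_
      rw [sum_add_distrib, sum_const, ← sum_filter, sum_const, nsmul_eq_mul, nsmul_eq_mul]
      have h5 : (A.filter (fun x => x ∈ w.toFinset)).card ≤ ℓ := by
        have : (A.filter (fun x => x ∈ w.toFinset)) ⊆ w.toFinset := by
          intro x hx; exact (mem_filter.1 hx).2
        refine (card_le_card this).trans ?_
        rw [← (mem_words.1 hw).1]; exact List.toFinset_card_le w
      have h6 : ((A.filter (fun x => x ∈ w.toFinset)).card : ℝ) ≤ ℓ := by exact_mod_cast h5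
      have h4 : 0 ≤ q ^ w.toFinset.card := by positivity
      nlinarith
    refine (sum_le_sum h1).trans ?_
    rw [← sum_mul]
    apply mul_le_mul_of_nonneg_right ih
    positivity

end Pool.Agent.H694
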