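import Pool.Agent.H694.Comp
import Pool.Agent.H694.Prob
import Pool.Agent.H694.Words
import Pool.Agent.H694.Cut

/-!
# The auxiliary graph of a pair of vertices
-/

namespace Pool.Agent.H694

open Finset

/-- edges of the auxiliary graph of the pair `a, b` -/
def HH (T : Finset Tr) (a b : ℕ) (U W : Finset ℕ) (F : Finset (Finset ℕ)) (x y : ℕ) : Prop :=
  x ∈ U ∧ y ∈ U ∧ x ≠ y ∧
    ∃ t₁ ∈ T, ∃ t₂ ∈ T, ∃ J ∈ nod W (t₁.inn + t₂.inn), comp a b t₁ t₂ x y J ⊆ F

structure Setting (T : Finset Tr) (a b n : ℕ) (U W : Finset ℕ) : Prop where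
  shapes : ∀ t ∈ T, t.ok ∧ t.md = 1
  ab : a ≠ b
  ha : a ∈ range n
  hb : b ∈ range n
  hU : U ⊆ range n
  hW : W ⊆ range n
  aU : a ∉ U
  bU : b ∉ U
  aW : a ∉ W
  bW : b ∉ W
  disj : ∀ x ∈ U, x ∉ W

variable {T : Finset Tr} {a b n : ℕ} {U W : Finset ℕ} {p : ℝ}

theorem Setting.adm (h : Setting T a b n U W) {t₁ t₂ : Tr} (h₁ : t₁ ∈ T) (h₂ : t₂ ∈ T) {x y : ℕ}
    (hx : x ∈ U) (hy : y ∈ U) (hxy : x ≠ y) {J : List ℕ} (hJ : J ∈ nod W (t₁.inn + t₂.inn)) :
    Adm a b t₁ t₂ x y J := by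
  rw [mem_nod] at hJ
  refine ⟨(h.shapes _ h₁).1, (h.shapes _ h₂).1, (h.shapes _ h₁).2, (h.shapes _ h₂).2, hJ.1.1, ?_⟩
  simp only [List.nodup_cons, List.mem_cons, not_or]
  refine ⟨⟨h.ab, ?_, ?_, ?_⟩, ⟨?_, ?_, ?_⟩, ⟨hxy, ?_⟩, ?_, hJ.2⟩
  · rintro rfl; exact h.aU hx
  · rintro rfl; exact h.aU hy
  · exact fun h' => h.aW (hJ.1.2 _ h')
  · rintro rfl; exact h.bU hx
  · rintro rfl; exact h.bU hy
  · exact fun h' => h.bW (hJ.1.2 _ h')
  · exact fun h' => h.disj _ hx (hJ.1.2 _ h')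
  · exact fun h' => h.disj _ hy (hJ.1.2 _ h')

/-- the index type of the structures crossing a cut -/
abbrev Ix := (_ : Tr × Tr × ℕ × ℕ) × List ℕ

/-- the structures crossing a cut -/
def idx (T : Finset Tr) (U W S : Finset ℕ) : Finset Ix :=
  (T ×ˢ T ×ˢ S ×ˢ (U \ S)).sigma fun q => nod W (q.1.inn + q.2.1.inn)

/-- the faces of a structure -/
def cset (a b : ℕ) (i : Ix) : Finset (Finset ℕ) := comp a b i.1.1 i.1.2.1 i.1.2.2.1 i.1.2.2.2 i.2

/-- the word of a structure -/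
def wd (i : Ix) : List ℕ := i.1.2.2.1 :: i.1.2.2.2 :: i.2

theorem mem_idx {S : Finset ℕ} {i : Ix} : i ∈ idx T U W S ↔
    (i.1.1 ∈ T ∧ i.1.2.1 ∈ T ∧ i.1.2.2.1 ∈ S ∧ i.1.2.2.2 ∈ U \ S) ∧
      i.2 ∈ nod W (i.1.1.inn + i.1.2.1.inn) := by
  obtain ⟨⟨t₁, t₂, x, y⟩, J⟩ := i
  simp only [idx, mem_sigma, mem_product]

theorem sum_idx (S : Finset ℕ) (f : Ix → ℝ) : ∑ i ∈ idx T U W S, f i =
    ∑ t₁ ∈ T, ∑ t₂ ∈ T, ∑ x ∈ S, ∑ y ∈ U \ S, ∑ J ∈ nod W (t₁.inn + t₂.inn),
      f ⟨(t₁, t₂, x, y), J⟩ := by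
  rw [idx, sum_sigma, sum_product]
  apply sum_congr rfl
  intro t₁ _
  rw [sum_product]
  apply sum_congr rfl
  intro t₂ _
  rw [sum_product]

theorem Setting.adm' (h : Setting T a b n U W) {S : Finset ℕ} (hS : S ⊆ U) {i : Ix}
    (hi : i ∈ idx T U W S) : Adm a b i.1.1 i.1.2.1 i.1.2.2.1 i.1.2.2.2 i.2 := by
  rw [mem_idx, mem_sdiff] at hi
  exact h.adm hi.1.1 hi.1.2.1 (hS hi.1.2.2.1) hi.1.2.2.2.1
    (by rintro h'; exact hi.1.2.2.2.2 (h' ▸ hi.1.2.2.1)) hi.2

theorem Setting.comp_sub (h : Setting T a b n U W) {t₁ t₂ : Tr} (h₁ : t₁ ∈ T) (h₂ : t₂ ∈ T)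
    {x y : ℕ} (hx : x ∈ U) (hy : y ∈ U) (hxy : x ≠ y) {J : List ℕ}
    (hJ : J ∈ nod W (t₁.inn + t₂.inn)) : comp a b t₁ t₂ x y J ⊆ powersetCard 3 (range n) := by
  have hA := h.adm h₁ h₂ hx hy hxy hJ
  intro f hf
  rw [mem_powersetCard]
  refine ⟨fun v hv => ?_, hA.card3 hf⟩
  rcases hA.subset_vtx hf hv with rfl | rfl | hv
  · exact h.ha
  · exact h.hb
  · rcases Adm.mem_vtx.1 hv with rfl | rfl | hv
    · exact h.hU hx
    · exact h.hU hy
    · exact h.hW ((mem_nod.1 hJ).1.2 _ hv)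

/-- lower bound for the expectation -/
theorem Setting.mu (h : Setting T a b n U W) {S : Finset ℕ} (hS : S ⊆ U)
    {z : ℝ} (hz : 0 ≤ z) {L : ℕ} (hL : ∀ t ∈ T, t.inn ≤ L)
    (hzp : z ≤ ((W.card - 2 * L : ℕ) : ℝ) * p ^ 2) :
    (S.card : ℝ) * (U \ S).card * p ^ 2 * (∑ t ∈ T, z ^ t.inn) ^ 2 ≤
      ∑ i ∈ idx T U W S, p ^ (cset a b i).card := by
  have h1 : ∀ t₁ ∈ T, ∀ t₂ ∈ T, ∀ x ∈ S, ∀ y ∈ U \ S,
      p ^ 2 * (z ^ t₁.inn * z ^ t₂.inn) ≤ ∑ J ∈ nod W (t₁.inn + t₂.inn),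
        p ^ (cset a b ⟨(t₁, t₂, x, y), J⟩).card := by
    intro t₁ h₁ t₂ h₂ x hx y hy
    rw [mem_sdiff] at hy
    have hxy : x ≠ y := fun h' => hy.2 (h' ▸ hx)
    have h2 : ∀ J ∈ nod W (t₁.inn + t₂.inn), p ^ (cset a b ⟨(t₁, t₂, x, y), J⟩).card =
        (p ^ 2) ^ (t₁.inn + t₂.inn) * p ^ 2 := by
      intro J hJ
      have hA := h.adm h₁ h₂ (hS hx) hy.1 hxy hJ
      have := hA.card
      simp only [cset]
      rw [this, hA.len, ← pow_mul, ← pow_add]
    rw [sum_congr rfl h2, sum_const, nsmul_eq_mul]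
    have h3 := card_nod W (t₁.inn + t₂.inn)
    have h4 : ((W.card - 2 * L : ℕ) : ℝ) ^ (t₁.inn + t₂.inn) ≤
        ((nod W (t₁.inn + t₂.inn)).card : ℝ) := by
      have h5 : (W.card - 2 * L) ^ (t₁.inn + t₂.inn) ≤
          (W.card - (t₁.inn + t₂.inn)) ^ (t₁.inn + t₂.inn) := by
        apply Nat.pow_le_pow_left
        have := hL _ h₁
        have := hL _ h₂
        omega
      exact_mod_cast h5.trans h3
    calc p ^ 2 * (z ^ t₁.inn * z ^ t₂.inn) = z ^ (t₁.inn + t₂.inn) * p ^ 2 := by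
          rw [pow_add]; ring
      _ ≤ (((W.card - 2 * L : ℕ) : ℝ) * p ^ 2) ^ (t₁.inn + t₂.inn) * p ^ 2 := by gcongr
      _ = ((W.card - 2 * L : ℕ) : ℝ) ^ (t₁.inn + t₂.inn) *
          ((p ^ 2) ^ (t₁.inn + t₂.inn) * p ^ 2) := by rw [mul_pow]; ring
      _ ≤ _ := by gcongr
  rw [sum_idx]
  calc (S.card : ℝ) * (U \ S).card * p ^ 2 * (∑ t ∈ T, z ^ t.inn) ^ 2
      = ∑ t₁ ∈ T, ∑ t₂ ∈ T, ∑ x ∈ S, ∑ y ∈ U \ S, p ^ 2 * (z ^ t₁.inn * z ^ t₂.inn) := by
        simp only [sum_const, nsmul_eq_mul]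
        rw [pow_two (∑ t ∈ T, z ^ t.inn), sum_mul_sum, mul_sum]
        apply sum_congr rfl
        intro t₁ _
        rw [mul_sum]
        apply sum_congr rfl
        intro t₂ _
        ring
    _ ≤ _ := sum_le_sum fun t₁ h₁ => sum_le_sum fun t₂ h₂ => sum_le_sum fun x hx =>
        sum_le_sum fun y hy => h1 t₁ h₁ t₂ h₂ x hx y hy

/-- the sum over the structures is at most a sum over words -/
theorem Setting.sum_word (h : Setting T a b n U W) {S : Finset ℕ} (hS : S ⊆ U)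
    (f : List ℕ → ℝ) (hf : ∀ w, 0 ≤ f w) : ∑ i ∈ idx T U W S, f (wd i) ≤
    ∑ t₁ ∈ T, ∑ t₂ ∈ T, ∑ w ∈ words (range n) (t₁.inn + t₂.inn + 2), f w := by
  rw [sum_idx]
  apply sum_le_sum
  intro t₁ _
  apply sum_le_sum
  intro t₂ _
  rw [sum_words_succ]
  simp only [sum_words_succ, wd]
  calc ∑ x ∈ S, ∑ y ∈ U \ S, ∑ J ∈ nod W (t₁.inn + t₂.inn), f (x :: y :: J)
      ≤ ∑ x ∈ S, ∑ y ∈ U \ S, ∑ J ∈ words (range n) (t₁.inn + t₂.inn), f (x :: y :: J) := by
        apply sum_le_sum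
        intro x _
        apply sum_le_sum
        intro y _
        apply sum_le_sum_of_subset_of_nonneg
        · intro J hJ
          rw [mem_nod] at hJ
          rw [mem_words]
          exact ⟨hJ.1.1, fun v hv => h.hW (hJ.1.2 v hv)⟩
        · intro J _ _
          exact hf _
    _ ≤ ∑ x ∈ S, ∑ y ∈ range n, ∑ J ∈ words (range n) (t₁.inn + t₂.inn), f (x :: y :: J) := by
        apply sum_le_sum
        intro x _
        apply sum_le_sum_of_subset_of_nonneg (sdiff_subset.trans h.hU)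
        intro y _ _
        exact sum_nonneg fun J _ => hf _
    _ ≤ _ := by
        apply sum_le_sum_of_subset_of_nonneg (hS.trans h.hU)
        intro x _ _
        exact sum_nonneg fun y _ => sum_nonneg fun J _ => hf _

/-- the constant in the second moment -/
noncomputable def KK (T : Finset Tr) (c : ℝ) : ℝ :=
  ∑ t₁ ∈ T, ∑ t₂ ∈ T, ∑ t₁' ∈ T, ∑ t₂' ∈ T,
    ∏ j ∈ range (t₁.inn + t₂.inn + 2 + (t₁'.inn + t₂'.inn + 2)), ((j : ℝ) + c)

open Classical in
/-- upper bound for the correlations -/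
theorem Setting.delta (h : Setting T a b n U W) {S : Finset ℕ} (hS : S ⊆ U) (hp : 0 < p)
    (hp1 : p ≤ 1) : (∑ i ∈ idx T U W S, ∑ j ∈ idx T U W S,
      if i ≠ j ∧ ¬ Disjoint (cset a b i) (cset a b j)
        then p ^ (cset a b i ∪ cset a b j).card else 0) ≤ KK T (n * p ^ 2) / p := by
  have h1 : ∀ i ∈ idx T U W S, ∀ j ∈ idx T U W S,
      (if i ≠ j ∧ ¬ Disjoint (cset a b i) (cset a b j)
        then p ^ (cset a b i ∪ cset a b j).card else 0) ≤
      (p ^ 2) ^ (wd i ++ wd j).toFinset.card / p := by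
    intro i hi j hj
    have h0 : 0 ≤ (p ^ 2) ^ (wd i ++ wd j).toFinset.card / p := by positivity
    split_ifs with hc
    · have hA := h.adm' hS hi
      have hB := h.adm' hS hj
      have hne : cset a b i ≠ cset a b j := by
        intro he
        apply hc.1
        have hi' := mem_idx.1 hi
        have hj' := mem_idx.1 hj
        rw [mem_sdiff] at hi' hj'
        have := hA.inj hB (· ∈ U) (· ∈ S) ⟨hS hi'.1.2.2.1, hi'.1.2.2.1⟩ hi'.1.2.2.2
          (fun v hv hU => h.disj v hU ((mem_nod.1 hi'.2).1.2 v hv))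
          ⟨hS hj'.1.2.2.1, hj'.1.2.2.1⟩ hj'.1.2.2.2
          (fun v hv hU => h.disj v hU ((mem_nod.1 hj'.2).1.2 v hv)) he
        obtain ⟨⟨t₁, t₂, x, y⟩, J⟩ := i
        obtain ⟨⟨t₁', t₂', x', y'⟩, J'⟩ := j
        simp only at this
        obtain ⟨rfl, rfl, rfl, rfl, rfl⟩ := this
        rfl
      have hint : (cset a b i ∩ cset a b j).Nonempty := by
        rw [← not_disjoint_iff_nonempty_inter]; exact hc.2
      have h2 := hA.pair hB hne hint
      have h3 : (wd i ++ wd j).toFinset =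
          Adm.vtx i.1.2.2.1 i.1.2.2.2 i.2 ∪ Adm.vtx j.1.2.2.1 j.1.2.2.2 j.2 := by
        rw [List.toFinset_append]; rfl
      rw [← h3] at h2
      rw [le_div_iff₀ hp, ← pow_succ, ← pow_mul]
      exact pow_le_pow_of_le_one hp.le hp1 h2
    · exact h0
  refine (sum_le_sum fun i hi => sum_le_sum fun j hj => h1 i hi j hj).trans ?_
  have h2 : ∑ i ∈ idx T U W S, ∑ j ∈ idx T U W S, (p ^ 2) ^ (wd i ++ wd j).toFinset.card / p =
      (∑ i ∈ idx T U W S, ∑ j ∈ idx T U W S, (p ^ 2) ^ (wd i ++ wd j).toFinset.card) / p := by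
    simp only [sum_div]
  rw [h2]
  apply div_le_div_of_nonneg_right _ hp.le
  have h3 := h.sum_word hS
    (fun w => ∑ j ∈ idx T U W S, (p ^ 2) ^ (w ++ wd j).toFinset.card)
    (fun w => sum_nonneg fun j _ => by positivity)
  refine h3.trans ?_
  unfold KK
  apply sum_le_sum
  intro t₁ _
  apply sum_le_sum
  intro t₂ _
  have h4 : ∀ w ∈ words (range n) (t₁.inn + t₂.inn + 2),
      ∑ j ∈ idx T U W S, (p ^ 2) ^ (w ++ wd j).toFinset.card ≤
      ∑ t₁' ∈ T, ∑ t₂' ∈ T, ∑ w' ∈ words (range n) (t₁'.inn + t₂'.inn + 2),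
        (p ^ 2) ^ (w ++ w').toFinset.card := by
    intro w _
    exact h.sum_word hS (fun w' => (p ^ 2) ^ (w ++ w').toFinset.card)
      (fun w' => by positivity)
  refine (sum_le_sum h4).trans ?_
  rw [sum_comm]
  apply sum_le_sum
  intro t₁' _
  rw [sum_comm]
  apply sum_le_sum
  intro t₂' _
  rw [← sum_words_add (range n) _ _ (fun w => (p ^ 2) ^ w.toFinset.card)]
  have := sum_toFinset (q := p ^ 2) (by positivity) (range n)
    (t₁.inn + t₂.inn + 2 + (t₁'.inn + t₂'.inn + 2))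
  rw [card_range] at this
  exact this

open Classical in
/-- the probability that a cut has no edge -/
theorem Setting.cut (h : Setting T a b n U W) {S : Finset ℕ} (hS : S ⊆ U) (hp : 0 < p)
    (hp1 : p ≤ 1) {z : ℝ} (hz : 0 ≤ z) {L : ℕ} (hL : ∀ t ∈ T, t.inn ≤ L)
    (hzp : z ≤ ((W.card - 2 * L : ℕ) : ℝ) * p ^ 2) :
    ex (powersetCard 3 (range n)) p (nn (cset a b) (idx T U W S)) ≤
      Real.exp (-((S.card : ℝ) * (U \ S).card * p ^ 2 * (∑ t ∈ T, z ^ t.inn) ^ 2) +
        KK T (n * p ^ 2) / p) := by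
  have hsub : ∀ i ∈ idx T U W S, cset a b i ⊆ powersetCard 3 (range n) := by
    intro i hi
    rw [mem_idx, mem_sdiff] at hi
    exact h.comp_sub hi.1.1 hi.1.2.1 (hS hi.1.2.2.1) hi.1.2.2.2.1
      (by rintro h'; exact hi.1.2.2.2.2 (h' ▸ hi.1.2.2.1)) hi.2
  refine (janson hp.le hp1 (cset a b) (idx T U W S) hsub).trans ?_
  apply Real.exp_le_exp.2
  have h1 := h.mu hS hz hL hzp
  have h2 := h.delta hS hp hp1
  linarith

/-- the pair is good: all cuts are crossed, and a face over the pair meets the giant component -/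
def OKp (T : Finset Tr) (a b : ℕ) (U W : Finset ℕ) (F : Finset (Finset ℕ)) : Prop :=
  Cuts U (HH T a b U W F) ∧ ∃ x ∈ giant U (HH T a b U W F), ({a, b, x} : Finset ℕ) ∈ F

/-- the faces over the pair -/
def fab (a b : ℕ) (R : Finset ℕ) : Finset (Finset ℕ) := R.image fun x => {a, b, x}

theorem Setting.card_fab (h : Setting T a b n U W) {R : Finset ℕ} (hR : R ⊆ U) :
    (fab a b R).card = R.card := by
  apply card_image_of_injOn
  intro x hx y hy hxy
  have h1 : x ∈ ({a, b, x} : Finset ℕ) := by simp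
  simp only at hxy
  rw [hxy] at h1
  simp only [mem_insert, mem_singleton] at h1
  rcases h1 with rfl | rfl | rfl
  · exact absurd (hR hx) h.aU
  · exact absurd (hR hx) h.bU
  · rfl

theorem Setting.fab_sub (h : Setting T a b n U W) {R : Finset ℕ} (hR : R ⊆ U) :
    fab a b R ⊆ powersetCard 3 (range n) := by
  intro f hf
  obtain ⟨x, hx, rfl⟩ := mem_image.1 hf
  rw [mem_powersetCard]
  constructor
  · intro v hv
    simp only [mem_insert, mem_singleton] at hv
    rcases hv with rfl | rfl | rfl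
    · exact h.ha
    · exact h.hb
    · exact h.hU (hR hx)
  · rw [card_eq_three]
    refine ⟨a, b, x, h.ab, ?_, ?_, rfl⟩
    · rintro rfl; exact h.aU (hR hx)
    · rintro rfl; exact h.bU (hR hx)

theorem Setting.HH_insert (h : Setting T a b n U W) {e : Finset ℕ} (ha : a ∈ e) (hb : b ∈ e)
    (F : Finset (Finset ℕ)) : HH T a b U W (insert e F) = HH T a b U W F := by
  funext x y
  apply propext
  constructor
  · rintro ⟨hx, hy, hxy, t₁, h₁, t₂, h₂, J, hJ, hs⟩
    refine ⟨hx, hy, hxy, t₁, h₁, t₂, h₂, J, hJ, ?_⟩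
    intro f hf
    have h1 := (h.adm h₁ h₂ hx hy hxy hJ).not_ab hf
    rcases mem_insert.1 (hs hf) with rfl | h2
    · exact absurd ⟨ha, hb⟩ h1
    · exact h2
  · rintro ⟨hx, hy, hxy, t₁, h₁, t₂, h₂, J, hJ, hs⟩
    exact ⟨hx, hy, hxy, t₁, h₁, t₂, h₂, J, hJ, hs.trans (subset_insert _ _)⟩

open Classical in
theorem Setting.fail (h : Setting T a b n U W) (hU : U.Nonempty) (hp : 0 < p)
    (hp1 : p ≤ 1) {z : ℝ} (hz : 0 ≤ z) {L : ℕ} (hL : ∀ t ∈ T, t.inn ≤ L)
    (hzp : z ≤ ((W.card - 2 * L : ℕ) : ℝ) * p ^ 2) :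
    ex (powersetCard 3 (range n)) p (fun F => if OKp T a b U W F then 0 else 1) ≤
      2 ^ U.card * Real.exp (-(3 / 16 * (U.card : ℝ) ^ 2 * p ^ 2 * (∑ t ∈ T, z ^ t.inn) ^ 2) +
        KK T (n * p ^ 2) / p) + Real.exp (-(3 / 4 * p * U.card)) := by
  obtain ⟨B, hB⟩ : ∃ B, B = U.powerset.filter
    (fun S => U.card ≤ 4 * S.card ∧ U.card ≤ 4 * (U \ S).card) := ⟨_, rfl⟩
  obtain ⟨G, hG⟩ : ∃ G, G = U.powerset.filter (fun R => 3 * U.card < 4 * R.card) := ⟨_, rfl⟩
  have hpt : ∀ F ⊆ powersetCard 3 (range n), (if OKp T a b U W F then (0 : ℝ) else 1) ≤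
      ∑ S ∈ B, nn (cset a b) (idx T U W S) F +
      ∑ R ∈ G, (if Disjoint (fab a b R) F then 1 else 0) *
        (if giant U (HH T a b U W F) = R then 1 else 0) := by
    intro F _
    have h1 : 0 ≤ ∑ S ∈ B, nn (cset a b) (idx T U W S) F :=
      sum_nonneg fun S _ => (nn_01 _ _ _).1
    have h2 : ∀ R ∈ G, (0 : ℝ) ≤ (if Disjoint (fab a b R) F then 1 else 0) *
        (if giant U (HH T a b U W F) = R then 1 else 0) := by
      intro R _
      split_ifs <;> norm_num
    have h3 := sum_nonneg h2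
    by_cases hOK : OKp T a b U W F
    · rw [if_pos hOK]; exact add_nonneg h1 h3
    · rw [if_neg hOK]
      by_cases hc : Cuts U (HH T a b U W F)
      · have hg := giant_spec (H := HH T a b U W F) hU
        have hmem : giant U (HH T a b U W F) ∈ G := by
          rw [hG, mem_filter, mem_powerset]
          exact ⟨hg.1.1.1, hg.1.2⟩
        have h4 := single_le_sum h2 hmem
        have h5 : Disjoint (fab a b (giant U (HH T a b U W F))) F := by
          rw [disjoint_left]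
          intro f hf hfF
          obtain ⟨x, hx, rfl⟩ := mem_image.1 hf
          exact hOK ⟨hc, x, hx, hfF⟩
        rw [if_pos h5, if_pos rfl] at h4
        linarith
      · unfold Cuts at hc
        push Not at hc
        obtain ⟨S, hS, hS1, hS2, hno⟩ := hc
        have hmem : S ∈ B := by
          rw [hB, mem_filter, mem_powerset]
          exact ⟨hS, hS1, hS2⟩
        have h4 := single_le_sum (f := fun S => nn (cset a b) (idx T U W S) F)
          (fun S _ => (nn_01 _ _ _).1) hmem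
        have h5 : nn (cset a b) (idx T U W S) F = 1 := by
          unfold nn
          apply prod_eq_one
          intro i hi
          have h6 : ¬ cset a b i ⊆ F := by
            intro hsub
            rw [mem_idx] at hi
            have hy := mem_sdiff.1 hi.1.2.2.2
            exact hno _ hi.1.2.2.1 _ hi.1.2.2.2
              ⟨hS hi.1.2.2.1, hy.1, by rintro h'; exact hy.2 (h' ▸ hi.1.2.2.1), _, hi.1.1, _,
                hi.1.2.1, _, hi.2, hsub⟩
          unfold sb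
          rw [if_neg h6, sub_zero]
        simp only [h5] at h4
        linarith
  refine (ex_mono hp.le hp1 hpt).trans ?_
  rw [ex_add, ex_sum, ex_sum]
  apply add_le_add
  · -- the cuts
    have h1 : ∀ S ∈ B, ex (powersetCard 3 (range n)) p (nn (cset a b) (idx T U W S)) ≤
        Real.exp (-(3 / 16 * (U.card : ℝ) ^ 2 * p ^ 2 * (∑ t ∈ T, z ^ t.inn) ^ 2) +
        KK T (n * p ^ 2) / p) := by
      intro S hS
      rw [hB, mem_filter, mem_powerset] at hS
      refine (h.cut hS.1 hp hp1 hz hL hzp).trans ?_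
      apply Real.exp_le_exp.2
      have h2 : 3 / 16 * (U.card : ℝ) ^ 2 ≤ (S.card : ℝ) * (U \ S).card := by
        have h3 := card_sdiff_add_card_eq_card hS.1
        have h4 : ((U \ S).card : ℝ) + S.card = U.card := by exact_mod_cast h3
        have h5 : (U.card : ℝ) ≤ 4 * S.card := by exact_mod_cast hS.2.1
        have h6 : (U.card : ℝ) ≤ 4 * (U \ S).card := by exact_mod_cast hS.2.2
        nlinarith
      have h3 : 3 / 16 * (U.card : ℝ) ^ 2 * (p ^ 2 * (∑ t ∈ T, z ^ t.inn) ^ 2) ≤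
          (S.card : ℝ) * (U \ S).card * (p ^ 2 * (∑ t ∈ T, z ^ t.inn) ^ 2) :=
        mul_le_mul_of_nonneg_right h2 (by positivity)
      linarith
    refine (sum_le_sum h1).trans ?_
    rw [sum_const, nsmul_eq_mul]
    apply mul_le_mul_of_nonneg_right _ (Real.exp_pos _).le
    have h2 : B.card ≤ 2 ^ U.card := by
      rw [hB, ← card_powerset]; exact card_filter_le _ _
    exact_mod_cast h2
  · -- the faces over the pair
    have h1 : ∀ R ∈ G, ex (powersetCard 3 (range n)) p (fun F =>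
        (if Disjoint (fab a b R) F then 1 else 0) *
        (if giant U (HH T a b U W F) = R then 1 else 0)) ≤
        Real.exp (-(3 / 4 * p * U.card)) * ex (powersetCard 3 (range n)) p (fun F =>
          if giant U (HH T a b U W F) = R then 1 else 0) := by
      intro R hR
      rw [hG, mem_filter, mem_powerset] at hR
      rw [ex_avoid (fab a b R) (h.fab_sub hR.1)
        (g := fun F => if giant U (HH T a b U W F) = R then 1 else 0) ?_, h.card_fab hR.1]
      · apply mul_le_mul_of_nonneg_right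
        · have h2 : 1 - p ≤ Real.exp (-p) := by
            have := Real.add_one_le_exp (-p); linarith
          have h3 : (1 - p) ^ R.card ≤ Real.exp (-p) ^ R.card :=
            pow_le_pow_left₀ (by linarith) h2 _
          refine h3.trans ?_
          rw [← Real.exp_nat_mul]
          apply Real.exp_le_exp.2
          have h4 : 3 * (U.card : ℝ) ≤ 4 * R.card := by exact_mod_cast hR.2.le
          nlinarith
        · apply ex_nonneg hp.le hp1
          intro F _
          split_ifs <;> norm_num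
      · intro e he F
        obtain ⟨x, hx, rfl⟩ := mem_image.1 he
        rw [h.HH_insert (by simp) (by simp)]
    refine (sum_le_sum h1).trans ?_
    rw [← mul_sum, ← ex_sum]
    have h2 : ex (powersetCard 3 (range n)) p (fun F => ∑ R ∈ G,
        if giant U (HH T a b U W F) = R then (1 : ℝ) else 0) ≤ 1 := by
      calc _ ≤ ex (powersetCard 3 (range n)) p (fun _ => 1) := by
            apply ex_mono hp.le hp1
            intro F _
            rw [sum_ite_eq]
            split_ifs <;> norm_num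
        _ = 1 := ex_const 1
    calc _ ≤ Real.exp (-(3 / 4 * p * U.card)) * 1 := by gcongr
      _ = _ := mul_one _

end Pool.Agent.H694
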