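import Pool.Agent.H694.Topo
import Pool.Agent.H694.Model

/-!
# Soundness of the closure
-/

namespace Pool.Agent.H694

open Finset

variable {S : Set (Finset ℕ)} {V : Set ℕ} {v₀ : ℕ}

/-- product along a path of vertices -/
noncomputable def Full.pp (h : Full S V v₀) : (a : ℕ) → List ℕ → (b : ℕ) →
    Path.Homotopic.Quotient (h.pt a) (h.pt b)
  | a, [], b => h.L a b
  | a, c :: m, b => (h.L a c).trans (h.pp c m b)

theorem Full.pp_append (h : Full S V v₀) (c b : ℕ) (m' : List ℕ) : ∀ (m : List ℕ) (a : ℕ),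
    h.pp a (m ++ c :: m') b = (h.pp a m c).trans (h.pp c m' b)
  | [], a => rfl
  | d :: m, a => by
    simp only [List.cons_append, Full.pp]
    rw [h.pp_append c b m' m d, Path.Homotopic.Quotient.trans_assoc]

/-- the relation of a triangle -/
def Full.R3 (h : Full S V v₀) (x y z : ℕ) : Prop := (h.L x y).trans (h.L y z) = h.L x z

theorem Full.R3_swap12 (h : Full S V v₀) {x y z : ℕ} (hr : h.R3 x y z) : h.R3 y x z := by
  unfold Full.R3 at *
  rw [← hr, ← Path.Homotopic.Quotient.trans_assoc, h.L_symm, Path.Homotopic.Quotient.refl_trans]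

theorem Full.R3_swap23 (h : Full S V v₀) {x y z : ℕ} (hr : h.R3 x y z) : h.R3 x z y := by
  unfold Full.R3 at *
  rw [← hr, Path.Homotopic.Quotient.trans_assoc, h.L_symm, Path.Homotopic.Quotient.trans_refl]

theorem Full.cancel (h : Full S V v₀) {a b w : ℕ} {x y : Path.Homotopic.Quotient (h.pt a) (h.pt b)}
    (hxy : x.trans (h.L b w) = y.trans (h.L b w)) : x = y := by
  have h1 := congrArg (fun q => q.trans (h.L w b)) hxy
  simp only [Path.Homotopic.Quotient.trans_assoc, h.L_symm,
    Path.Homotopic.Quotient.trans_refl] at h1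
  exact h1

theorem Full.disk (h : Full S V v₀) : ∀ {t : Tr} {a b : ℕ} {m J : List ℕ}, t.ok →
    m.length = t.md → J.length = t.inn →
    (∀ f ∈ tri t a m b J, h.R3 f.1 f.2.1 f.2.2) → h.pp a m b = h.L a b
  | Tr.edge, a, b, m, J, _, hm, hJ, _ => by
    have h1 : m = [] := List.length_eq_zero_iff.1 hm
    subst h1
    rfl
  | Tr.split l r, a, b, m, J, hok, hm, hJ, hf => by
    have hm' : m.length = l.md + 1 + r.md := hm
    have hJ' : J.length = l.inn + r.inn := hJ
    have e1 : m = m.take l.md ++ m.getD l.md 0 :: m.drop (l.md + 1) := by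
      rw [List.getD_eq_getElem _ _ (by omega), List.getElem_cons_drop, List.take_append_drop]
    simp only [tri, List.mem_cons, List.mem_append, forall_eq_or_imp] at hf
    have h1 := h.disk (a := a) (b := m.getD l.md 0) (m := m.take l.md) (J := J.take l.inn) hok.1
      (by rw [List.length_take]; omega) (by rw [List.length_take]; omega)
      (fun f hf' => hf.2 f (Or.inl hf'))
    have h2 := h.disk (a := m.getD l.md 0) (b := b) (m := m.drop (l.md + 1))
      (J := J.drop l.inn) hok.2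
      (by rw [List.length_drop]; omega) (by rw [List.length_drop]; omega)
      (fun f hf' => hf.2 f (Or.inr hf'))
    rw [e1, h.pp_append, h1, h2]
    exact hf.1
  | Tr.inner s, a, b, m, J, hok, hm, hJ, hf => by
    have hm' : m.length = s.md - 1 := hm
    have hJ' : J.length = s.inn + 1 := hJ
    have h2 := hok.2.1
    simp only [tri, List.mem_cons, forall_eq_or_imp] at hf
    have h1 := h.disk (a := a) (b := J.headD 0) (m := m ++ [b]) (J := J.tail) hok.1
      (by simp; omega) (by simp; omega) hf.2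
    rw [h.pp_append] at h1
    have h3 : (h.pp a m b).trans (h.L b (J.headD 0)) = (h.L a b).trans (h.L b (J.headD 0)) :=
      h1.trans hf.1.symm
    exact h.cancel h3

theorem Full.fil (h : Full S V v₀) {T : Finset Tr} {W : Finset ℕ} {F : Finset (Finset ℕ)}
    (hT : ∀ t ∈ T, t.ok ∧ t.md = 1) (hF : ∀ f ∈ F, f ∈ S) {x y z : ℕ}
    (hfil : fil T W F x y z) : h.R3 x y z := by
  obtain ⟨t, ht, J, hJ, hf⟩ := hfil
  refine h.disk (t := t) (a := x) (b := z) (m := [y]) (J := J) (hT t ht).1
    (by rw [(hT t ht).2]; rfl) (mem_words.1 hJ).1 ?_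
  intro f hf'
  have h1 := hF _ (hf f hf')
  exact h.face h1 (by simp [fs]) (by simp [fs]) (by simp [fs])

theorem Full.base (h : Full S V v₀) {T : Finset Tr} {W : Finset ℕ} {F : Finset (Finset ℕ)}
    (hT : ∀ t ∈ T, t.ok ∧ t.md = 1) (hF : ∀ f ∈ F, f ∈ S) {x y z : ℕ}
    (hb : Pool.Agent.H694.base T W F x y z) : h.R3 x y z := by
  rcases hb with hb | hb | hb | hb | hb | hb
  · exact h.fil hT hF hb
  · exact h.R3_swap12 (h.R3_swap23 (h.fil hT hF hb))
  · exact h.R3_swap23 (h.R3_swap12 (h.fil hT hF hb))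
  · exact h.R3_swap12 (h.fil hT hF hb)
  · exact h.R3_swap23 (h.fil hT hF hb)
  · exact h.R3_swap12 (h.R3_swap23 (h.R3_swap12 (h.fil hT hF hb)))

theorem Full.cl (h : Full S V v₀) {T : Finset Tr} {W : Finset ℕ} {F : Finset (Finset ℕ)}
    (hT : ∀ t ∈ T, t.ok ∧ t.md = 1) (hF : ∀ f ∈ F, f ∈ S) : ∀ {k x y z : ℕ},
    Pool.Agent.H694.cl T W F k x y z → h.R3 x y z
  | 0, x, y, z, hc => h.base hT hF hc
  | k + 1, x, y, z, hc => by
    rcases hc with hc | ⟨w, -, h1, h2, h3⟩
    · exact h.cl hT hF hc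
    · have e1 := h.cl hT hF h1
      have e2 := h.cl hT hF h2
      have e3 := h.cl hT hF h3
      unfold Full.R3 at *
      apply h.cancel (w := w)
      rw [Path.Homotopic.Quotient.trans_assoc, e2, e1, e3]

/-- **Soundness.** -/
theorem Full.sound (h : Full S V v₀) {T : Finset Tr} {W : Finset ℕ} {F : Finset (Finset ℕ)}
    (hT : ∀ t ∈ T, t.ok ∧ t.md = 1) (hF : ∀ f ∈ F, f ∈ S)
    (hcl : ∀ x ∈ V, ∀ y ∈ V, v₀ ≠ x → x ≠ y → v₀ ≠ y →
      ∃ k, Pool.Agent.H694.cl T W F k v₀ x y) : SimplyConnectedSpace (Rl S) := by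
  apply h.simplyConnected
  intro x hx y hy
  by_cases h1 : v₀ = x
  · subst h1
    rw [h.L_self, Path.Homotopic.Quotient.refl_trans]
  · by_cases h2 : x = y
    · subst h2
      rw [h.L_self, Path.Homotopic.Quotient.trans_refl]
    · by_cases h3 : v₀ = y
      · subst h3
        rw [h.L_symm, h.L_self]
      · obtain ⟨k, hk⟩ := hcl x hx y hy h1 h2 h3
        exact h.cl hT hF hk

end Pool.Agent.H694
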