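import Pool.Agent.H694.Disk

namespace Pool.Agent.H694

open Tr

/-- the part of a list in `X` -/
def fl (X : Finset ℕ) (l : List ℕ) : List ℕ := l.filter (fun x => decide (x ∈ X))

/-- the number of faces in `X` -/
def fc (X : Finset ℕ) (H : List (Finset ℕ)) : ℕ := H.countP (fun f => decide (f ⊆ X))

/-- `u`, `v` are in a common face inside `X` -/
def Rel (X : Finset ℕ) (H : List (Finset ℕ)) (u v : ℕ) : Prop := ∃ g ∈ H, g ⊆ X ∧ u ∈ g ∧ v ∈ g

/-- cyclically consecutive vertices are in a common face -/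
def Cyc (X : Finset ℕ) (H : List (Finset ℕ)) (L : List ℕ) : Prop :=
  L.IsChain (Rel X H) ∧ ∀ u v, L.getLast? = some u → L.head? = some v → Rel X H u v

theorem Rel.mono {X : Finset ℕ} {H H' : List (Finset ℕ)} (h : ∀ g ∈ H, g ∈ H') {u v : ℕ}
    (hr : Rel X H u v) : Rel X H' u v := by
  obtain ⟨g, hg, h1⟩ := hr
  exact ⟨g, h g hg, h1⟩

theorem Cyc.mono {X : Finset ℕ} {H H' : List (Finset ℕ)} (h : ∀ g ∈ H, g ∈ H') {L : List ℕ}
    (hr : Cyc X H L) : Cyc X H' L :=
  ⟨hr.1.imp fun _ _ => Rel.mono h, fun u v h1 h2 => (hr.2 u v h1 h2).mono h⟩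

@[simp] theorem fl_nil (_X : Finset ℕ) : fl _X [] = [] := rfl
@[simp] theorem fl_append (X : Finset ℕ) (l l' : List ℕ) : fl X (l ++ l') = fl X l ++ fl X l' := by
  simp [fl]
theorem fl_cons (X : Finset ℕ) (x : ℕ) (l : List ℕ) :
    fl X (x :: l) = fl X [x] ++ fl X l := by
  rw [show x :: l = [x] ++ l from rfl, fl_append]
theorem fl_mem {X : Finset ℕ} {x : ℕ} (h : x ∈ X) : fl X [x] = [x] := by simp [fl, h]
theorem fl_notMem {X : Finset ℕ} {x : ℕ} (h : x ∉ X) : fl X [x] = [] := by simp [fl, h]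
theorem fl_all {X : Finset ℕ} {l : List ℕ} (h : ∀ x ∈ l, x ∈ X) : fl X l = l := by
  simpa [fl, List.filter_eq_self] using h

/-- The sparsity statement for all kinds of vertex sets. -/
def Sp (_X : Finset ℕ) (p i f : ℕ) : Prop :=
  (3 ≤ p → f + 2 ≤ 2 * i + p) ∧ (p = 2 → f = 0 ∨ f + 1 ≤ 2 * i) ∧
    (p = 1 → f = 0 ∨ f + 3 ≤ 2 * i) ∧ (p = 0 → f = 0 ∨ f + 5 ≤ 2 * i)

variable {t : Tr} {a b : ℕ} {m J : List ℕ} {H : List (Finset ℕ)}

theorem Dk.md_zero (h : Dk t a m b J H) (hok : t.ok) (hm : m = []) : J = [] := by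
  cases h with
  | edge => rfl
  | split => simp at hm
  | inner h =>
    have := h.length
    have h2 := hok.2.1
    subst hm
    simp at this
    omega

theorem mem_left {x a b c : ℕ} {m₁ m₂ : List ℕ} (h : x ∈ a :: (m₁ ++ [c])) :
    x ∈ a :: (m₁ ++ c :: m₂ ++ [b]) := by
  simp at h ⊢; tauto

theorem mem_right {x a b c : ℕ} {m₁ m₂ : List ℕ} (h : x ∈ c :: (m₂ ++ [b])) :
    x ∈ a :: (m₁ ++ c :: m₂ ++ [b]) := by
  simp at h ⊢; tauto

theorem Sp.ge2 {X : Finset ℕ} {p i f : ℕ} (h : Sp X p i f) (hp : 2 ≤ p) : f + 2 ≤ 2 * i + p := by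
  unfold Sp at h; omega

theorem ar_root {X : Finset ℕ} {α β i₁ f₁ i₂ f₂ : ℕ} (hα : 1 ≤ α) (hβ : 1 ≤ β)
    (s₁ : Sp X (α + 1) i₁ f₁) (s₂ : Sp X (β + 1) i₂ f₂) :
    Sp X (α + 1 + β) (i₁ + i₂) (f₁ + f₂ + 1) ∧
      (f₁ + f₂ + 1 + 2 = 2 * (i₁ + i₂) + (α + 1 + β) →
        f₁ + 2 = 2 * i₁ + (α + 1) ∧ f₂ + 2 = 2 * i₂ + (β + 1)) := by
  have h1 := s₁.ge2 (by omega)
  have h2 := s₂.ge2 (by omega)
  clear s₁ s₂
  unfold Sp
  refine ⟨⟨?_, ?_, ?_, ?_⟩, ?_⟩ <;> omega

theorem ar_nroot {X : Finset ℕ} {α β i₁ f₁ i₂ f₂ : ℕ}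
    (s₁ : Sp X (α + 1) i₁ f₁) (s₂ : Sp X (β + 1) i₂ f₂) :
    Sp X (α + 1 + β) (i₁ + i₂) (f₁ + f₂) ∧
      (3 ≤ α + 1 + β → f₁ + f₂ + 2 = 2 * (i₁ + i₂) + (α + 1 + β) →
        (α = 0 ∧ f₂ + 2 = 2 * i₂ + (β + 1)) ∨ (β = 0 ∧ f₁ + 2 = 2 * i₁ + (α + 1))) := by
  unfold Sp at *
  refine ⟨⟨?_, ?_, ?_, ?_⟩, ?_⟩ <;> omega

theorem ar_out {X : Finset ℕ} {α β i₁ f₁ i₂ f₂ : ℕ}
    (s₁ : Sp X α i₁ f₁) (s₂ : Sp X β i₂ f₂) :
    Sp X (α + β) (i₁ + i₂) (f₁ + f₂) ∧
      (3 ≤ α + β → f₁ + f₂ + 2 = 2 * (i₁ + i₂) + (α + β) →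
        (α = 0 ∧ f₂ + 2 = 2 * i₂ + β) ∨ (β = 0 ∧ f₁ + 2 = 2 * i₁ + α)) := by
  unfold Sp at *
  refine ⟨⟨?_, ?_, ?_, ?_⟩, ?_⟩ <;> omega

theorem ar_in_root {X : Finset ℕ} {p i f : ℕ} (s : Sp X (p + 1) i f) (hp : 2 ≤ p)
    (h2 : p = 2 → ¬ (f + 2 = 2 * i + (p + 1))) :
    Sp X p (1 + i) (f + 1) ∧ (3 ≤ p → f + 1 + 2 = 2 * (1 + i) + p → f + 2 = 2 * i + (p + 1)) := by
  have h1 := s.ge2 (by omega)
  clear s
  unfold Sp
  refine ⟨⟨?_, ?_, ?_, ?_⟩, ?_⟩ <;> omega

theorem ar_in_nroot {X : Finset ℕ} {p i f : ℕ} (s : Sp X (p + 1) i f) :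
    Sp X p (1 + i) f ∧ (3 ≤ p → ¬ (f + 2 = 2 * (1 + i) + p)) := by
  unfold Sp at *
  refine ⟨⟨?_, ?_, ?_, ?_⟩, ?_⟩ <;> omega

theorem chain_cons {α : Type} {R : α → α → Prop} {a c : α} {l : List α} (h : R a c)
    (h' : 3 ≤ (a :: l).length + 1 → List.IsChain R (a :: l ++ [c])) :
    List.IsChain R (a :: l ++ [c]) := by
  by_cases hl : l = []
  · subst hl
    simpa using h
  · refine h' ?_
    have := List.length_pos_iff.2 hl
    simp only [List.length_cons]
    omega

theorem chain_snoc {α : Type} {R : α → α → Prop} {b c : α} {l : List α} (h : R c b)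
    (h' : 3 ≤ (l ++ [b]).length + 1 → List.IsChain R (c :: (l ++ [b]))) :
    List.IsChain R (c :: (l ++ [b])) := by
  by_cases hl : l = []
  · subst hl
    simpa using h
  · refine h' ?_
    have := List.length_pos_iff.2 hl
    simp only [List.length_append, List.length_cons, List.length_nil]
    omega

theorem Dk.sparse (X : Finset ℕ) (h : Dk t a m b J H) (hok : t.ok) (hn : (vs a m b J).Nodup) :
    Sp X (fl X (a :: (m ++ [b]))).length (fl X J).length (fc X H) ∧
    (3 ≤ (fl X (a :: (m ++ [b]))).length →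
      fc X H + 2 = 2 * (fl X J).length + (fl X (a :: (m ++ [b]))).length →
      Cyc X H (fl X (a :: (m ++ [b])))) ∧
    ((∀ x ∈ a :: (m ++ [b]), x ∈ X) → m ≠ [] → ¬ (∀ x ∈ J, x ∈ X) →
      fc X H + 3 ≤ 2 * (fl X J).length + (fl X (a :: (m ++ [b]))).length) := by
  induction h with
  | edge a b =>
    have h1 : (fl X (a :: ([] ++ [b]))).length ≤ 2 := (List.length_filter_le _ _)
    refine ⟨⟨fun h => by omega, fun _ => Or.inl rfl, fun _ => Or.inl rfl, fun _ => Or.inl rfl⟩,
      fun h => by omega, fun _ h => absurd rfl h⟩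
  | @split l r a b c m₁ m₂ J₁ J₂ H₁ H₂ h₁ h₂ ih₁ ih₂ =>
    obtain ⟨s1, c1, e1⟩ := ih₁ hok.1 (nodup_left hn)
    obtain ⟨s2, c2, e2⟩ := ih₂ hok.2 (nodup_right hn)
    clear ih₁ ih₂
    have hfc : fc X ({a, c, b} :: (H₁ ++ H₂)) =
        fc X H₁ + fc X H₂ + if ({a, c, b} : Finset ℕ) ⊆ X then 1 else 0 := by
      simp [fc, List.countP_cons, List.countP_append]
    have hJ : (fl X (J₁ ++ J₂)).length = (fl X J₁).length + (fl X J₂).length := by simp
    obtain ⟨A, hA⟩ : ∃ A, A = fl X (a :: m₁) := ⟨_, rfl⟩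
    obtain ⟨B, hB⟩ : ∃ B, B = fl X (m₂ ++ [b]) := ⟨_, rfl⟩
    have hL : fl X (a :: (m₁ ++ c :: m₂ ++ [b])) = A ++ fl X [c] ++ B := by
      rw [hA, hB, show a :: (m₁ ++ c :: m₂ ++ [b]) = (a :: m₁) ++ [c] ++ (m₂ ++ [b]) by simp,
        fl_append, fl_append]
    have hL1 : fl X (a :: (m₁ ++ [c])) = A ++ fl X [c] := by
      rw [hA, show a :: (m₁ ++ [c]) = (a :: m₁) ++ [c] by simp, fl_append]
    have hL2 : fl X (c :: (m₂ ++ [b])) = fl X [c] ++ B := by
      rw [hB, fl_cons]
    rw [hL, hJ, hfc]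
    rw [hL1] at s1 c1 e1
    rw [hL2] at s2 c2 e2
    have sub1 : ∀ g ∈ H₁, g ∈ ({a, c, b} : Finset ℕ) :: (H₁ ++ H₂) := by intro g hg; simp [hg]
    have sub2 : ∀ g ∈ H₂, g ∈ ({a, c, b} : Finset ℕ) :: (H₁ ++ H₂) := by intro g hg; simp [hg]
    by_cases hc : c ∈ X
    · rw [fl_mem hc] at s1 c1 e1 s2 c2 e2 ⊢
      have len1 : (A ++ [c]).length = A.length + 1 := by simp
      have len2 : ([c] ++ B).length = B.length + 1 := by simp
      have len3 : (A ++ [c] ++ B).length = A.length + 1 + B.length := by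
        rw [List.length_append, len1]
      rw [len1] at s1 c1 e1
      rw [len2] at s2 c2 e2
      rw [len3]
      by_cases hr : a ∈ X ∧ b ∈ X
      · have hroot : ({a, c, b} : Finset ℕ) ⊆ X := by
          intro x hx; simp at hx; rcases hx with rfl | rfl | rfl
          · exact hr.1
          · exact hc
          · exact hr.2
        rw [if_pos hroot]
        have hA' : A = a :: fl X m₁ := by rw [hA, fl_cons, fl_mem hr.1]; rfl
        have hB' : B = fl X m₂ ++ [b] := by rw [hB, fl_append, fl_mem hr.2]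
        have hAl : 1 ≤ A.length := by rw [hA']; simp
        have hBl : 1 ≤ B.length := by rw [hB']; simp
        have rr : ∀ u v, u ∈ ({a, c, b} : Finset ℕ) → v ∈ ({a, c, b} : Finset ℕ) →
            Rel X (({a, c, b} : Finset ℕ) :: (H₁ ++ H₂)) u v := fun u v hu hv =>
          ⟨{a, c, b}, by simp, hroot, hu, hv⟩
        have har := ar_root hAl hBl s1 s2
        refine ⟨har.1, fun h3 heq => ⟨?_, ?_⟩, fun hall hm hJX => ?_⟩
        · have heq' := har.2 heq
          rw [List.append_assoc, List.singleton_append, List.isChain_split]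
          constructor
          · rw [hA'] at c1 heq' ⊢
            exact chain_cons (rr a c (by simp) (by simp)) fun h4 =>
              ((c1 h4 heq'.1).mono sub1).1
          · rw [hB'] at c2 heq' ⊢
            exact chain_snoc (rr c b (by simp) (by simp)) fun h4 =>
              ((c2 h4 heq'.2).mono sub2).1
        · intro u v hu hv
          rw [hA'] at hv
          rw [hB', ← List.append_assoc, List.getLast?_append] at hu
          simp at hu hv
          subst hu hv
          exact rr _ _ (by simp) (by simp)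
        · have hpol1 : ∀ x ∈ a :: (m₁ ++ [c]), x ∈ X := fun x hx => hall x (mem_left hx)
          have hpol2 : ∀ x ∈ c :: (m₂ ++ [b]), x ∈ X := fun x hx => hall x (mem_right hx)
          have h5 : (¬ ∀ x ∈ J₁, x ∈ X) ∨ (¬ ∀ x ∈ J₂, x ∈ X) := by
            by_contra hcon
            push Not at hcon
            apply hJX
            intro x hx
            rcases List.mem_append.1 hx with hx | hx
            · exact hcon.1 x hx
            · exact hcon.2 x hx
          have g1 := s1.ge2 (Nat.succ_le_succ hAl)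
          have g2 := s2.ge2 (Nat.succ_le_succ hBl)
          rcases h5 with h5 | h5
          · have hm1 : m₁ ≠ [] := by
              intro h0
              apply h5
              rw [h₁.md_zero hok.1 h0]
              simp
            have g3 := e1 hpol1 hm1 h5
            clear s1 c1 e1 s2 c2 e2 har
            omega
          · have hm2 : m₂ ≠ [] := by
              intro h0
              apply h5
              rw [h₂.md_zero hok.2 h0]
              simp
            have g3 := e2 hpol2 hm2 h5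
            clear s1 c1 e1 s2 c2 e2 har
            omega
      · have hroot : ¬ ({a, c, b} : Finset ℕ) ⊆ X := by
          intro h; exact hr ⟨h (by simp), h (by simp)⟩
        rw [if_neg hroot]
        have har := ar_nroot s1 s2
        refine ⟨har.1, fun h3 heq => ?_, fun hall hm hJX => ?_⟩
        · rcases har.2 h3 heq with ⟨hz, h4⟩ | ⟨hz, h4⟩
          · have hA0 : A = [] := List.length_eq_zero_iff.1 hz
            rw [hA0] at h3 ⊢
            exact (c2 (by simpa [add_comm] using h3) h4).mono sub2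
          · have hB0 : B = [] := List.length_eq_zero_iff.1 hz
            rw [hB0] at h3 ⊢
            rw [List.append_nil]
            exact (c1 (by simpa using h3) h4).mono sub1
        · exact absurd ⟨hall a (by simp), hall b (by simp)⟩ hr
    · rw [fl_notMem hc] at s1 c1 e1 s2 c2 e2 ⊢
      rw [List.append_nil] at s1 c1 e1 ⊢
      rw [List.nil_append] at s2 c2 e2
      rw [List.length_append]
      have hroot : ¬ ({a, c, b} : Finset ℕ) ⊆ X := fun h => hc (h (by simp))
      rw [if_neg hroot]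
      have har := ar_out s1 s2
      refine ⟨har.1, fun h3 heq => ?_, fun hall hm hJX => ?_⟩
      · rcases har.2 h3 heq with ⟨hz, h4⟩ | ⟨hz, h4⟩
        · have hA0 : A = [] := List.length_eq_zero_iff.1 hz
          rw [hA0] at h3 ⊢
          exact (c2 (by simpa using h3) h4).mono sub2
        · have hB0 : B = [] := List.length_eq_zero_iff.1 hz
          rw [hB0] at h3 ⊢
          rw [List.append_nil]
          exact (c1 (by simpa using h3) h4).mono sub1
      · exact absurd (hall c (by simp)) hc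
  | @inner s a b w m J H h ih =>
    obtain ⟨s1, c1, e1⟩ := ih hok.1 (nodup_inner hn)
    clear ih
    have hri := h.root_inner hok hn
    have hfc : fc X ({a, b, w} :: H) =
        fc X H + if ({a, b, w} : Finset ℕ) ⊆ X then 1 else 0 := by
      simp [fc, List.countP_cons]
    have hL : fl X (a :: (m ++ [b] ++ [w])) = fl X (a :: (m ++ [b])) ++ fl X [w] := by
      rw [show a :: (m ++ [b] ++ [w]) = (a :: (m ++ [b])) ++ [w] by simp, fl_append]
    have hJ : fl X (w :: J) = fl X [w] ++ fl X J := fl_cons X w J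
    rw [hL] at s1 c1 e1
    rw [hfc, hJ]
    have sub1 : ∀ g ∈ H, g ∈ ({a, b, w} : Finset ℕ) :: H := by intro g hg; simp [hg]
    have hm : m ≠ [] := by
      rintro rfl
      have := h.length
      have h2 := hok.2.1
      simp at this
      omega
    obtain ⟨L, hLL⟩ : ∃ L, L = fl X (a :: (m ++ [b])) := ⟨_, rfl⟩
    rw [← hLL] at s1 c1 e1 ⊢
    by_cases hw : w ∈ X
    · rw [fl_mem hw] at s1 c1 e1 ⊢
      have len1 : (L ++ [w]).length = L.length + 1 := by simp
      have len2 : ([w] ++ fl X J).length = 1 + (fl X J).length := by simp [add_comm]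
      rw [len1] at s1 c1 e1
      rw [len2]
      by_cases hr : a ∈ X ∧ b ∈ X
      · have hroot : ({a, b, w} : Finset ℕ) ⊆ X := by
          intro x hx; simp at hx; rcases hx with rfl | rfl | rfl
          · exact hr.1
          · exact hr.2
          · exact hw
        rw [if_pos hroot]
        have hL' : L = a :: (fl X m ++ [b]) := by
          rw [hLL, fl_cons, fl_mem hr.1, fl_append, fl_mem hr.2]; rfl
        have hLl : 2 ≤ L.length := by rw [hL']; simp
        have h3key : L.length = 2 → ¬ (fc X H + 2 = 2 * (fl X J).length + (L.length + 1)) := by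
          intro h2 heq
          have hLab : L = [a, b] := by
            rw [hL'] at h2 ⊢
            simp only [List.length_cons, List.length_append, List.length_nil] at h2
            rw [List.length_eq_zero_iff.1 (show (fl X m).length = 0 by clear s1 c1 e1; omega)]
            rfl
          have h6 := (c1 (by rw [h2]) heq).1
          rw [hLab] at h6
          have h4 : Rel X H a b := by
            simp at h6
            exact h6.1
          obtain ⟨g, hg, -, h5⟩ := h4
          exact hri g hg h5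
        have har := ar_in_root s1 hLl h3key
        refine ⟨har.1, fun h3 heq => ⟨?_, ?_⟩, fun hall hm' hJX => ?_⟩
        · have := ((c1 (Nat.le_succ_of_le h3) (har.2 h3 heq)).mono sub1).1
          exact (List.isChain_append.1 this).1
        · intro u v hu hv
          rw [hL'] at hu hv
          rw [show a :: (fl X m ++ [b]) = (a :: fl X m) ++ [b] by simp] at hu
          rw [List.getLast?_append] at hu
          simp at hu hv
          subst hu hv
          exact ⟨_, List.mem_cons_self, hroot, by simp, by simp⟩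
        · have hJX' : ¬ ∀ x ∈ J, x ∈ X := by
            intro h; apply hJX; intro x hx
            rcases List.mem_cons.1 hx with rfl | hx
            · exact hw
            · exact h x hx
          have g1 := e1 (fun x hx => by
            simp only [List.mem_cons, List.mem_append, List.not_mem_nil, or_false] at hx
            rcases hx with rfl | (hx | rfl) | rfl
            · exact hr.1
            · exact hall x (by simp [hx])
            · exact hr.2
            · exact hw) (by simp) hJX'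
          clear s1 c1 e1 har h3key
          omega
      · have hroot : ¬ ({a, b, w} : Finset ℕ) ⊆ X := by
          intro h; exact hr ⟨h (by simp), h (by simp)⟩
        rw [if_neg hroot]
        have har := ar_in_nroot s1
        refine ⟨har.1, fun h3 heq => absurd heq (har.2 h3), fun hall hm hJX => ?_⟩
        exact absurd ⟨hall a (by simp), hall b (by simp)⟩ hr
    · rw [fl_notMem hw] at s1 c1 e1 ⊢
      rw [List.append_nil] at s1 c1 e1
      rw [List.nil_append]
      have hroot : ¬ ({a, b, w} : Finset ℕ) ⊆ X := fun h => hw (h (by simp))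
      rw [if_neg hroot]
      refine ⟨s1, fun h3 heq => (c1 h3 heq).mono sub1, fun hall hm hJX => ?_⟩
      have hL' : L = a :: (m ++ [b]) := by rw [hLL]; exact fl_all hall
      have hLl : 3 ≤ L.length := by
        rw [hL']
        have := List.length_pos_iff.2 hm
        simp only [List.length_cons, List.length_append, List.length_nil]
        clear s1 c1 e1
        omega
      by_contra hcon
      have g1 := s1.ge2 (le_trans (by norm_num) hLl)
      have hcy := (c1 hLl (by clear s1 c1 e1; omega)).2 b a (by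
        rw [hL', show a :: (m ++ [b]) = (a :: m) ++ [b] by simp, List.getLast?_append]
        simp) (by rw [hL']; rfl)
      obtain ⟨g, hg, -, h5⟩ := hcy
      exact hri g hg ⟨h5.2, h5.1⟩

end Pool.Agent.H694
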