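import Mathlib

/-!
# Simple connectivity of a realization from the triangle relations
-/

namespace Pool.Agent.H694

set_option linter.unusedSectionVars false


section General

variable {E : Type*} [AddCommGroup E] [Module ℝ E] [TopologicalSpace E] [ContinuousAdd E]
  [ContinuousSMul ℝ E] {X : Set E}

/-- two paths in a star convex subset are homotopic -/
theorem homotopic_of_star {C : Set E} {c : E} (hC : StarConvex ℝ c C) (hCX : C ⊆ X) {p q : X}
    (γ₁ γ₂ : Path p q) (h₁ : ∀ t, (γ₁ t : E) ∈ C) (h₂ : ∀ t, (γ₂ t : E) ∈ C) :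
    γ₁.Homotopic γ₂ := by
  have hne : C.Nonempty := ⟨_, h₁ 0⟩
  have := hC.contractibleSpace hne
  let f : C(C, X) := ⟨Set.inclusion hCX, continuous_inclusion hCX⟩
  have hp : (p : E) ∈ C := by simpa using h₁ 0
  have hq : (q : E) ∈ C := by simpa using h₁ 1
  let g₁ : Path (⟨p, hp⟩ : C) ⟨q, hq⟩ :=
    { toFun := fun t => ⟨γ₁ t, h₁ t⟩
      continuous_toFun := by fun_prop
      source' := by simp
      target' := by simp }
  let g₂ : Path (⟨p, hp⟩ : C) ⟨q, hq⟩ :=
    { toFun := fun t => ⟨γ₂ t, h₂ t⟩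
      continuous_toFun := by fun_prop
      source' := by simp
      target' := by simp }
  have h := (SimplyConnectedSpace.paths_homotopic g₁ g₂).map f
  exact h

/-- the straight path -/
def seg (p q : X) (h : segment ℝ (p : E) q ⊆ X) : Path p q where
  toFun t := ⟨(1 - (t : ℝ)) • (p : E) + (t : ℝ) • (q : E),
    h ⟨1 - t, t, by linarith [t.2.2], t.2.1, by ring, rfl⟩⟩
  continuous_toFun := by fun_prop
  source' := by simp
  target' := by simp

theorem seg_mem {p q : X} {h : segment ℝ (p : E) q ⊆ X} {C : Set E}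
    (hC : segment ℝ (p : E) q ⊆ C) (t : unitInterval) : ((seg p q h t : X) : E) ∈ C :=
  hC ⟨1 - t, t, by linarith [t.2.2], t.2.1, by ring, rfl⟩

theorem trans_mem {p q r : X} {γ : Path p q} {γ' : Path q r} {C : Set E}
    (h : ∀ t, (γ t : E) ∈ C) (h' : ∀ t, (γ' t : E) ∈ C) (t : unitInterval) :
    ((γ.trans γ' t : X) : E) ∈ C := by
  have h1 : (γ.trans γ') t ∈ Set.range (γ.trans γ') := ⟨t, rfl⟩
  rw [Path.trans_range] at h1
  rcases h1 with ⟨s, hs⟩ | ⟨s, hs⟩
  · rw [← hs]; exact h s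
  · rw [← hs]; exact h' s

end General

/-! ### Realizations -/

/-- the closed simplex -/
def Simp (s : Finset ℕ) : Set (ℕ → ℝ) :=
  {w | (∀ v, 0 ≤ w v) ∧ (∀ v, v ∉ s → w v = 0) ∧ ∑ v ∈ s, w v = 1}

/-- the realization of a family of simplices -/
def Rl (S : Set (Finset ℕ)) : Set (ℕ → ℝ) := {w | ∃ s ∈ S, w ∈ Simp s}

theorem Simp_sub {S : Set (Finset ℕ)} {s : Finset ℕ} (hs : s ∈ S) : Simp s ⊆ Rl S :=
  fun _ hw => ⟨s, hs, hw⟩

theorem convex_Simp (s : Finset ℕ) : Convex ℝ (Simp s) := by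
  intro x hx y hy a b ha hb hab
  refine ⟨fun v => ?_, fun v hv => ?_, ?_⟩
  · have h1 := hx.1 v
    have h2 := hy.1 v
    simp only [Pi.add_apply, Pi.smul_apply, smul_eq_mul]
    positivity
  · simp [hx.2.1 v hv, hy.2.1 v hv]
  · simp only [Pi.add_apply, Pi.smul_apply, smul_eq_mul]
    rw [Finset.sum_add_distrib, ← Finset.mul_sum, ← Finset.mul_sum, hx.2.2, hy.2.2]
    linarith

/-- the vertex -/
noncomputable def vx (v : ℕ) : ℕ → ℝ := Pi.single v 1

theorem vx_mem {s : Finset ℕ} {v : ℕ} (hv : v ∈ s) : vx v ∈ Simp s := by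
  refine ⟨fun u => ?_, fun u hu => ?_, ?_⟩
  · unfold vx
    rw [Pi.single_apply]
    split_ifs <;> norm_num
  · unfold vx
    rw [Pi.single_apply, if_neg]
    rintro rfl; exact hu hv
  · unfold vx
    simp [Pi.single_apply, hv]

/-- the open star -/
def St (S : Set (Finset ℕ)) (v : ℕ) : Set (ℕ → ℝ) := {w | w ∈ Rl S ∧ 0 < w v}

theorem mem_of_pos {s : Finset ℕ} {w : ℕ → ℝ} (hw : w ∈ Simp s) {v : ℕ} (hv : 0 < w v) :
    v ∈ s := by
  by_contra h
  rw [hw.2.1 v h] at hv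
  exact lt_irrefl _ hv

theorem star_St (S : Set (Finset ℕ)) (v : ℕ) : StarConvex ℝ (vx v) (St S v) := by
  intro w hw a b ha hb hab
  obtain ⟨⟨s, hs, hws⟩, hv⟩ := hw
  have hvs := mem_of_pos hws hv
  refine ⟨⟨s, hs, convex_Simp s (vx_mem hvs) hws ha hb hab⟩, ?_⟩
  simp only [Pi.add_apply, Pi.smul_apply, smul_eq_mul, vx, Pi.single_eq_same]
  rcases ha.lt_or_eq with h | h
  · positivity
  · rw [← h] at hab ⊢
    have : b = 1 := by linarith
    rw [this]; linarith

theorem exists_pos {S : Set (Finset ℕ)} (w : Rl S) : ∃ v, 0 < (w : ℕ → ℝ) v := by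
  obtain ⟨w, s, hs, hw⟩ := w
  by_contra h
  push Not at h
  have h1 : ∑ v ∈ s, w v = 0 := Finset.sum_eq_zero fun v _ => le_antisymm (h v) (hw.1 v)
  rw [hw.2.2] at h1
  norm_num at h1

/-- a family of simplices with any two vertices adjacent -/
structure Full (S : Set (Finset ℕ)) (V : Set ℕ) (v₀ : ℕ) : Prop where
  v₀ : v₀ ∈ V
  sub : ∀ s ∈ S, ∀ v ∈ s, v ∈ V
  edge : ∀ x ∈ V, ∀ y ∈ V, ∃ s ∈ S, x ∈ s ∧ y ∈ s

variable {S : Set (Finset ℕ)} {V : Set ℕ} {v₀ : ℕ}

open Classical in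
/-- the vertex, or the base vertex -/
noncomputable def vt (V : Set ℕ) (v₀ x : ℕ) : ℕ := if x ∈ V then x else v₀

theorem Full.vt_mem (h : Full S V v₀) (x : ℕ) : vt V v₀ x ∈ V := by
  unfold vt
  split_ifs with hx
  · exact hx
  · exact h.v₀

theorem vt_of {x : ℕ} (hx : x ∈ V) : vt V v₀ x = x := by unfold vt; rw [if_pos hx]

theorem Full.pt_mem (h : Full S V v₀) (x : ℕ) : vx (vt V v₀ x) ∈ Rl S := by
  obtain ⟨s, hs, h1, -⟩ := h.edge _ (h.vt_mem x) _ (h.vt_mem x)
  exact ⟨s, hs, vx_mem h1⟩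

/-- the point of the realization -/
noncomputable def Full.pt (h : Full S V v₀) (x : ℕ) : Rl S := ⟨vx (vt V v₀ x), h.pt_mem x⟩

theorem Full.seg_sub (h : Full S V v₀) (x y : ℕ) :
    segment ℝ (h.pt x : ℕ → ℝ) (h.pt y) ⊆ Rl S := by
  obtain ⟨s, hs, h1, h2⟩ := h.edge _ (h.vt_mem x) _ (h.vt_mem y)
  exact ((convex_Simp s).segment_subset (vx_mem h1) (vx_mem h2)).trans (Simp_sub hs)

/-- the class of the edge -/
noncomputable def Full.L (h : Full S V v₀) (x y : ℕ) :
    Path.Homotopic.Quotient (h.pt x) (h.pt y) :=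
  Path.Homotopic.Quotient.mk (seg (h.pt x) (h.pt y) (h.seg_sub x y))

theorem Full.face (h : Full S V v₀) {s : Finset ℕ} (hs : s ∈ S) {x y z : ℕ} (hx : x ∈ s)
    (hy : y ∈ s) (hz : z ∈ s) : (h.L x y).trans (h.L y z) = h.L x z := by
  have e : ∀ u ∈ s, (h.pt u : ℕ → ℝ) ∈ Simp s := by
    intro u hu
    show vx (vt V v₀ u) ∈ Simp s
    rw [vt_of (h.sub s hs u hu)]
    exact vx_mem hu
  have hc := convex_Simp s
  unfold Full.L
  rw [← Path.Homotopic.Quotient.mk_trans, Path.Homotopic.Quotient.eq]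
  apply homotopic_of_star (hc.starConvex (e x hx)) (Simp_sub hs)
  · exact trans_mem (seg_mem (hc.segment_subset (e x hx) (e y hy)))
      (seg_mem (hc.segment_subset (e y hy) (e z hz)))
  · exact seg_mem (hc.segment_subset (e x hx) (e z hz))

theorem Full.L_self (h : Full S V v₀) (x : ℕ) : h.L x x = Path.Homotopic.Quotient.refl (h.pt x) := by
  unfold Full.L
  rw [← Path.Homotopic.Quotient.mk_refl, Path.Homotopic.Quotient.eq]
  have hc := convex_singleton (𝕜 := ℝ) (h.pt x : ℕ → ℝ)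
  apply homotopic_of_star (hc.starConvex (Set.mem_singleton _)) (Set.singleton_subset_iff.2 (h.pt x).2)
  · exact seg_mem (hc.segment_subset (Set.mem_singleton _) (Set.mem_singleton _))
  · intro t; simp

theorem Full.L_symm (h : Full S V v₀) (x y : ℕ) :
    (h.L x y).trans (h.L y x) = Path.Homotopic.Quotient.refl (h.pt x) := by
  obtain ⟨s, hs, h1, h2⟩ := h.edge _ (h.vt_mem x) _ (h.vt_mem y)
  have hc := convex_Simp s
  have e1 : (h.pt x : ℕ → ℝ) ∈ Simp s := vx_mem h1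
  have e2 : (h.pt y : ℕ → ℝ) ∈ Simp s := vx_mem h2
  unfold Full.L
  rw [← Path.Homotopic.Quotient.mk_trans, ← Path.Homotopic.Quotient.mk_refl, Path.Homotopic.Quotient.eq]
  apply homotopic_of_star (hc.starConvex e1) (Simp_sub hs)
  · exact trans_mem (seg_mem (hc.segment_subset e1 e2)) (seg_mem (hc.segment_subset e2 e1))
  · intro t; simpa using e1

/-- the segment from a vertex to a point of its star -/
theorem Full.sig_sub (h : Full S V v₀) {v : ℕ} {p : Rl S} (hv : 0 < (p : ℕ → ℝ) v) :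
    segment ℝ (h.pt v : ℕ → ℝ) p ⊆ St S v := by
  obtain ⟨s, hs, hp⟩ := p.2
  have h1 := mem_of_pos hp hv
  have h2 : (h.pt v : ℕ → ℝ) = vx v := by
    show vx (vt V v₀ v) = vx v
    rw [vt_of (h.sub s hs v h1)]
  rw [h2]
  exact (star_St S v).segment_subset ⟨p.2, hv⟩

theorem St_sub (S : Set (Finset ℕ)) (v : ℕ) : St S v ⊆ Rl S := fun _ hw => hw.1

noncomputable def Full.sig (h : Full S V v₀) (v : ℕ) (p : Rl S) (hv : 0 < (p : ℕ → ℝ) v) :
    Path.Homotopic.Quotient (h.pt v) p :=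
  Path.Homotopic.Quotient.mk (seg (h.pt v) p ((h.sig_sub hv).trans (St_sub S v)))

theorem Full.sig_path (h : Full S V v₀) (v : ℕ) {p q : Rl S} (γ : Path p q)
    (hγ : ∀ t, 0 < (γ t : ℕ → ℝ) v) (hp : 0 < (p : ℕ → ℝ) v) (hq : 0 < (q : ℕ → ℝ) v) :
    (h.sig v p hp).trans (Path.Homotopic.Quotient.mk γ) = h.sig v q hq := by
  unfold Full.sig
  rw [← Path.Homotopic.Quotient.mk_trans, Path.Homotopic.Quotient.eq]
  apply homotopic_of_star (star_St S v) (St_sub S v)
  · exact trans_mem (seg_mem (h.sig_sub hp)) (fun t => ⟨(γ t).2, hγ t⟩)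
  · exact seg_mem (h.sig_sub hq)

theorem Full.sig_two (h : Full S V v₀) (v v' : ℕ) {p : Rl S} (hv : 0 < (p : ℕ → ℝ) v)
    (hv' : 0 < (p : ℕ → ℝ) v') : (h.L v v').trans (h.sig v' p hv') = h.sig v p hv := by
  obtain ⟨s, hs, hp⟩ := p.2
  have h1 := mem_of_pos hp hv
  have h1' := mem_of_pos hp hv'
  have e : ∀ u ∈ s, (h.pt u : ℕ → ℝ) ∈ Simp s := by
    intro u hu
    show vx (vt V v₀ u) ∈ Simp s
    rw [vt_of (h.sub s hs u hu)]
    exact vx_mem hu
  have hc := convex_Simp s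
  unfold Full.L Full.sig
  rw [← Path.Homotopic.Quotient.mk_trans, Path.Homotopic.Quotient.eq]
  apply homotopic_of_star (hc.starConvex (e v h1)) (Simp_sub hs)
  · exact trans_mem (seg_mem (hc.segment_subset (e v h1) (e v' h1')))
      (seg_mem (hc.segment_subset (e v' h1') hp))
  · exact seg_mem (hc.segment_subset (e v h1) hp)

/-- the canonical class -/
noncomputable def Full.cc (h : Full S V v₀) (v : ℕ) (p : Rl S) (hv : 0 < (p : ℕ → ℝ) v) :
    Path.Homotopic.Quotient (h.pt v₀) p := (h.L v₀ v).trans (h.sig v p hv)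

/-- all triangles at the base vertex are trivial -/
def Full.Triv (h : Full S V v₀) : Prop :=
  ∀ x ∈ V, ∀ y ∈ V, (h.L v₀ x).trans (h.L x y) = h.L v₀ y

theorem Full.cc_eq (h : Full S V v₀) (ht : h.Triv) (v v' : ℕ) {p : Rl S}
    (hv : 0 < (p : ℕ → ℝ) v) (hv' : 0 < (p : ℕ → ℝ) v') : h.cc v p hv = h.cc v' p hv' := by
  obtain ⟨s, hs, hp⟩ := p.2
  have h1 := h.sub s hs _ (mem_of_pos hp hv)
  have h1' := h.sub s hs _ (mem_of_pos hp hv')
  unfold Full.cc
  rw [← h.sig_two v v' hv hv', ← Path.Homotopic.Quotient.trans_assoc, ht v h1 v' h1']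

theorem Full.cc_path (h : Full S V v₀) (ht : h.Triv) {p q : Rl S} (γ : Path p q) (v v' : ℕ)
    (hv : 0 < (p : ℕ → ℝ) v) (hv' : 0 < (q : ℕ → ℝ) v') :
    (h.cc v p hv).trans (Path.Homotopic.Quotient.mk γ) = h.cc v' q hv' := by
  obtain ⟨t, ht0, hmono, ⟨N, hN⟩, hcov⟩ := exists_monotone_Icc_subset_open_cover_unitInterval
    (c := fun v : ℕ => {t | 0 < ((γ t : Rl S) : ℕ → ℝ) v}) (by
      intro v
      apply isOpen_lt continuous_const
      exact (continuous_apply v).comp (continuous_subtype_val.comp γ.continuous))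
    (by
      intro t _
      obtain ⟨v, hv⟩ := exists_pos (γ t)
      exact Set.mem_iUnion.2 ⟨v, hv⟩)
  have key : ∀ n, ∀ v v' (hv : 0 < ((γ (t 0) : Rl S) : ℕ → ℝ) v)
      (hv' : 0 < ((γ (t n) : Rl S) : ℕ → ℝ) v'),
      (h.cc v (γ (t 0)) hv).trans (Path.Homotopic.Quotient.mk (γ.subpath (t 0) (t n))) =
        h.cc v' (γ (t n)) hv' := by
    intro n
    induction n with
    | zero =>
      intro v v' hv hv'
      rw [Path.subpath_self, Path.Homotopic.Quotient.mk_refl, Path.Homotopic.Quotient.trans_refl]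
      exact h.cc_eq ht v v' hv hv'
    | succ n ih =>
      intro v v' hv hv'
      obtain ⟨w, hw⟩ := hcov n
      have hle := hmono (Nat.le_succ n)
      have hw1 : 0 < ((γ (t n) : Rl S) : ℕ → ℝ) w := hw ⟨le_rfl, hle⟩
      have hw2 : 0 < ((γ (t (n + 1)) : Rl S) : ℕ → ℝ) w := hw ⟨hle, le_rfl⟩
      have h1 : Path.Homotopic.Quotient.mk (γ.subpath (t 0) (t (n + 1))) =
          (Path.Homotopic.Quotient.mk (γ.subpath (t 0) (t n))).trans
            (Path.Homotopic.Quotient.mk (γ.subpath (t n) (t (n + 1)))) := by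
        rw [← Path.Homotopic.Quotient.mk_trans]
        exact (Path.Homotopic.Quotient.eq.2 ⟨Path.Homotopy.subpathTransSubpath γ _ _ _⟩).symm
      rw [h1, ← Path.Homotopic.Quotient.trans_assoc, ih v w hv hw1, h.cc_eq ht v' w hv' hw2]
      unfold Full.cc
      rw [Path.Homotopic.Quotient.trans_assoc, h.sig_path w _ ?_ hw1 hw2]
      intro s
      have h2 : (γ.subpath (t n) (t (n + 1))) s ∈ Set.range (γ.subpath (t n) (t (n + 1))) :=
        ⟨s, rfl⟩
      rw [Path.range_subpath_of_le _ _ _ hle] at h2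
      obtain ⟨r, hr, hrs⟩ := h2
      rw [← hrs]
      exact hw hr
  have h0 := key N
  rw [hN N le_rfl, ht0, Path.subpath_zero_one] at h0
  have gen : ∀ (a b : Rl S) (ha : a = p) (hb : b = q),
      (∀ v v' (hv : 0 < (a : ℕ → ℝ) v) (hv' : 0 < (b : ℕ → ℝ) v'),
      (h.cc v a hv).trans (Path.Homotopic.Quotient.mk (γ.cast ha hb)) = h.cc v' b hv') →
      (h.cc v p hv).trans (Path.Homotopic.Quotient.mk γ) = h.cc v' q hv' := by
    rintro a b rfl rfl hab
    exact hab v v' hv hv'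
  exact gen _ _ γ.source γ.target h0

theorem Full.simplyConnected (h : Full S V v₀) (ht : h.Triv) : SimplyConnectedSpace (Rl S) := by
  rw [simply_connected_iff_paths_homotopic']
  constructor
  · have hj : ∀ p : Rl S, Joined (h.pt v₀) p := by
      intro p
      obtain ⟨v, hv⟩ := exists_pos p
      exact ⟨(seg (h.pt v₀) (h.pt v) (h.seg_sub v₀ v)).trans
        (seg (h.pt v) p ((h.sig_sub hv).trans (St_sub S v)))⟩
    exact { nonempty := ⟨h.pt v₀⟩, joined := fun p q => (hj p).symm.trans (hj q) }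
  · intro p q γ γ'
    obtain ⟨v, hv⟩ := exists_pos p
    obtain ⟨v', hv'⟩ := exists_pos q
    have h1 := h.cc_path ht γ v v' hv hv'
    have h2 := h.cc_path ht γ' v v' hv hv'
    rw [← Path.Homotopic.Quotient.eq]
    have h3 : (h.cc v p hv).trans (Path.Homotopic.Quotient.mk γ) = (h.cc v p hv).trans (Path.Homotopic.Quotient.mk γ') :=
      h1.trans h2.symm
    have h4 := congrArg (fun x => (h.cc v p hv).symm.trans x) h3
    simp only [← Path.Homotopic.Quotient.trans_assoc, Path.Homotopic.Quotient.symm_trans, Path.Homotopic.Quotient.refl_trans] at h4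
    exact h4

end Pool.Agent.H694
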