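import Mathlib

/-!
# Triangulated disks coded by trees

A polygon is `(a, m, b)`: first vertex `a`, middle vertices `m`, last vertex `b`; the root side is
`{a, b}`. `Dk t a m b J H`: the tree `t` describes a triangulation of this polygon with interior
vertices `J` and faces `H`.
-/

namespace Pool.Agent.H694

/-- Shapes of triangulated polygons. -/
inductive Tr : Type
  | edge : Tr
  | split (l r : Tr) : Tr
  | inner (s : Tr) : Tr
  deriving DecidableEq

namespace Tr

/-- number of middle vertices of the polygon -/
def md : Tr → ℕ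
  | edge => 0
  | split l r => l.md + 1 + r.md
  | inner s => s.md - 1

/-- number of interior vertices -/
def inn : Tr → ℕ
  | edge => 0
  | split l r => l.inn + r.inn
  | inner s => s.inn + 1

/-- is the first vertex joined by a chord to the middle vertex with index `j ≥ 1`? -/
def ch : Tr → ℕ → Prop
  | edge, _ => False
  | split l _, j => (j < l.md ∧ l.ch j) ∨ j = l.md
  | inner s, j => s.ch j

/-- the shapes without double edges -/
def ok : Tr → Prop
  | edge => True
  | split l r => l.ok ∧ r.ok
  | inner s => s.ok ∧ 2 ≤ s.md ∧ ¬ s.ch (s.md - 1)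

instance decCh : ∀ (t : Tr) (j : ℕ), Decidable (t.ch j)
  | edge, _ => isFalse (fun h => h)
  | split l _, j => by
    have := decCh l j
    exact inferInstanceAs (Decidable ((j < l.md ∧ l.ch j) ∨ j = l.md))
  | inner s, j => decCh s j

instance decOk : ∀ t : Tr, Decidable t.ok
  | edge => isTrue trivial
  | split l r => by
    have := decOk l
    have := decOk r
    exact inferInstanceAs (Decidable (l.ok ∧ r.ok))
  | inner s => by
    have := decOk s
    exact inferInstanceAs (Decidable (s.ok ∧ 2 ≤ s.md ∧ ¬ s.ch (s.md - 1)))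

end Tr

open Tr

/-- `Dk t a m b J H`: the faces `H` triangulate the polygon `a, m, b`. -/
inductive Dk : Tr → ℕ → List ℕ → ℕ → List ℕ → List (Finset ℕ) → Prop
  | edge (a b : ℕ) : Dk Tr.edge a [] b [] []
  | split {l r : Tr} {a b c : ℕ} {m₁ m₂ J₁ J₂ : List ℕ} {H₁ H₂ : List (Finset ℕ)} :
      Dk l a m₁ c J₁ H₁ → Dk r c m₂ b J₂ H₂ →
      Dk (Tr.split l r) a (m₁ ++ c :: m₂) b (J₁ ++ J₂) ({a, c, b} :: (H₁ ++ H₂))
  | inner {s : Tr} {a b w : ℕ} {m J : List ℕ} {H : List (Finset ℕ)} :
      Dk s a (m ++ [b]) w J H → Dk (Tr.inner s) a m b (w :: J) ({a, b, w} :: H)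

variable {t : Tr} {a b : ℕ} {m J : List ℕ} {H : List (Finset ℕ)}

theorem Dk.length (h : Dk t a m b J H) : m.length = t.md := by
  induction h with
  | edge => rfl
  | split _ _ ih₁ ih₂ => simp [Tr.md, ih₁, ih₂]; omega
  | inner _ ih => simp [Tr.md] at ih ⊢; omega

theorem Dk.lengthJ (h : Dk t a m b J H) : J.length = t.inn := by
  induction h with
  | edge => rfl
  | split _ _ ih₁ ih₂ => simp [Tr.inn, ih₁, ih₂]
  | inner _ ih => simp [Tr.inn, ih]

/-- all vertices -/
def vs (a : ℕ) (m : List ℕ) (b : ℕ) (J : List ℕ) : List ℕ := a :: (m ++ b :: J)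

theorem mem_vs {x : ℕ} : x ∈ vs a m b J ↔ x = a ∨ x ∈ m ∨ x = b ∨ x ∈ J := by simp [vs]

theorem Dk.subset (h : Dk t a m b J H) : ∀ f ∈ H, ∀ x ∈ f, x ∈ vs a m b J := by
  induction h with
  | edge => simp
  | split _ _ ih₁ ih₂ =>
    intro f hf x hx
    simp only [List.mem_cons, List.mem_append] at hf
    rcases hf with rfl | hf | hf
    · simp [mem_vs] at hx ⊢; tauto
    · have := ih₁ f hf x hx
      simp [mem_vs] at this ⊢; tauto
    · have := ih₂ f hf x hx
      simp [mem_vs] at this ⊢; tauto
  | inner _ ih =>
    intro f hf x hx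
    simp only [List.mem_cons] at hf
    rcases hf with rfl | hf
    · simp [mem_vs] at hx ⊢; tauto
    · have := ih f hf x hx
      simp [mem_vs] at this ⊢; tauto

/-- Every vertex is in a face, unless the shape is a single edge. -/
theorem Dk.cover (h : Dk t a m b J H) (hok : t.ok) (ht : t ≠ Tr.edge) :
    ∀ x ∈ vs a m b J, ∃ f ∈ H, x ∈ f := by
  induction h with
  | edge => exact absurd rfl ht
  | @split l r a b c m₁ m₂ J₁ J₂ H₁ H₂ h₁ h₂ ih₁ ih₂ =>
    intro x hx
    by_cases hx0 : x = a ∨ x = c ∨ x = b
    · exact ⟨{a, c, b}, by simp, by simpa using hx0⟩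
    · have h3 : x ∈ vs a m₁ c J₁ ∨ x ∈ vs c m₂ b J₂ := by
        simp [mem_vs] at hx ⊢; tauto
      rcases h3 with h3 | h3
      · by_cases hl : l = Tr.edge
        · subst hl; cases h₁; simp [mem_vs] at h3; tauto
        · obtain ⟨f, hf, hxf⟩ := ih₁ hok.1 hl x h3
          exact ⟨f, by simp [hf], hxf⟩
      · by_cases hl : r = Tr.edge
        · subst hl; cases h₂; simp [mem_vs] at h3; tauto
        · obtain ⟨f, hf, hxf⟩ := ih₂ hok.2 hl x h3
          exact ⟨f, by simp [hf], hxf⟩
  | @inner s a b w m J H h ih =>
    intro x hx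
    have hs : s ≠ Tr.edge := by
      rintro rfl
      have := hok.2.1
      simp [Tr.md] at this
    obtain ⟨f, hf, hxf⟩ := ih hok.1 hs x (by simp [mem_vs] at hx ⊢; tauto)
    exact ⟨f, by simp [hf], hxf⟩

theorem Dk.count (h : Dk t a m b J H) (hok : t.ok) : H.length = 2 * t.inn + t.md := by
  induction h with
  | edge => rfl
  | split _ _ ih₁ ih₂ =>
    have h1 := ih₁ hok.1
    have h2 := ih₂ hok.2
    simp [Tr.inn, Tr.md, h1, h2]; omega
  | inner _ ih =>
    have h1 := ih hok.1
    have h2 := hok.2.1
    simp [Tr.inn, Tr.md, h1]; omega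

/-- No face contains the first vertex and a middle vertex which is not joined to it by a chord. -/
theorem Dk.noChord (h : Dk t a m b J H) (hn : (vs a m b J).Nodup) {j : ℕ} (hj : 1 ≤ j)
    {x : ℕ} (hx : m[j]? = some x) (hc : ¬ t.ch j) : ∀ f ∈ H, ¬ (a ∈ f ∧ x ∈ f) := by
  induction h generalizing j x with
  | edge => simp
  | @split l r a b c m₁ m₂ J₁ J₂ H₁ H₂ h₁ h₂ ih₁ ih₂ =>
    have hl := h₁.length
    simp only [Tr.ch, not_or, not_and] at hc
    have hxm : x ∈ m₁ ++ c :: m₂ := List.mem_of_getElem? hx
    have hxa : x ≠ a := by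
      rintro rfl; simp [vs] at hn hxm; tauto
    have hxb : x ≠ b := by
      rintro rfl; simp [vs, List.nodup_append] at hn hxm; grind
    intro f hf
    simp only [List.mem_cons, List.mem_append] at hf
    rcases lt_trichotomy j l.md with hjl | hjl | hjl
    · have hx1 : m₁[j]? = some x := by
        rwa [List.getElem?_append_left (by omega)] at hx
      have hx1m : x ∈ m₁ := List.mem_of_getElem? hx1
      rcases hf with rfl | hf | hf
      · rintro ⟨-, h⟩
        simp only [Finset.mem_insert, Finset.mem_singleton] at h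
        rcases h with h | h | h
        · exact hxa h
        · subst h
          simp [vs, List.nodup_append] at hn; grind
        · exact hxb h
      · refine ih₁ ?_ hj hx1 (hc.1 hjl) f hf
        simp [vs, List.nodup_append] at hn ⊢; grind
      · rintro ⟨h, -⟩
        have := h₂.subset f hf a h
        simp [mem_vs] at this
        simp [vs, List.nodup_append] at hn; grind
    · exact absurd hjl hc.2
    · have hx2 : x ∈ m₂ := by
        rw [List.getElem?_append_right (by omega)] at hx
        obtain ⟨k, hk⟩ : ∃ k, j - m₁.length = k + 1 := ⟨j - m₁.length - 1, by omega⟩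
        rw [hk, List.getElem?_cons_succ] at hx
        exact List.mem_of_getElem? hx
      rcases hf with rfl | hf | hf
      · rintro ⟨-, h⟩
        simp only [Finset.mem_insert, Finset.mem_singleton] at h
        rcases h with h | h | h
        · exact hxa h
        · subst h
          simp [vs, List.nodup_append] at hn; grind
        · exact hxb h
      · rintro ⟨-, h⟩
        have := h₁.subset f hf x h
        simp [mem_vs] at this
        simp [vs, List.nodup_append] at hn; grind
      · rintro ⟨h, -⟩
        have := h₂.subset f hf a h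
        simp [mem_vs] at this
        simp [vs, List.nodup_append] at hn; grind
  | @inner s a b w m J H h ih =>
    have hxm : x ∈ m := List.mem_of_getElem? hx
    intro f hf
    simp only [List.mem_cons] at hf
    rcases hf with rfl | hf
    · rintro ⟨-, h⟩
      simp only [Finset.mem_insert, Finset.mem_singleton] at h
      simp [vs, List.nodup_append] at hn; grind
    · refine ih ?_ hj ?_ hc f hf
      · simp [vs, List.nodup_append] at hn ⊢; grind
      · rw [List.getElem?_append_left (List.getElem?_eq_some_iff.1 hx).1]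
        exact hx

end Pool.Agent.H694
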